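import Pool.Agent.H534.RT.GoldB
import Pool.Graph.R_pool_sql_team_seeded_843ab51a.Results.MP_bae66e_nt.EveryEvenSmallPrime

/-!
# Goldbach pairs with an explicit number of prime factors, for every even number
-/

set_option autoImplicit false

open Finset Filter

namespace Pool.Agent.H534.RT

open Pool.Agent.H534.RS
open Pool.Agent.Q236.GW (SG Cz C2 Cz_anti Cz_low C2_low)
open Pool.Agent.Results.MP_bae66e_nt.EveryEvenSmallPrime (sing window)

lemma C2_le_one : C2 ≤ 1 := by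
  unfold Pool.Agent.Q236.GW.C2
  have hb : BddBelow (Set.range Cz) := ⟨1 / 2, by rintro _ ⟨z, rfl⟩; exact Cz_low z⟩
  refine (ciInf_le hb 0).trans ?_
  unfold Pool.Agent.Q236.GW.Cz
  simp

lemma SG_le_sing (N : ℕ) : SG N ≤ 2 * sing N := by
  unfold Pool.Agent.Q236.GW.SG Pool.Agent.Results.MP_bae66e_nt.EveryEvenSmallPrime.sing
  have h1 : N.primeFactors.filter (fun p => 2 < p) = N.primeFactors.erase 2 := by
    ext p
    rw [mem_filter, mem_erase]
    constructor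
    · rintro ⟨h1, h2⟩
      exact ⟨by omega, h1⟩
    · rintro ⟨h1, h2⟩
      have := (Nat.prime_of_mem_primeFactors h2).two_le
      exact ⟨h2, by omega⟩
  rw [h1]
  have h2 : 0 ≤ ∏ p ∈ N.primeFactors.erase 2, ((p : ℝ) - 1) / ((p : ℝ) - 2) := by
    apply prod_nonneg
    intro p hp
    rw [mem_erase] at hp
    have h3 := (Nat.prime_of_mem_primeFactors hp.2).two_le
    have h4 : (3 : ℝ) ≤ p := by exact_mod_cast (by omega : 3 ≤ p)
    apply div_nonneg <;> linarith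
  have h3 := C2_le_one
  nlinarith

lemma sing_nonneg (N : ℕ) : 0 ≤ sing N := by
  unfold Pool.Agent.Results.MP_bae66e_nt.EveryEvenSmallPrime.sing
  apply prod_nonneg
  intro p hp
  rw [mem_erase] at hp
  have h3 := (Nat.prime_of_mem_primeFactors hp.2).two_le
  have h4 : (3 : ℝ) ≤ p := by exact_mod_cast (by omega : 3 ≤ p)
  apply div_nonneg <;> linarith

open Classical in
/-- the primes `p` of `(H / 3, H / 3 + H]` for which `N - p` has at most `r` prime factors, all of them at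
least `N ^ ζ / 2` -/
noncomputable def GW (r : ℕ) (ζ : ℝ) (N H : ℕ) : Finset ℕ :=
  (Ioc (H / 3) (H / 3 + H)).filter (fun p => p.Prime ∧ (N - p).primeFactorsList.length ≤ r ∧
    ∀ q : ℕ, q.Prime → q ∣ (N - p) → (N : ℝ) ^ ζ / 2 ≤ q)

open Classical in
theorem goldW (r : ℕ) (θ τ : ℝ) (hτ0 : 0 < τ) (hτθ : τ < θ / 2) (hθ1 : θ ≤ 1)
    (hr : 10 / 9 < (r + 3 / 80) * τ) (k : ℕ) (δ : ℝ) (hk : 1 ≤ k) (hδ : 0 < δ) (hδ1 : δ ≤ 1) :
    ∃ c : ℝ, 0 < c ∧ ∃ N₀ : ℕ, ∀ N : ℕ, N₀ ≤ N → Even N → ∀ H : ℕ, (N : ℝ) ^ θ ≤ H → 3 * H ≤ N →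
    ∀ b : Fin k → ℕ, Function.Injective b → (∀ i, 1 ≤ b i) → (∀ i, (b i : ℝ) ≤ (H : ℝ) ^ (1 - δ)) →
    c * (H : ℝ) ^ (δ / 8) ≤ (((Icc 1 ⌊(H : ℝ) ^ (δ / 8)⌋₊).filter (fun d =>
      c * (SG N * (H * Real.log (Real.log H) ^ (2 * k) / Real.log H ^ (2 * (k + 1)))) ≤
        (((GW r (τ / 4) N H).filter (fun n => ∀ i, n + WW (δ / 8) H * d * b i ∈
          GW r (τ / 4) N H)).card : ℝ))).card : ℝ) := by
  have hθ0 : 0 < θ := by linarith
  obtain ⟨κ, hκ, N₁, h1⟩ := Pool.Agent.Results.MP_bae66e_nt.EveryEvenSmallPrime.result r θ τ hτ0 hτθ hθ1 hr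
  obtain ⟨E, hE⟩ : ∃ E : ℕ, E = max ⌈1 / θ⌉₊ 1 := ⟨_, rfl⟩
  have hE1 : 1 ≤ E := by rw [hE]; exact le_max_right _ _
  have hE0 : (1 : ℝ) ≤ E := by exact_mod_cast hE1
  have hEθ : 1 / θ ≤ E := by
    rw [hE]
    exact (Nat.le_ceil _).trans (by exact_mod_cast le_max_left _ _)
  have hτ1 : τ < 1 / 2 := by linarith
  obtain ⟨c, hc, H₀, h⟩ := goldA k E δ (τ / 8) (κ / (2 * (E : ℝ) ^ 2)) hk hE1 hδ hδ1 (by positivity)
    (by positivity)
  have hNθ : Tendsto (fun N : ℕ => (N : ℝ) ^ θ) atTop atTop :=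
    (tendsto_rpow_atTop hθ0).comp tendsto_natCast_atTop_atTop
  have hNτ : Tendsto (fun N : ℕ => (N : ℝ) ^ (τ / 8)) atTop atTop :=
    (tendsto_rpow_atTop (by positivity)).comp tendsto_natCast_atTop_atTop
  obtain ⟨N₂, h2⟩ := eventually_atTop.1 ((hNθ.eventually_ge_atTop (max (H₀ : ℝ) 16)).and
    ((hNτ.eventually_gt_atTop 2).and (eventually_ge_atTop N₁)))
  refine ⟨c, hc, N₂, fun N hN hev H hNH hHN b hb hb1 hb2 => ?_⟩
  obtain ⟨g1, g2, g3⟩ := h2 N hN
  have hHH : (H₀ : ℝ) ≤ H := (le_max_left _ _).trans (g1.trans hNH)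
  have hH16 : (16 : ℝ) ≤ H := (le_max_right _ _).trans (g1.trans hNH)
  have hH0' : H₀ ≤ H := by exact_mod_cast hHH
  have hH16' : 16 ≤ H := by exact_mod_cast hH16
  have hNr : (3 : ℝ) * H ≤ N := by exact_mod_cast hHN
  have hN0 : (0 : ℝ) < N := by linarith
  have hH0 : (0 : ℝ) < H := by linarith
  have hLH : 0 < Real.log H := Real.log_pos (by linarith)
  have hLN : 0 < Real.log N := Real.log_pos (by linarith)
  have hNE : (N : ℝ) ≤ (H : ℝ) ^ (E : ℝ) := by
    have e1 : (N : ℝ) = ((N : ℝ) ^ θ) ^ (1 / θ) := by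
      rw [← Real.rpow_mul hN0.le, mul_one_div_cancel hθ0.ne', Real.rpow_one]
    rw [e1]
    calc ((N : ℝ) ^ θ) ^ (1 / θ) ≤ (H : ℝ) ^ (1 / θ) :=
          Real.rpow_le_rpow (by positivity) hNH (by positivity)
      _ ≤ (H : ℝ) ^ (E : ℝ) := Real.rpow_le_rpow_of_exponent_le (by linarith) hEθ
  rw [Real.rpow_natCast] at hNE
  have hNE' : N ≤ H ^ E := by exact_mod_cast hNE
  have hLL : Real.log N ≤ E * Real.log H := by
    have := Real.log_le_log hN0 hNE
    rwa [Real.log_pow] at this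
  refine h N (H / 3) H (GW r (τ / 4) N H) hH0' hev (by omega) hNE' (filter_subset _ _) ?_ ?_ b hb hb1 hb2
  · intro n hn p hp hpH
    unfold GW at hn
    rw [mem_filter, mem_Ioc] at hn
    obtain ⟨⟨hn1, hn2⟩, hn3, -, hn4⟩ := hn
    constructor
    · intro hd
      have h5 := (Nat.prime_dvd_prime_iff_eq hp hn3).1 hd
      have h6 : (H : ℝ) / 3 < p := by
        rw [h5, div_lt_iff₀ (by norm_num)]
        have : H < n * 3 := by omega
        exact_mod_cast this
      have h7 : (H : ℝ) ^ (τ / 8) ≤ (H : ℝ) ^ (1 / 2 : ℝ) :=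
        Real.rpow_le_rpow_of_exponent_le (by linarith) (by linarith)
      have h8 : (H : ℝ) ^ (1 / 2 : ℝ) ≤ H / 3 := by
        rw [← Real.sqrt_eq_rpow]
        rw [Real.sqrt_le_left (by positivity)]
        nlinarith
      linarith
    · intro hd
      have h5 := hn4 p hp hd
      have h6 : (H : ℝ) ^ (τ / 8) ≤ (N : ℝ) ^ (τ / 8) :=
        Real.rpow_le_rpow hH0.le (by linarith) (by positivity)
      have h7 : (N : ℝ) ^ (τ / 4) = (N : ℝ) ^ (τ / 8) * (N : ℝ) ^ (τ / 8) := by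
        rw [← Real.rpow_add hN0]
        ring_nf
      rw [h7] at h5
      nlinarith
  · have hw := h1 N g3 hev (4 * H / 3) (by linarith) (by linarith)
    have hwA : (window r (τ / 4) (4 * H / 3) N : ℝ) ≤ ((GW r (τ / 4) N H).card : ℝ) := by
      apply Nat.cast_le.2
      unfold Pool.Agent.Results.MP_bae66e_nt.EveryEvenSmallPrime.window GW
      apply card_le_card
      intro p hp
      rw [mem_filter, mem_range] at hp
      obtain ⟨k1, k2, k3, k4, k5, k6⟩ := hp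
      have k7 : H < 3 * p := by
        have : (H : ℝ) < 3 * p := by linarith
        exact_mod_cast this
      have k8 : 3 * p < 4 * H := by
        have : (3 : ℝ) * p < 4 * H := by linarith
        exact_mod_cast this
      exact mem_filter.2 ⟨mem_Ioc.2 ⟨by omega, by omega⟩, k2, k5, k6⟩
    refine le_trans ?_ (hw.trans hwA)
    have hs1 := SG_le_sing N
    have hs2 := sing_nonneg N
    have hE2 : (0 : ℝ) < (E : ℝ) ^ 2 := by positivity
    have hl2 : Real.log N ^ 2 ≤ (E : ℝ) ^ 2 * Real.log H ^ 2 := by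
      rw [← mul_pow]
      exact pow_le_pow_left₀ hLN.le hLL 2
    have q1 : (H : ℝ) / ((E : ℝ) ^ 2 * Real.log H ^ 2) ≤ 4 * H / 3 / Real.log N ^ 2 := by
      have : (H : ℝ) ≤ 4 * H / 3 := by linarith
      exact div_le_div₀ (by positivity) this (by positivity) hl2
    calc κ / (2 * (E : ℝ) ^ 2) * (SG N * (H / Real.log H ^ 2))
        ≤ κ / (2 * (E : ℝ) ^ 2) * ((2 * sing N) * (H / Real.log H ^ 2)) := by
          apply mul_le_mul_of_nonneg_left _ (by positivity)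
          exact mul_le_mul_of_nonneg_right hs1 (by positivity)
      _ = κ * sing N * ((H : ℝ) / ((E : ℝ) ^ 2 * Real.log H ^ 2)) := by
          field_simp
      _ ≤ κ * sing N * (4 * H / 3 / Real.log N ^ 2) :=
          mul_le_mul_of_nonneg_left q1 (by positivity)

end Pool.Agent.H534.RT
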