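import Pool.Agent.H534.RT.Gen

/-!
# Lower bounds for the almost prime values, uniformly in the system, in all intervals
-/

set_option autoImplicit false

open Finset Filter Polynomial

namespace Pool.Agent.H534.RT

open Pool.Agent.H534.RS hiding majW classes engP
open Pool.Agent.W123.RP Pool.Agent.H373R2.T7 Pool.Agent.W123.RU Pool.Agent.W123.RU.Poly
open Pool.Agent.Y879.GL (US us_adm us_perB lf lf_eval us_lf lf_assoc V_low_log)

/-- translation of the conditions -/
def shQ (Q : ℕ → ℕ → Prop) (a : ℕ) (p n : ℕ) : Prop := Q p (n + a)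

lemma shQ_nu {Q : ℕ → ℕ → Prop} {c : ℕ} (hQ : PerB Q c) (a p : ℕ) (hp : p.Prime) : nuB (shQ Q a) p = nuB Q p := by
  classical
  unfold nuB shQ
  apply card_bij (fun r _ => (r + a) % p)
  · intro r hr
    rw [mem_filter] at hr ⊢
    exact ⟨mem_range.2 (Nat.mod_lt _ hp.pos), (hQ.per p (r + a)).1 hr.2⟩
  · intro r hr r' hr' h
    rw [mem_filter, mem_range] at hr hr'
    have h1 : r ≡ r' [MOD p] := Nat.ModEq.add_right_cancel' a h
    have h2 : r % p = r' % p := h1
    rwa [Nat.mod_eq_of_lt hr.1, Nat.mod_eq_of_lt hr'.1] at h2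
  · intro u hu
    rw [mem_filter, mem_range] at hu
    refine ⟨(u + (p - a % p)) % p, ?_, ?_⟩
    · rw [mem_filter, mem_range]
      refine ⟨Nat.mod_lt _ hp.pos, ?_⟩
      rw [hQ.per]
      have e : ((u + (p - a % p)) % p + a) % p = u := by
        have h1 : ((u + (p - a % p)) % p + a) % p = (u + (p - a % p) + a) % p := by
          rw [Nat.add_mod, Nat.mod_mod, ← Nat.add_mod]
        rw [h1]
        have h2 : u + (p - a % p) + a = u + p * (a / p + 1) := by
          have h3 := Nat.mod_add_div a p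
          have h4 := Nat.mod_lt a hp.pos
          have h5 : p * (a / p + 1) = p * (a / p) + p := by ring
          omega
        rw [h2, Nat.add_mul_mod_self_left]
        exact Nat.mod_eq_of_lt hu.1
      rw [e]
      exact hu.2
    · have h1 : ((u + (p - a % p)) % p + a) % p = (u + (p - a % p) + a) % p := by
        rw [Nat.add_mod, Nat.mod_mod, ← Nat.add_mod]
      rw [h1]
      have h2 : u + (p - a % p) + a = u + p * (a / p + 1) := by
        have h3 := Nat.mod_add_div a p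
        have h4 := Nat.mod_lt a hp.pos
        have h5 : p * (a / p + 1) = p * (a / p) + p := by ring
        omega
      rw [h2, Nat.add_mul_mod_self_left]
      exact Nat.mod_eq_of_lt hu.1

lemma shQ_perB {Q : ℕ → ℕ → Prop} {c : ℕ} (hQ : PerB Q c) (a : ℕ) : PerB (shQ Q a) c := by
  refine ⟨fun p n => ?_, fun p hp => ?_⟩
  · unfold shQ
    rw [hQ.per p (n + a), hQ.per p (n % p + a)]
    rw [Nat.add_mod, Nat.add_mod (n % p) a p, Nat.mod_mod]
  · rw [shQ_nu hQ a p hp]
    exact hQ.few p hp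

lemma shQ_Vq {Q : ℕ → ℕ → Prop} {c : ℕ} (hQ : PerB Q c) (a z : ℕ) : Vq (shQ Q a) z = Vq Q z := by
  unfold Vq
  apply prod_congr rfl
  intro p hp
  rw [shQ_nu hQ a p (mem_pz.1 hp).2]

open Classical in
/-- **Lower bound for the almost prime values, in all intervals.** -/
theorem genS (s D : ℕ) : ∃ r₀ : ℕ, 2 ≤ r₀ ∧ ∀ r : ℕ, r₀ ≤ r → ∀ᶠ H : ℕ in atTop, ∀ (M : ℝ) (Y : ℕ),
    H ≤ Y → ∀ f : Fin s → ℤ[X], US s D M 0 f →
    1 / 2 * (H * Vq (Poly.Q f) H) ≤ (((Ioc Y (Y + H)).filter (fun n : ℕ =>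
      ∀ i, ∀ q : ℕ, q.Prime → (q : ℝ) ≤ (H : ℝ) ^ (1 / (r : ℝ)) → ¬ (q : ℤ) ∣ (f i).eval (n : ℤ))).card : ℝ) := by
  obtain ⟨K0, hK0, h⟩ := rough_lower (s * D + 1) (by omega)
  refine ⟨K0, hK0, fun r hr => ?_⟩
  obtain ⟨v, hv, hV⟩ := V_low_log (s * D + 1) r (by omega)
  have hl : Tendsto (fun H : ℕ => Real.log (H : ℝ)) atTop atTop :=
    Real.tendsto_log_atTop.comp tendsto_natCast_atTop_atTop
  filter_upwards [h r hr (s * D + 2), hV, hl.eventually_ge_atTop (1 / v), hl.eventually_gt_atTop 0,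
    eventually_ge_atTop 2] with H hH hHV hHl hHl0 hH2
  intro M Y hHY f hf
  obtain ⟨Q', hQ'⟩ : ∃ Q', Q' = shQ (Poly.Q f) (Y - H) := ⟨_, rfl⟩
  have hper : PerB Q' (s * D + 1) := by rw [hQ']; exact shQ_perB (us_perB hf) _
  have hVq : ∀ z, Vq Q' z = Vq (Poly.Q f) z := fun z => by rw [hQ']; exact shQ_Vq (us_perB hf) _ z
  have hrr : (2 : ℝ) ≤ r := by exact_mod_cast hK0.trans hr
  have hHr : (2 : ℝ) ≤ H := by exact_mod_cast hH2
  have h1 := hH Q' hper (by
    rw [hVq]
    refine le_trans ?_ (hHV _ (us_perB hf) (us_adm hf))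
    rw [show s * D + 2 = s * D + 1 + 1 by ring, pow_succ, ← div_div, div_le_div_iff₀ (by positivity) (by positivity)]
    rw [div_le_iff₀ hv] at hHl
    rw [one_div, inv_mul_cancel₀ (by positivity)]
    linarith)
  rw [hVq] at h1
  have h2 : Vq (Poly.Q f) H ≤ Vq (Poly.Q f) ⌊(H : ℝ) ^ (1 / (r : ℝ))⌋₊ := by
    apply Vq_anti (us_adm hf)
    apply Nat.floor_le_of_le
    nth_rewrite 2 [← Real.rpow_one (H : ℝ)]
    apply Real.rpow_le_rpow_of_exponent_le (by linarith)
    rw [div_le_one (by linarith)]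
    linarith
  calc 1 / 2 * (H * Vq (Poly.Q f) H) ≤ 1 / 2 * (H * Vq (Poly.Q f) ⌊(H : ℝ) ^ (1 / (r : ℝ))⌋₊) := by gcongr
    _ = Vq (Poly.Q f) ⌊(H : ℝ) ^ (1 / (r : ℝ))⌋₊ * H / 2 := by ring
    _ ≤ _ := h1
    _ ≤ _ := by
        apply Nat.cast_le.2
        apply card_le_card_of_injOn (fun n => n + (Y - H))
        · intro n hn
          rw [mem_coe, mem_filter, mem_Ioc] at hn
          rw [mem_coe, mem_filter, mem_Ioc]
          beta_reduce
          refine ⟨by omega, fun i q hq hqH hd => ?_⟩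
          apply hn.2 q (mem_pz.2 ⟨Nat.le_floor hqH, hq⟩)
          rw [hQ']
          unfold shQ
          exact ⟨i, hd⟩
        · intro a _ b _ hab
          simp only at hab
          omega

end Pool.Agent.H534.RT
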