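import Pool.Agent.H534.RT.GoldB
import Pool.Agent.H534.RT.Sie

/-!
# Almost prime Goldbach pairs in all intervals, uniformly in the even number
-/

set_option autoImplicit false

open Finset Filter Polynomial

namespace Pool.Agent.H534.RT

open Pool.Agent.H534.RS hiding majW classes engP
open Pool.Agent.W123.RP Pool.Agent.H373R2.T7 Pool.Agent.W123.RU Pool.Agent.W123.RU.Poly
open Pool.Agent.Y879.GL (US us_adm us_perB lf lf_eval us_lf lf_assoc)
open Pool.Agent.Q236.GW (gl gl_us SG VGX_order)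

open Classical in
/-- the `n` of `(Y, Y + H]` with `n` and `N - n` free of primes up to `H ^ (1 / r)` -/
noncomputable def GS (N Y H r : ℕ) : Finset ℕ :=
  (Ioc Y (Y + H)).filter (fun n => ∀ q : ℕ, q.Prime → q ∣ n ∨ q ∣ N - n → (H : ℝ) ^ (1 / (r : ℝ)) < q)

open Classical in
/-- **Goldbach pairs of almost primes in all intervals.** -/
theorem goldS : ∃ r₀ : ℕ, 2 ≤ r₀ ∧ ∀ r : ℕ, r₀ ≤ r → ∀ (k E : ℕ) (δ : ℝ), 1 ≤ k → 1 ≤ E → 0 < δ → δ ≤ 1 →
    ∃ c : ℝ, 0 < c ∧ ∀ᶠ H : ℕ in atTop, ∀ N Y : ℕ, Even N → H ≤ Y → Y + H < N → N ≤ H ^ E →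
    ∀ b : Fin k → ℕ, Function.Injective b → (∀ i, 1 ≤ b i) → (∀ i, (b i : ℝ) ≤ (H : ℝ) ^ (1 - δ)) →
    c * (H : ℝ) ^ (δ / 8) ≤ (((Icc 1 ⌊(H : ℝ) ^ (δ / 8)⌋₊).filter (fun d =>
      c * (SG N * (H * Real.log (Real.log H) ^ (2 * k) / Real.log H ^ (2 * (k + 1)))) ≤
        (((GS N Y H r).filter (fun n => ∀ i, n + WW (δ / 8) H * d * b i ∈ GS N Y H r)).card : ℝ))).card : ℝ) := by
  obtain ⟨r₀, hr₀, hm⟩ := genS 2 1
  refine ⟨r₀, hr₀, fun r hr k E δ hk hE hδ hδ1 => ?_⟩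
  have hr0 : (0 : ℝ) < r := by exact_mod_cast (by omega : 0 < r)
  obtain ⟨c₁, c₂, hc₁, hc₂, hord⟩ := VGX_order E
  obtain ⟨c, hc, H₀, hA⟩ := goldA k E δ (1 / r) (1 / 2 * c₁) hk hE hδ hδ1 (by positivity) (by positivity)
  refine ⟨c, hc, ?_⟩
  filter_upwards [hm r hr, hord, eventually_ge_atTop (max H₀ 2)] with H h1 h2 h3 N Y hN hHY hYN hNE b hb hb1 hb2
  have hH0 : H₀ ≤ H := (le_max_left _ _).trans h3
  have hH2 : 2 ≤ H := (le_max_right _ _).trans h3
  have hHr : (1 : ℝ) < H := by exact_mod_cast (by omega : 1 < H)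
  have hab : ((N : ℤ) * (-1)).natAbs = N := by simp
  have hcop : IsCoprime (N : ℤ) (-1) := isCoprime_one_right.neg_right
  have hev : Even ((N : ℤ) * (-1)) := by
    obtain ⟨w, hw⟩ := hN
    exact ⟨-w, by rw [hw]; push_cast; ring⟩
  have hNR : |((N : ℤ) : ℝ)| ≤ (H : ℝ) ^ E := by
    rw [Int.cast_natCast, abs_of_nonneg (Nat.cast_nonneg _)]
    exact_mod_cast hNE
  have h1R : |((-1 : ℤ) : ℝ)| ≤ (H : ℝ) ^ E := by
    simp only [Int.cast_neg, Int.cast_one, abs_neg, abs_one]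
    exact one_le_pow₀ hHr.le
  have hus0 : US 2 1 ((H : ℝ) ^ E) 0 (gl (N : ℤ) (-1)) :=
    gl_us (N : ℤ) (-1) (by norm_num) hcop hev _ 0 (one_le_pow₀ hHr.le) hNR h1R
      (fun _ => by
        rw [Int.cast_natCast, abs_of_nonneg (Nat.cast_nonneg _)]
        exact_mod_cast (by omega : 0 < N))
  obtain ⟨o1, -⟩ := h2 (N : ℤ) (-1) hcop hev (by omega) (by norm_num)
    (by rw [Real.rpow_natCast]; exact hNR) (by rw [Real.rpow_natCast]; exact h1R)
  rw [hab] at o1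
  have h4 := h1 ((H : ℝ) ^ E) Y hHY (gl (N : ℤ) (-1)) hus0
  refine hA N Y H (GS N Y H r) hH0 hN hYN hNE (filter_subset _ _) ?_ ?_ b hb hb1 hb2
  · intro n hn p hp hpH
    unfold GS at hn
    rw [mem_filter] at hn
    constructor
    · intro hd
      have := hn.2 p hp (Or.inl hd)
      linarith
    · intro hd
      have := hn.2 p hp (Or.inr hd)
      linarith
  · have h5 : 1 / 2 * c₁ * (SG N * (H / Real.log H ^ 2)) ≤ 1 / 2 * (H * Vq (Poly.Q (gl (N : ℤ) (-1))) H) := by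
      calc 1 / 2 * c₁ * (SG N * (H / Real.log H ^ 2)) = 1 / 2 * (H * (c₁ * (SG N / Real.log H ^ 2))) := by ring
        _ ≤ _ := by gcongr
    refine h5.trans (h4.trans ?_)
    apply Nat.cast_le.2
    unfold GS
    apply card_le_card
    intro n hn
    rw [mem_filter] at hn ⊢
    refine ⟨hn.1, fun q hq hd => ?_⟩
    by_contra hcon
    rw [not_lt] at hcon
    have hn1 := mem_Ioc.1 hn.1
    rcases hd with hd | hd
    · apply hn.2 0 q hq hcon
      unfold gl Pool.Agent.Q236.GW.lfs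
      rw [lf_eval]
      simp
      exact_mod_cast hd
    · apply hn.2 1 q hq hcon
      unfold gl Pool.Agent.Q236.GW.lfs
      rw [lf_eval]
      simp
      have h6 : ((N - n : ℕ) : ℤ) = -(n : ℤ) + N := by
        rw [Nat.cast_sub (by omega)]; ring
      rw [← h6]
      exact_mod_cast hd

end Pool.Agent.H534.RT
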