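import Pool.Agent.H534.RT.PStr

/-!
# Strings of primes with almost prime values of a family of polynomials, at all the places of every shape
-/

set_option autoImplicit false
set_option maxHeartbeats 4000000

open Finset Filter Polynomial

namespace Pool.Agent.H534.RT

open Pool.Agent.H534.RS Pool.Agent.H534.UT
open Pool.Agent.W123.RU

variable {J : Type} [Fintype J]

/-- the values at `n` have at most `r` prime factors, all of them at least `w` -/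
def AVF {J : Type} (F : J → ℤ[X]) (r : ℕ) (w : ℝ) (n : ℕ) : Prop :=
  ∀ j, ((F j).eval (n : ℤ)).natAbs.primeFactorsList.length ≤ r ∧
    ∀ p : ℕ, p.Prime → (p : ℤ) ∣ (F j).eval (n : ℤ) → w ≤ p

/-- a bound for the values of a polynomial -/
lemma eval_bd (f : ℤ[X]) : ∃ C : ℕ, ∀ x n : ℕ, 1 ≤ x → n ≤ 2 * x → (f.eval (n : ℤ)).natAbs ≤ C * x ^ f.natDegree := by
  refine ⟨∑ i ∈ range (f.natDegree + 1), (f.coeff i).natAbs * 2 ^ i, fun x n hx hn => ?_⟩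
  rw [eval_eq_sum_range]
  refine (Int.natAbs_sum_le _ _).trans ?_
  rw [Finset.sum_mul]
  apply sum_le_sum
  intro i hi
  rw [mem_range] at hi
  rw [Int.natAbs_mul, Int.natAbs_pow, Int.natAbs_natCast, mul_assoc]
  apply Nat.mul_le_mul_left
  calc n ^ i ≤ (2 * x) ^ i := Nat.pow_le_pow_left hn i
    _ = 2 ^ i * x ^ i := mul_pow _ _ _
    _ ≤ 2 ^ i * x ^ f.natDegree := Nat.mul_le_mul_left _ (Nat.pow_le_pow_right hx (by omega))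

/-- the number of the prime factors of the values -/
lemma av_of (F : J → ℤ[X]) (hFam : Fam F) (ε : ℝ) (hε : 0 < ε) : ∃ (r x₀ : ℕ), ∀ x : ℕ, x₀ ≤ x → ∀ n : ℕ, n ≤ 2 * x →
    (∀ j, ∀ p : ℕ, p.Prime → (p : ℤ) ∣ (F j).eval (n : ℤ) → (x : ℝ) ^ ε ≤ p) → AVF F r ((x : ℝ) ^ ε) n := by
  classical
  have hb : ∀ j, ∃ C : ℕ, ∀ x n : ℕ, 1 ≤ x → n ≤ 2 * x → ((F j).eval (n : ℤ)).natAbs ≤ C * x ^ (F j).natDegree :=
    fun j => eval_bd (F j)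
  choose C hC using hb
  obtain ⟨D, hD⟩ : ∃ D : ℕ, D = ∑ j, (F j).natDegree := ⟨_, rfl⟩
  obtain ⟨r, hr⟩ := exists_nat_ge ((D + 1 : ℝ) / ε)
  refine ⟨r, 2 + ∑ j, C j, fun x hx n hn hp j => ⟨?_, hp j⟩⟩
  have hx2 : 2 ≤ x := by omega
  have h1 : C j ≤ x := by
    have := Finset.single_le_sum (f := fun j => C j) (fun _ _ => Nat.zero_le _) (mem_univ j)
    omega
  have h2 : (F j).natDegree ≤ D := by
    rw [hD]
    exact Finset.single_le_sum (f := fun j => (F j).natDegree) (fun _ _ => Nat.zero_le _) (mem_univ j)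
  have h3 : ((F j).eval (n : ℤ)).natAbs ≤ x ^ (D + 1) := by
    calc ((F j).eval (n : ℤ)).natAbs ≤ C j * x ^ (F j).natDegree := hC j x n (by omega) hn
      _ ≤ x * x ^ D := Nat.mul_le_mul h1 (Nat.pow_le_pow_right (by omega) h2)
      _ = x ^ (D + 1) := by ring
  have h4 : ((((F j).eval (n : ℤ)).natAbs : ℕ) : ℝ) ≤ (x : ℝ) ^ ((D + 1 : ℝ)) := by
    have : ((((F j).eval (n : ℤ)).natAbs : ℕ) : ℝ) ≤ ((x ^ (D + 1) : ℕ) : ℝ) := by exact_mod_cast h3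
    refine this.trans (le_of_eq ?_)
    rw [Nat.cast_pow, ← Real.rpow_natCast]
    push_cast
    rfl
  have g1 := Pool.Agent.R498.MT.omega_le x _ ε (D + 1) hx2 hε (Int.natAbs_ne_zero.2 (hFam.nr j _))
    (fun p hpp hd => hp j p hpp (Int.natCast_dvd.2 hd)) h4
  have g2 := g1.trans hr
  exact_mod_cast g2

open Classical in
/-- strings of primes with almost prime values at every shape -/
theorem pstrF (F : J → ℤ[X]) (hFam : Fam F) (m : ℕ) : ∃ (K₀ r₀ : ℕ) (θ : ℝ), 0 < θ ∧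
    ∀ S : Finset ℕ, K₀ ≤ S.card → ∃ (B : ℕ) (Q : ℕ → Finset ℕ),
    (∀ᶠ x in atTop, m ≤ (Q x).card ∧ Q x ⊆ S) ∧
    ∀ (k : ℕ) (δ : ℝ), 1 ≤ k → 0 < δ → δ ≤ 1 → ∃ c : ℝ, 0 < c ∧ ∀ᶠ x : ℕ in atTop,
    ∀ b : Fin k → ℕ, Function.Injective b → (∀ i, 1 ≤ b i) → (∀ i, (b i : ℝ) ≤ (x : ℝ) ^ (1 - δ)) →
    c * (x : ℝ) ^ (δ / 8) ≤ (((Icc 1 ⌊(x : ℝ) ^ (δ / 8)⌋₊).filter (fun d =>
      c * (x * Real.log (Real.log x) ^ (B * k) / Real.log x ^ (B * (k + 1))) ≤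
        (((Ioc x (2 * x)).filter (fun n =>
          ((∀ t ≤ S.sup id, (n + t).Prime ↔ t ∈ Q x) ∧ ∀ t ∈ Q x, AVF F r₀ ((x : ℝ) ^ θ) (n + t)) ∧
          ∀ i, n + WW (δ / 8) x * d * b i + S.sup id ≤ 2 * x ∧
            (∀ t ≤ S.sup id, (n + WW (δ / 8) x * d * b i + t).Prime ↔ t ∈ Q x) ∧
            ∀ t ∈ Q x, AVF F r₀ ((x : ℝ) ^ θ) (n + WW (δ / 8) x * d * b i + t))).card : ℝ))).card : ℝ) := by
  obtain ⟨K₀, ε₁, hε, -, hK₀⟩ := pstrA F hFam m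
  obtain ⟨r₀, x₀, hr₀⟩ := av_of F hFam ε₁ hε
  refine ⟨K₀, r₀, ε₁, hε, fun S hS => ?_⟩
  obtain ⟨n₁, s, r, κ, hn₁, hsys, hκ, hN⟩ := hK₀ S hS
  have hNe : Nonempty (Option J × Fin n₁) := ⟨⟨none, ⟨0, hn₁⟩⟩⟩
  obtain ⟨N₀, hN₀⟩ := eventually_atTop.1 hN
  have hch : ∀ N : ℕ, ∃ H : Finset ℕ, N₀ ≤ N → H ⊆ S ∧ m ≤ H.card ∧ ∃ (Y : ℕ) (A : Finset ℕ), Y ≤ N ^ 2 ∧
      A ⊆ Ioc Y (Y + N) ∧
      (∀ n ∈ A, ∀ j : Option J × Fin n₁, ∀ p : ℕ, p.Prime → (p : ℝ) ≤ (N : ℝ) ^ (ε₁ / 2) →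
        ¬ (p : ℤ) ∣ (fG F (s j.2) j.1).eval (n : ℤ)) ∧
      κ * (N / Real.log N ^ ((Fintype.card J + 1) * n₁)) ≤ A.card ∧
      ∀ n ∈ A, N + r < n ∧ n - r + S.sup id ≤ 2 * N ∧
        (∀ y ≤ S.sup id, (n - r + y).Prime ↔ y ∈ H) ∧
        ∀ y ∈ H, ∀ j, ∀ p : ℕ, p.Prime → (p : ℤ) ∣ (F j).eval ((n - r + y : ℕ) : ℤ) → (N : ℝ) ^ ε₁ ≤ p := by
    intro N
    by_cases h : N₀ ≤ N
    · obtain ⟨H, h1, h2, h3⟩ := hN₀ N h
      exact ⟨H, fun _ => ⟨h1, h2, h3⟩⟩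
    · exact ⟨∅, fun h' => absurd h' h⟩
  choose Q hQ using hch
  refine ⟨(Fintype.card J + 1) * n₁, Q, ?_, fun k δ hk hδ hδ1 => ?_⟩
  · filter_upwards [eventually_ge_atTop N₀] with x hx
    exact ⟨(hQ x hx).2.1, (hQ x hx).1⟩
  obtain ⟨c, hc, H₀, hP⟩ := polyQ (fun j : Option J × Fin n₁ => fG F (s j.2) j.1) hsys k 2 δ (ε₁ / 2) κ hk hδ hδ1
    (by positivity) hκ
  rw [Fintype.card_prod, Fintype.card_option, Fintype.card_fin] at hP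
  refine ⟨c, hc, ?_⟩
  filter_upwards [eventually_ge_atTop N₀, eventually_ge_atTop H₀, eventually_ge_atTop x₀]
    with x hx hxH hxx b hb hb1 hb2
  obtain ⟨h1, h2, Y, A, h3, h4, h5, h6, h7⟩ := hQ x hx
  refine (hP Y x A hxH h3 h4 h5 h6 b hb hb1 hb2).trans ?_
  apply Nat.cast_le.2
  apply card_le_card
  intro d hd
  rw [mem_filter] at hd ⊢
  refine ⟨hd.1, hd.2.trans ?_⟩
  apply Nat.cast_le.2
  apply card_le_card_of_injOn (fun n => n - r)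
  · intro n hn
    obtain ⟨hnA, hni⟩ := mem_filter.1 (mem_coe.1 hn)
    obtain ⟨e1, e2, e3, e4⟩ := h7 n hnA
    have hle : ∀ t ∈ Q x, t ≤ S.sup id := fun t ht => Finset.le_sup (f := id) (h1 ht)
    refine mem_coe.2 (mem_filter.2 ⟨?_, ⟨e3, fun t ht => hr₀ x hxx _ ?_ (e4 t ht)⟩, fun i => ?_⟩)
    · rw [mem_Ioc]
      show x < n - r ∧ n - r ≤ 2 * x
      omega
    · have := hle t ht
      show n - r + t ≤ 2 * x
      omega
    · obtain ⟨f1, f2, f3, f4⟩ := h7 _ (hni i)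
      have e5 : n + WW (δ / 8) x * d * b i - r = n - r + WW (δ / 8) x * d * b i := by omega
      rw [e5] at f2 f3 f4
      refine ⟨f2, f3, fun t ht => hr₀ x hxx _ ?_ (f4 t ht)⟩
      have := hle t ht
      show n - r + WW (δ / 8) x * d * b i + t ≤ 2 * x
      omega
  · intro n hn n' hn' hnn
    have g1 := (h7 n (mem_filter.1 (mem_coe.1 hn)).1).1
    have g2 := (h7 n' (mem_filter.1 (mem_coe.1 hn')).1).1
    have g3 : n - r = n' - r := hnn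
    omega

end Pool.Agent.H534.RT
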