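import Pool.Agent.H534.RT.Lin

/-!
# The iterates of `n ↦ A n + B`, uniformly in the times
-/

set_option autoImplicit false

open Finset Filter Polynomial

namespace Pool.Agent.H534.RT

open Pool.Agent.H534.RS hiding majW classes engP

/-- `1 + A + ... + A ^ (t - 1)` -/
def be (A t : ℕ) : ℕ := ∑ i ∈ range t, A ^ i

lemma be_succ (A t : ℕ) : be A (t + 1) = A * be A t + 1 := by
  unfold be
  rw [sum_range_succ', mul_sum]
  congr 1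
  apply sum_congr rfl
  intro i _
  ring

lemma be_le (A t : ℕ) (hA : 2 ≤ A) : be A t + 1 ≤ A ^ t := by
  induction t with
  | zero => simp [be]
  | succ t ih =>
    rw [be_succ, pow_succ]
    nlinarith

/-- the iterates over the integers -/
lemma iter_int (A : ℕ) (B : ℤ) (t : ℕ) (n : ℤ) : (fun m : ℤ => A * m + B)^[t] n = A ^ t * n + B * be A t := by
  induction t generalizing n with
  | zero => simp [be]
  | succ t ih =>
    rw [Function.iterate_succ_apply', ih, be_succ]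
    push_cast
    ring

/-- the coefficients -/
def ia {l : ℕ} (A : ℕ) (t : Fin l → ℕ) : Fin l → ℕ := fun i => A ^ t i

def ib {l : ℕ} (A : ℕ) (B : ℤ) (t : Fin l → ℕ) : Fin l → ℤ := fun i => B * be A (t i)

lemma ib_le {l : ℕ} (A : ℕ) (hA : 2 ≤ A) (B : ℤ) (t : Fin l → ℕ) (i : Fin l) (S : ℝ) (hS : |(B : ℝ)| ≤ S) :
    |(ib A B t i : ℝ)| ≤ ia A t i * S := by
  unfold ib ia
  push_cast
  rw [abs_mul, Nat.abs_cast, mul_comm]
  have h1 : (be A (t i) : ℝ) ≤ (A : ℝ) ^ t i := by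
    have := be_le A (t i) hA
    exact_mod_cast (by omega : be A (t i) ≤ A ^ t i)
  exact mul_le_mul h1 hS (abs_nonneg _) (by positivity)

open Classical in
/-- **Dense sets.** -/
theorem itA (l E k : ℕ) (δ η κ : ℝ) (hk : 1 ≤ k) (hE : 1 ≤ E) (hδ : 0 < δ) (hδ1 : δ ≤ 1) (hη : 0 < η) (hκ : 0 < κ)
    (A : ℕ) (hA : 2 ≤ A) (B : ℤ) :
    ∃ c : ℝ, 0 < c ∧ ∃ H₀ : ℕ, ∀ (H Y : ℕ) (t : Fin l → ℕ) (S : Finset ℕ), H₀ ≤ H → LAdm (ia A t) (ib A B t) →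
    (∀ j, A ^ t j ≤ H ^ E) → Y ≤ H ^ E →
    (∀ n ∈ Ioc Y (Y + H), ∀ j, (ia A t j : ℤ) * n + ib A B t j ≠ 0) → S ⊆ Ioc Y (Y + H) →
    (∀ n ∈ S, ∀ p : ℕ, p.Prime → (p : ℝ) ≤ (H : ℝ) ^ η → ¬ p ∣ n ∧ ∀ j, ¬ (p : ℤ) ∣ (ia A t j : ℤ) * n + ib A B t j) →
    κ * (H * LV (ia A t) (ib A B t) H) ≤ S.card →
    ∀ sh : Fin k → ℕ, Function.Injective sh → (∀ i, 1 ≤ sh i) → (∀ i, (sh i : ℝ) ≤ (H : ℝ) ^ (1 - δ)) →
    c * (H : ℝ) ^ (δ / 8) ≤ (((Icc 1 ⌊(H : ℝ) ^ (δ / 8)⌋₊).filter (fun d =>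
      c * (H * (LV (ia A t) (ib A B t) H ^ (k + 1) / LV (ia A t) (ib A B t) ⌊δ / 8 * Real.log H⌋₊ ^ k)) ≤
        ((S.filter (fun n => ∀ i, n + WW (δ / 8) H * d * sh i ∈ S)).card : ℝ))).card : ℝ) := by
  obtain ⟨c, hc, H₀, hm⟩ := linA l (E + 1) k δ η κ hk (by omega) hδ hδ1 hη hκ
  have hxr0 : Tendsto (fun X : ℕ => (X : ℝ)) atTop atTop := tendsto_natCast_atTop_atTop
  obtain ⟨H₁, hH₁⟩ := eventually_atTop.1
    ((((tendsto_rpow_atTop (show (0 : ℝ) < δ / 32 by positivity)).comp hxr0).eventually_ge_atTop |(B : ℝ)|).and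
      (hxr0.eventually_ge_atTop |(B : ℝ)|))
  refine ⟨c, hc, max (max H₀ H₁) 1, fun H Y t S hH hadm ht hY hnz hS hSr hSc sh hb hb1 hb2 => ?_⟩
  have hH0 : H₀ ≤ H := ((le_max_left _ _).trans (le_max_left _ _)).trans hH
  have hH1 : H₁ ≤ H := ((le_max_right _ _).trans (le_max_left _ _)).trans hH
  have hHone : 1 ≤ H := (le_max_right _ _).trans hH
  have hHr : (1 : ℝ) ≤ H := by exact_mod_cast hHone
  obtain ⟨h1, h2⟩ := hH₁ H hH1
  simp only [Function.comp_apply] at h1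
  have hpow : H ^ E ≤ H ^ (E + 1) := Nat.pow_le_pow_right hHone (by omega)
  refine hm H Y (ia A t) (ib A B t) S hH0 hadm (fun j => Nat.one_le_pow _ _ (by omega))
    (fun j => by unfold ia; exact_mod_cast (ht j).trans hpow)
    (fun j => ?_) (fun j => ib_le A hA B t j _ h1) (hY.trans hpow) hnz hS hSr hSc sh hb hb1 hb2
  refine (ib_le A hA B t j _ h2).trans ?_
  have h3 : (ia A t j : ℝ) ≤ (H : ℝ) ^ E := by unfold ia; exact_mod_cast ht j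
  rw [pow_succ]
  exact mul_le_mul_of_nonneg_right h3 (by linarith)

open Classical in
/-- **A prime and almost primes.** -/
theorem itB (l E : ℕ) (A : ℕ) (hA : 2 ≤ A) (B : ℤ) :
    ∃ r₀ : ℕ, 2 ≤ r₀ ∧ ∀ r : ℕ, r₀ ≤ r → ∀ (k : ℕ) (δ : ℝ), 1 ≤ k → 0 < δ → δ ≤ 1 →
    ∃ c : ℝ, 0 < c ∧ ∀ᶠ x : ℕ in atTop, ∀ t : Fin l → ℕ, LAdm (ia A t) (ib A B t) → (∀ j, A ^ t j ≤ x ^ E) →
    ∀ sh : Fin k → ℕ, Function.Injective sh → (∀ i, 1 ≤ sh i) → (∀ i, (sh i : ℝ) ≤ (x : ℝ) ^ (1 - δ)) →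
    c * (x : ℝ) ^ (δ / 8) ≤ (((Icc 1 ⌊(x : ℝ) ^ (δ / 8)⌋₊).filter (fun d =>
      c * (x * (LV (ia A t) (ib A B t) x ^ (k + 1) / LV (ia A t) (ib A B t) ⌊δ / 8 * Real.log x⌋₊ ^ k)) ≤
        (((LP (ia A t) (ib A B t) x r).filter (fun n =>
          ∀ i, n + WW (δ / 8) x * d * sh i ∈ LP (ia A t) (ib A B t) x r)).card : ℝ))).card : ℝ) := by
  obtain ⟨r₀, hr₀, hm⟩ := linB l (E + 1) (by omega)
  refine ⟨r₀, hr₀, fun r hr k δ hk hδ hδ1 => ?_⟩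
  obtain ⟨c, hc, h1⟩ := hm r hr k δ hk hδ hδ1
  have hxr0 : Tendsto (fun X : ℕ => (X : ℝ)) atTop atTop := tendsto_natCast_atTop_atTop
  refine ⟨c, hc, ?_⟩
  filter_upwards [h1, eventually_ge_atTop 1,
    ((tendsto_rpow_atTop (show (0 : ℝ) < δ / 32 by positivity)).comp hxr0).eventually_ge_atTop |(B : ℝ)|,
    hxr0.eventually_ge_atTop |(B : ℝ)|] with x hx hx1 h3 h4 t hadm ht sh hb hb1 hb2
  simp only [Function.comp_apply] at h3
  have hxr : (1 : ℝ) ≤ x := by exact_mod_cast hx1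
  have hpow : x ^ E ≤ x ^ (E + 1) := Nat.pow_le_pow_right hx1 (by omega)
  refine hx (ia A t) (ib A B t) hadm (fun j => Nat.one_le_pow _ _ (by omega))
    (fun j => by unfold ia; exact_mod_cast (ht j).trans hpow)
    (fun j => ?_) (fun j => ib_le A hA B t j _ h3) sh hb hb1 hb2
  refine (ib_le A hA B t j _ h4).trans ?_
  have h5 : (ia A t j : ℝ) ≤ (x : ℝ) ^ E := by unfold ia; exact_mod_cast ht j
  rw [pow_succ]
  exact mul_le_mul_of_nonneg_right h5 (by linarith)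

open Classical in
/-- **Strings of primes.** -/
theorem itC (m l : ℕ) : ∃ η : ℝ, 0 < η ∧ ∃ B₁ K : ℕ, ∀ (A : ℕ) (_ : 2 ≤ A) (B : ℤ) (k E : ℕ) (δ κ : ℝ),
    1 ≤ k → 0 < δ → δ ≤ 1 → 0 < κ →
    ∃ c : ℝ, 0 < c ∧ ∃ x₀ : ℕ, ∀ x : ℕ, x₀ ≤ x → ∀ t : Fin l → ℕ, LAdm (ia A t) (ib A B t) →
      Function.Injective t → (∀ j, 1 ≤ t j) → (∀ j, A ^ t j ≤ x ^ E) →
      ∃ P S : Finset ℕ, P ⊆ Icc 1 K ∧ m ≤ P.card ∧ S ⊆ Ioc (x / 2) (x / 2 + x) ∧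
      (∀ n ∈ S, (∀ u : ℕ, 1 ≤ u → (u : ℝ) ≤ Real.log x / Real.log (Real.log x) ^ 2 → ((n + u).Prime ↔ u ∈ P)) ∧
          ∀ u ∈ P, (n + u).Prime ∧ ∀ j, ∀ q : ℕ, q.Prime →
            (q : ℤ) ∣ (ia A t j : ℤ) * ((n + u : ℕ) : ℤ) + ib A B t j → (x : ℝ) ^ η < q) ∧
      ∀ S' ⊆ S, κ * S.card ≤ S'.card →
      ∀ sh : Fin k → ℕ, Function.Injective sh → (∀ i, 1 ≤ sh i) → (∀ i, (sh i : ℝ) ≤ (x : ℝ) ^ (1 - δ)) →
      c * (x : ℝ) ^ (δ / 8) ≤ (((Icc 1 ⌊(x : ℝ) ^ (δ / 8)⌋₊).filter (fun d =>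
        c * (x / Real.log x ^ (B₁ * (k + 1))) ≤
        ((S'.filter (fun n => ∀ i, n + WW (δ / 8) x * d * sh i ∈ S')).card : ℝ))).card : ℝ) := by
  obtain ⟨η, hη, B₁, K, hcl⟩ := linC m l
  refine ⟨η, hη, B₁, K, fun A hA B k E δ κ hk hδ hδ1 hκ => ?_⟩
  obtain ⟨c, hc, x₀, h1⟩ := hcl k (E + 1) 0 δ κ hk hδ hδ1 hκ
  have hxr0 : Tendsto (fun X : ℕ => (X : ℝ)) atTop atTop := tendsto_natCast_atTop_atTop
  obtain ⟨x₁, hx₁⟩ := eventually_atTop.1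
    ((((tendsto_rpow_atTop (show (0 : ℝ) < δ / 32 by positivity)).comp hxr0).eventually_ge_atTop |(B : ℝ)|).and
      (hxr0.eventually_ge_atTop |(B : ℝ)|))
  obtain ⟨x₃, hx₃⟩ := numU 1 one_pos K
  refine ⟨c, hc, max x₀ (max x₁ (max x₃ 2)), fun x hx t hadm hinj ht1 ht => ?_⟩
  have hx0 : x₀ ≤ x := (le_max_left _ _).trans hx
  have hx1 : x₁ ≤ x := ((le_max_left _ _).trans (le_max_right _ _)).trans hx
  have hx3 : x₃ ≤ x := (((le_max_left _ _).trans (le_max_right _ _)).trans (le_max_right _ _)).trans hx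
  have hxK : 2 ≤ x := (((le_max_right _ _).trans (le_max_right _ _)).trans (le_max_right _ _)).trans hx
  have hxr : (1 : ℝ) < x := by exact_mod_cast (by omega : 1 < x)
  obtain ⟨-, -, n3, -, n5⟩ := hx₃ x hx3
  obtain ⟨h3, h4⟩ := hx₁ x hx1
  simp only [Function.comp_apply] at h3
  obtain ⟨L, hL⟩ : ∃ L, L = ⌊Real.log x / Real.log (Real.log x) ^ 2⌋₊ := ⟨_, rfl⟩
  have hLpos : 0 ≤ Real.log x / Real.log (Real.log x) ^ 2 := by
    have : 0 ≤ Real.log (x : ℝ) := Real.log_nonneg hxr.le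
    positivity
  have hL1 : (L : ℝ) ≤ Real.log x / Real.log (Real.log x) ^ 2 := by
    rw [hL]
    exact Nat.floor_le hLpos
  have hL2 : K ≤ L := by
    rw [hL]
    apply Nat.le_floor
    linarith
  have hpow : x ^ E ≤ x ^ (E + 1) := Nat.pow_le_pow_right (by omega) (by omega)
  have hne1 : ∀ j, ia A t j ≠ 1 := by
    intro j
    unfold ia
    have : A ^ 1 ≤ A ^ t j := Nat.pow_le_pow_right (by omega) (ht1 j)
    rw [pow_one] at this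
    omega
  obtain ⟨P, S, hP1, hP2, hS1, hS2, hsh⟩ := h1 x hx0 (ia A t) (ib A B t) L hadm
    (fun i j h5 _ => hinj (Nat.pow_right_injective hA h5)) (fun j h5 => hne1 j h5.1)
    (fun j => Nat.one_le_pow _ _ (by omega))
    (fun j => by unfold ia; exact_mod_cast (ht j).trans hpow)
    (fun j => by
      refine (ib_le A hA B t j _ h4).trans ?_
      have h5 : (ia A t j : ℝ) ≤ (x : ℝ) ^ E := by unfold ia; exact_mod_cast ht j
      rw [pow_succ]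
      exact mul_le_mul_of_nonneg_right h5 (by linarith))
    (fun j => ib_le A hA B t j _ h3) hL2 hL1 (Or.inr (fun j h5 => absurd h5 (hne1 j)))
  refine ⟨P, S, hP1, hP2, hS1, fun n hn => ?_, hsh⟩
  obtain ⟨h7, h8⟩ := hS2 n hn
  exact ⟨fun u hu1 hu2 => h7 u hu1 (by rw [hL]; exact Nat.le_floor hu2), h8⟩

end Pool.Agent.H534.RT
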