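import Pool.Agent.H534.RT.Exp

/-!
# Missing integers with at most three prime factors in the second value
-/

set_option autoImplicit false

open Finset Filter

namespace Pool.Agent.H534.RT

open Pool.Agent.TH977.PW (N)
open Pool.Agent.H534.RS Pool.Agent.H534.UT

/-- `log (6 x) ≤ 2 log x` -/
lemma log_six {x : ℕ} (hx : 6 ≤ x) : Real.log ((6 * x : ℕ) : ℝ) ≤ 2 * Real.log x := by
  have h1 : (6 : ℝ) ≤ x := by exact_mod_cast hx
  have h0 : (0 : ℝ) < x := by linarith
  push_cast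
  rw [Real.log_mul (by norm_num) h0.ne']
  have := Real.log_le_log (by norm_num) h1
  linarith

open Classical in
theorem many3 : ∃ κ : ℝ, 0 < κ ∧ ∀ᶠ x : ℕ in atTop, κ * (x / Real.log x ^ 2) ≤
    (((Ioc x (2 * x)).filter (fun m => (6 * m - 1).Prime ∧ (6 * m + 1).primeFactorsList.length ≤ 3 ∧
      ∀ p : ℕ, p.Prime → p ∣ 6 * m + 1 → (x : ℝ) ^ (1 / (5 : ℝ)) < (p : ℝ))).card : ℝ) := by
  obtain ⟨κ, hκ, h⟩ := cntL 1 2 one_pos (isCoprime_one_left) (fun h => by simp at h) (by norm_num)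
    (fun p hp => by
      rcases hp.eq_two_or_odd with h2 | h2
      · exact ⟨1, by subst h2; norm_num, by subst h2; norm_num⟩
      · by_cases h3 : p = 3
        · exact ⟨2, by subst h3; norm_num, by subst h3; norm_num⟩
        · refine ⟨1, by simpa using hp.one_lt.ne', ?_⟩
          intro hd
          have h4 : p ∣ 3 := by
            have : ((p : ℕ) : ℤ) ∣ ((3 : ℕ) : ℤ) := by
              push_cast
              simpa using hd
            exact Int.natCast_dvd_natCast.1 this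
          exact h3 ((Nat.prime_dvd_prime_iff_eq hp Nat.prime_three).1 h4))
  have h6 : Tendsto (fun x : ℕ => 6 * x) atTop atTop := tendsto_id.const_mul_atTop' (by norm_num)
  refine ⟨κ, hκ, ?_⟩
  filter_upwards [h6.eventually h, eventually_ge_atTop 100] with x hx hx1
  have hxr : (100 : ℝ) ≤ x := by exact_mod_cast hx1
  have hL : 0 < Real.log x := Real.log_pos (by linarith)
  have hL6 : 0 < Real.log ((6 * x : ℕ) : ℝ) := by
    apply Real.log_pos
    push_cast
    linarith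
  have h7 : κ * (x / Real.log x ^ 2) ≤ κ * ((6 * x : ℕ) : ℝ) / Real.log ((6 * x : ℕ) : ℝ) ^ 2 := by
    rw [mul_div_assoc]
    apply mul_le_mul_of_nonneg_left _ hκ.le
    have h8 := log_six (show 6 ≤ x by omega)
    rw [div_le_div_iff₀ (by positivity) (by positivity)]
    have h9 : Real.log ((6 * x : ℕ) : ℝ) ^ 2 ≤ (2 * Real.log x) ^ 2 := pow_le_pow_left₀ hL6.le h8 2
    push_cast at h9 ⊢
    nlinarith [mul_le_mul_of_nonneg_left h9 (show (0:ℝ) ≤ x by linarith), sq_nonneg (Real.log (x:ℝ)),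
      mul_nonneg (show (0:ℝ) ≤ x by linarith) (sq_nonneg (Real.log (x:ℝ)))]
  refine h7.trans (hx.trans ?_)
  unfold N
  apply Nat.cast_le.2
  have hprop : ∀ p ∈ (Ioc (6 * x) (2 * (6 * x))).filter (fun m => m ∈ TL 1 2), p % 6 = 5 ∧ p.Prime ∧
      (∀ q : ℕ, q.Prime → q ∣ p + 2 → (p : ℝ) ^ (1 / (5 : ℝ)) < (q : ℝ)) ∧
      (p + 2).primeFactorsList.length ≤ 3 ∧ 6 * x < p ∧ p ≤ 12 * x := by
    intro p hp
    rw [mem_filter, mem_Ioc] at hp
    obtain ⟨⟨h1, h2⟩, h3, h4, h5⟩ := hp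
    have he : (((1 : ℕ) : ℤ) * (p : ℤ) + 2).toNat = p + 2 := by
      have : (((1 : ℕ) : ℤ) * (p : ℤ) + 2) = ((p + 2 : ℕ) : ℤ) := by push_cast; ring
      rw [this, Int.toNat_natCast]
    rw [he] at h4 h5
    refine ⟨?_, h3, h4, h5, h1, by omega⟩
    have h6 : p % 2 = 1 := by
      rcases h3.eq_two_or_odd with h | h
      · omega
      · exact h
    have h7 : p % 3 ≠ 0 := by
      intro h
      have h8 : 3 ∣ p := Nat.dvd_of_mod_eq_zero h
      have := (Nat.prime_dvd_prime_iff_eq Nat.prime_three h3).1 h8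
      omega
    have h8 : p % 3 ≠ 1 := by
      intro h
      have h9 : 3 ∣ p + 2 := by omega
      have h10 := h4 3 Nat.prime_three h9
      have h11 : (243 : ℝ) ^ (1 / (5 : ℝ)) ≤ (p : ℝ) ^ (1 / (5 : ℝ)) :=
        Real.rpow_le_rpow (by norm_num) (by exact_mod_cast (by omega : 243 ≤ p)) (by norm_num)
      have h12 : (243 : ℝ) ^ (1 / (5 : ℝ)) = 3 := by
        rw [show (243 : ℝ) = 3 ^ (5 : ℝ) by norm_num, ← Real.rpow_mul (by norm_num)]
        norm_num
      rw [h12] at h11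
      norm_num at h10
      norm_num at h11
      linarith
    omega
  apply card_le_card_of_injOn (fun p => (p + 1) / 6)
  · intro p hp
    have hp' := hprop p (by simpa using hp)
    obtain ⟨h1, h2, h3, h4, h5, h6⟩ := hp'
    have e1 : 6 * ((p + 1) / 6) - 1 = p := by omega
    have e2 : 6 * ((p + 1) / 6) + 1 = p + 2 := by omega
    have h7 : (fun m => (6 * m - 1).Prime ∧ (6 * m + 1).primeFactorsList.length ≤ 3 ∧
      ∀ p : ℕ, p.Prime → p ∣ 6 * m + 1 → (x : ℝ) ^ (1 / (5 : ℝ)) < (p : ℝ)) ((p + 1) / 6) := by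
      show (6 * ((p + 1) / 6) - 1).Prime ∧ (6 * ((p + 1) / 6) + 1).primeFactorsList.length ≤ 3 ∧
        ∀ q : ℕ, q.Prime → q ∣ 6 * ((p + 1) / 6) + 1 → (x : ℝ) ^ (1 / (5 : ℝ)) < (q : ℝ)
      rw [e1, e2]
      refine ⟨h2, h4, fun q hq hd => lt_of_le_of_lt ?_ (h3 q hq hd)⟩
      exact Real.rpow_le_rpow (by positivity) (by exact_mod_cast (by omega : x ≤ p)) (by norm_num)
    have h8 : (p + 1) / 6 ∈ Ioc x (2 * x) := mem_Ioc.2 (by omega)
    exact mem_coe.2 (mem_filter.2 ⟨h8, h7⟩)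
  · intro p hp q hq h
    have h1 := (hprop p (by simpa using hp)).1
    have h2 := (hprop q (by simpa using hq)).1
    simp only at h
    omega

/-- at most three prime factors -/
def M3 (x m : ℕ) : Prop := (6 * m - 1).Prime ∧ (6 * m + 1).primeFactorsList.length ≤ 3 ∧
    ∀ p : ℕ, p.Prime → p ∣ 6 * m + 1 → (x : ℝ) ^ (1 / (5 : ℝ)) < (p : ℝ)

open Classical in
/-- the almost missing integers: at most three prime factors -/
theorem missB3 (k : ℕ) (δ : ℝ) (hk : 1 ≤ k) (hδ : 0 < δ) (hδ1 : δ ≤ 1) :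
    ∃ c : ℝ, 0 < c ∧ ∀ᶠ x : ℕ in atTop, ∀ b : Fin k → ℕ, Function.Injective b →
    (∀ i, 1 ≤ b i) → (∀ i, (b i : ℝ) ≤ (x : ℝ) ^ (1 - δ)) →
    c * (x : ℝ) ^ (δ / 8) ≤ (((Icc 1 ⌊(x : ℝ) ^ (δ / 8)⌋₊).filter (fun d =>
      c * (x * Real.log (Real.log x) ^ (2 * k) / Real.log x ^ (2 * (k + 1))) ≤
        ((((Ioc x (2 * x)).filter (M3 x)).filter (fun m => ∀ i,
          m + WW (δ / 8) x * d * b i ∈ (Ioc x (2 * x)).filter (M3 x))).card : ℝ))).card : ℝ) := by
  obtain ⟨κ, hκ, hκx⟩ := many3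
  obtain ⟨c, hc, H₀, h⟩ := missA k 1 δ (1 / 5) κ hk hδ hδ1 (by positivity) hκ
  refine ⟨c, hc, ?_⟩
  filter_upwards [hκx, eventually_ge_atTop (max H₀ 1)] with x h1 h2 b hb hb1 hb2
  have hx1 : 1 ≤ x := (le_max_right _ _).trans h2
  refine h x x ((Ioc x (2 * x)).filter (M3 x)) ((le_max_left _ _).trans h2) (by rw [pow_one]) ?_ ?_ ?_ b hb hb1 hb2
  · rw [← two_mul]
    exact filter_subset _ _
  · intro m hm p hp hpx
    rw [mem_filter, mem_Ioc] at hm
    obtain ⟨⟨hm1, hm2⟩, h3, -, h4⟩ := hm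
    constructor
    · intro hd
      have h5 := (Nat.prime_dvd_prime_iff_eq hp h3).1 hd
      have h6 : (x : ℝ) < p := by
        rw [h5]
        have : x < 6 * m - 1 := by omega
        exact_mod_cast this
      have h7 : (x : ℝ) ^ (1 / (5 : ℝ)) ≤ x := by
        nth_rewrite 2 [← Real.rpow_one (x : ℝ)]
        exact Real.rpow_le_rpow_of_exponent_le (by exact_mod_cast hx1) (by norm_num)
      linarith
    · intro hd
      have := h4 p hp hd
      linarith
  · refine h1.trans ?_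
    apply Nat.cast_le.2
    apply card_le_card
    intro m hm
    rw [mem_filter] at hm
    exact mem_filter.2 ⟨hm.1, hm.2⟩

end Pool.Agent.H534.RT
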