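import Pool.Agent.H534.RT.CluU

/-!
# Strings of primes with almost prime companions at every shape, uniformly in the linear forms: dense subsets
-/

set_option autoImplicit false

open Finset Filter Polynomial

namespace Pool.Agent.H534.RT

open Pool.Agent.H534.RS hiding majW classes engP
open Pool.Agent.Y677.RSZ hiding Sys V_pos fac_pos V_lower
open Pool.Agent.TH423.SH (PS)
open Pool.Agent.Y848.UG (GoodI fc fh Zc mem_Zc div_le_r)
open Pool.Agent.H378R2 (LL)
open Pool.Agent.Y843.HS (VV Pr)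

open Classical in
/-- **Strings of primes with almost prime companions at every shape, uniformly in the forms.** -/
theorem cluW (m r : ℕ) : ∃ η : ℝ, 0 < η ∧ ∃ B K : ℕ, ∀ (k E C₀ : ℕ) (ε κ : ℝ), 1 ≤ k → 0 < ε → 8 * ε ≤ 1 →
    0 < κ → ∃ c : ℝ, 0 < c ∧ ∃ x₀ : ℕ, ∀ x : ℕ, x₀ ≤ x → ∀ (a : ℕ → ℕ) (b : ℕ → ℤ) (L : ℕ),
      Pool.Agent.Y848.UG.Sys r a b →
      (∀ l ≤ r, (a l : ℝ) ≤ (x : ℝ) ^ E) → (∀ l ≤ r, |(b l : ℝ)| ≤ (x : ℝ) ^ E) →
      K ≤ L → (L : ℝ) ≤ Real.log x / Real.log (Real.log x) ^ 2 →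
      (L ≤ C₀ ∨ ∀ l < r, a l = 1 → b l ≤ C₀ ∨ (L : ℤ) < b l) →
      (∀ l ≤ r, ∀ n : ℕ, x / 2 < n → n ≤ 2 * x → (a l : ℤ) * n + b l ≠ 0) →
      (∀ l ≤ r, ∀ l' ≤ r, l ≠ l' → ∀ s t : ℕ, 1 ≤ t → t ≤ x → WW ε x ∣ t → s ≤ t + K → t ≤ s + K →
        (a l : ℤ) * a l' * s + a l * b l' - a l' * b l ≠ 0) →
      ∃ P S : Finset ℕ, P ⊆ Icc 1 K ∧ m ≤ P.card ∧ S ⊆ Ioc (x / 2) (x / 2 + x) ∧
        (∀ n ∈ S, (∀ t : ℕ, 1 ≤ t → t ≤ L → ((n + t).Prime ↔ t ∈ P)) ∧
          ∀ t ∈ P, (n + t).Prime ∧ ∀ l < r, ∀ q : ℕ, q.Prime → (q : ℤ) ∣ a l * ((n + t : ℕ) : ℤ) + b l → (x : ℝ) ^ η < q) ∧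
        ∀ S' ⊆ S, κ * S.card ≤ S'.card → ∀ sh : Fin k → ℕ, Function.Injective sh → (∀ l, 1 ≤ sh l) → (∀ l, (sh l : ℝ) ≤ x / ((x : ℝ) ^ ε) ^ 5) →
        ∃ D' : Finset ℕ, c * (x : ℝ) ^ ε ≤ D'.card ∧ ∀ d ∈ D', 1 ≤ d ∧ (d : ℝ) ≤ (x : ℝ) ^ ε ∧
          c * (x / Real.log x ^ (B * (k + 1))) ≤ ((solN S' (WW ε x) sh d).card : ℝ) := by
  obtain ⟨δ, hδ, K1, H0, hmany⟩ := manyF m r
  obtain ⟨J, hJ⟩ : ∃ J, J = r * (K1 + 1) + K1 + 1 := ⟨_, rfl⟩
  obtain ⟨KV, hKV, hVlow⟩ := V1_low J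
  refine ⟨δ / 400, by positivity, 2 * J, H0, ?_⟩
  intro k E C₀ ε κ hk hε hε8 hκ
  obtain ⟨c1, hc1, hev⟩ := hmany C₀ (2 * E)
  obtain ⟨g, hg⟩ : ∃ g, g = J + (2 * E + 3) * (J * J) + (E + 3) * J := ⟨_, rfl⟩
  obtain ⟨c, H₁, hc, heng⟩ := engU k g (δ / 400) (κ * (c1 / 2)) ε hk (by positivity) (by positivity) hε hε8
  have hhalf : Tendsto (fun x : ℕ => (x : ℝ) / 2) atTop atTop :=
    tendsto_natCast_atTop_atTop.atTop_div_const (by norm_num)
  obtain ⟨H₂, hH₂⟩ := eventually_atTop.1 (hhalf.eventually hev)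
  obtain ⟨H₃, hH₃⟩ := numU ε hε (2 * H0)
  refine ⟨min c (c * KV ^ (k + 1)), lt_min hc (by positivity), max (max H₁ H₂) (max H₃ (2 * J + 2)), ?_⟩
  intro x hx a b L hS ha hb hL2 hL1 hbC hne0 hNT
  have hx1 : H₁ ≤ x := ((le_max_left _ _).trans (le_max_left _ _)).trans hx
  have hx2 : H₂ ≤ x := ((le_max_right _ _).trans (le_max_left _ _)).trans hx
  have hx3 : H₃ ≤ x := ((le_max_left _ _).trans (le_max_right _ _)).trans hx
  have hx4 : 2 * J + 2 ≤ x := ((le_max_right _ _).trans (le_max_right _ _)).trans hx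
  obtain ⟨n1, n2, n3, n4, n5⟩ := hH₃ x hx3
  have hx16 : (16 : ℝ) + 2 * H0 ≤ x := by exact_mod_cast n1
  push_cast at n2 n5
  have hH00 : (0 : ℝ) ≤ H0 := Nat.cast_nonneg _
  have hx0 : (0 : ℝ) < x := by linarith
  have hxo : (1 : ℝ) ≤ x := by linarith
  have hlx : 0 < Real.log (x : ℝ) := Real.log_pos (by linarith)
  have hlog2 := Real.log_two_lt_d9
  have hlx2 : 2 ≤ Real.log (x : ℝ) := by
    have h1 : Real.exp 2 ≤ x := by
      have h2 : Real.exp 2 = Real.exp 1 * Real.exp 1 := by rw [← Real.exp_add]; norm_num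
      have h3 := Real.exp_one_lt_d9
      have h4 := Real.exp_pos 1
      nlinarith
    rwa [Real.le_log_iff_exp_le hx0]
  have hlhalf : Real.log (x : ℝ) / 2 ≤ Real.log ((x : ℝ) / 2) := by
    rw [Real.log_div hx0.ne' (by norm_num)]
    linarith
  have hlhalf' : Real.log ((x : ℝ) / 2) ≤ Real.log (x : ℝ) := Real.log_le_log (by positivity) (by linarith)
  -- powers of `x / 2`
  have hpw : (x : ℝ) ^ E ≤ ((x : ℝ) / 2) ^ (2 * E : ℝ) := by
    have h1 : (x : ℝ) ≤ ((x : ℝ) / 2) ^ 2 := by nlinarith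
    calc (x : ℝ) ^ E ≤ (((x : ℝ) / 2) ^ 2) ^ E := pow_le_pow_left₀ hx0.le h1 _
      _ = ((x : ℝ) / 2) ^ (2 * E : ℝ) := by
          rw [← pow_mul, ← Real.rpow_natCast]
          push_cast
          rfl
  obtain ⟨S, T, P, hT, hSsub, hSgood, hSP, hZ, hSZ, hScard⟩ := hH₂ x hx2 a b L hS (fun l hl => (ha l hl).trans hpw)
    (fun l hl => (hb l hl).trans hpw)
    (by
      have h1 : Real.log (Real.log ((x : ℝ) / 2)) ≤ Real.log (Real.log x) := Real.log_le_log (by linarith) hlhalf'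
      refine hL1.trans ?_
      calc Real.log x / Real.log (Real.log x) ^ 2 ≤ Real.log x / Real.log (Real.log ((x : ℝ) / 2)) ^ 2 := by
            apply div_le_div_of_nonneg_left hlx.le (by positivity)
            exact pow_le_pow_left₀ (by linarith) h1 _
        _ ≤ (2 * Real.log ((x : ℝ) / 2)) / Real.log (Real.log ((x : ℝ) / 2)) ^ 2 := by
            apply div_le_div_of_nonneg_right _ (by positivity)
            linarith
        _ = _ := by ring)
    hbC
  have hfl1 : ⌊(x : ℝ) / 2⌋₊ = x / 2 := by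
    have := Nat.floor_div_eq_div (K := ℝ) x 2
    simpa using this
  have hfl2 : ⌊3 * ((x : ℝ) / 2)⌋₊ = x / 2 + x := by
    have h1 : 3 * ((x : ℝ) / 2) = ((3 * x : ℕ) : ℝ) / ((2 : ℕ) : ℝ) := by push_cast; ring
    rw [h1, Nat.floor_div_eq_div]
    omega
  rw [hfl1, hfl2] at hSsub
  rw [← hJ] at hZ hSZ hScard
  obtain ⟨cc, hcc⟩ : ∃ cc, cc = fc (K1 + 1) a J := ⟨_, rfl⟩
  obtain ⟨hh, hhh⟩ : ∃ hh, hh = fh (K1 + 1) a b T J := ⟨_, rfl⟩
  rw [← hcc, ← hhh] at hZ hSZ hScard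
  have hdiv : ∀ j : Fin J, (j : ℕ) / (K1 + 1) ≤ r := by
    intro j
    have h := j.2
    rw [← Nat.lt_succ_iff, Nat.div_lt_iff_lt_mul (by omega)]
    have e : r.succ * (K1 + 1) = r * (K1 + 1) + K1 + 1 := by rw [Nat.succ_mul]; ring
    omega
  have hmod : ∀ j : Fin J, T ((j : ℕ) % (K1 + 1)) ≤ H0 := fun j => hT _ (Nat.mod_lt _ (by omega))
  have hccE : ∀ j, cc j = a ((j : ℕ) / (K1 + 1)) := fun j => by rw [hcc]; rfl
  have hhhE : ∀ j, hh j = b ((j : ℕ) / (K1 + 1)) + a ((j : ℕ) / (K1 + 1)) * (T ((j : ℕ) % (K1 + 1)) : ℤ) :=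
    fun j => by rw [hhh]; rfl
  have hxE : (1 : ℝ) ≤ (x : ℝ) ^ E := one_le_pow₀ hxo
  have hccle : ∀ j, (cc j : ℝ) ≤ (x : ℝ) ^ E := fun j => by rw [hccE]; exact ha _ (hdiv j)
  have hhhle : ∀ j, |(hh j : ℝ)| ≤ (x : ℝ) ^ (E + 2) := by
    intro j
    rw [hhhE]
    push_cast
    refine (abs_add_le _ _).trans ?_
    rw [abs_mul, Nat.abs_cast, Nat.abs_cast]
    have e1 := hb _ (hdiv j)
    have e2 := ha _ (hdiv j)
    have e3 : (T ((j : ℕ) % (K1 + 1)) : ℝ) ≤ x := by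
      have : (T ((j : ℕ) % (K1 + 1)) : ℝ) ≤ H0 := by exact_mod_cast hmod j
      linarith
    calc |(b ((j : ℕ) / (K1 + 1)) : ℝ)| + (a ((j : ℕ) / (K1 + 1)) : ℝ) * (T ((j : ℕ) % (K1 + 1)) : ℝ) ≤
          (x : ℝ) ^ E + (x : ℝ) ^ E * x := by gcongr
      _ = (x : ℝ) ^ E * (1 + x) := by ring
      _ ≤ (x : ℝ) ^ E * (x * x) := by
          gcongr
          nlinarith
      _ = _ := by ring
  obtain ⟨W, hW⟩ : ∃ W, W = WW ε x := ⟨_, rfl⟩
  have hWbig : H0 < W := by
    obtain ⟨q, hqp, hq1, hq2⟩ := Nat.exists_prime_lt_and_le_two_mul (H0 + 1) (by omega)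
    have h1 : q ∣ W := by
      rw [hW, WW_dvd ε hε.le x q hqp]
      have h2 : (q : ℝ) ≤ ((2 * (H0 + 1) : ℕ) : ℝ) := by exact_mod_cast hq2
      push_cast at h2
      linarith
    have h2 := Nat.le_of_dvd (by rw [hW]; exact WW_pos ε x) h1
    omega
  have hwin : ∀ n ∈ Ioc (x / 2) (x / 2 + x), ∀ j : Fin J, (cc j : ℤ) * n + hh j ≠ 0 := by
    intro n hn j
    rw [mem_Ioc] at hn
    have h1 := hne0 _ (hdiv j) (n + T ((j : ℕ) % (K1 + 1))) (by omega) (by
      have := hmod j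
      omega)
    rw [hccE, hhhE]
    intro h2
    apply h1
    push_cast
    linarith
  have hsys : SysU g x W (FL cc hh) := by
    apply sysU_lin g x W (x ^ (2 * E + 3)) (by omega) _ hZ
    · -- no collisions
      intro i j t ht1 htx htW
      have h1 : H0 < t := lt_of_lt_of_le hWbig (Nat.le_of_dvd (by omega) htW)
      have h2 := hmod i
      have h3 := hmod j
      obtain ⟨s, hs⟩ : ∃ s : ℕ, s + T ((i : ℕ) % (K1 + 1)) = t + T ((j : ℕ) % (K1 + 1)) :=
        ⟨t + T ((j : ℕ) % (K1 + 1)) - T ((i : ℕ) % (K1 + 1)), by omega⟩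
      have hsz : (t : ℤ) + T ((j : ℕ) % (K1 + 1)) = s + T ((i : ℕ) % (K1 + 1)) := by exact_mod_cast hs.symm
      have e : (cc i : ℤ) * cc j * t + cc i * hh j - cc j * hh i =
          (a ((i : ℕ) / (K1 + 1)) : ℤ) * a ((j : ℕ) / (K1 + 1)) * s +
            a ((i : ℕ) / (K1 + 1)) * b ((j : ℕ) / (K1 + 1)) - a ((j : ℕ) / (K1 + 1)) * b ((i : ℕ) / (K1 + 1)) := by
        rw [hccE, hccE, hhhE, hhhE]
        have e2 : (s : ℤ) = t + T ((j : ℕ) % (K1 + 1)) - T ((i : ℕ) % (K1 + 1)) := by linarith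
        rw [e2]
        ring
      rw [e]
      by_cases hll : (i : ℕ) / (K1 + 1) = (j : ℕ) / (K1 + 1)
      · rw [hll]
        have h4 : (1 : ℤ) ≤ a ((j : ℕ) / (K1 + 1)) := by exact_mod_cast hS.pos _ (hdiv j)
        have h5 : (1 : ℤ) ≤ s := by exact_mod_cast (by omega : 1 ≤ s)
        have h6 : 0 < (a ((j : ℕ) / (K1 + 1)) : ℤ) * a ((j : ℕ) / (K1 + 1)) * s := by positivity
        intro h7
        rw [add_sub_cancel_right] at h7
        omega
      · exact hNT _ (hdiv i) _ (hdiv j) hll s t ht1 htx (by rw [← hW]; exact htW) (by omega) (by omega)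
    · -- sizes
      intro i j t htx
      have h1 : (((((cc i : ℤ) * cc j * t + cc i * hh j - cc j * hh i).natAbs : ℕ)) : ℝ) ≤ (x : ℝ) ^ (2 * E + 3) := by
        rw [Nat.cast_natAbs]
        push_cast
        have htr : (t : ℝ) ≤ x := by exact_mod_cast htx
        have e1 := hccle i
        have e2 := hccle j
        have e3 := hhhle i
        have e4 := hhhle j
        refine (abs_sub _ _).trans ((add_le_add_left (abs_add_le _ _) _).trans ?_)
        rw [abs_mul, abs_mul, abs_mul, abs_mul, Nat.abs_cast, Nat.abs_cast, Nat.abs_cast]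
        calc (cc i : ℝ) * cc j * t + cc i * |(hh j : ℝ)| + cc j * |(hh i : ℝ)| ≤
              (x : ℝ) ^ E * (x : ℝ) ^ E * x + (x : ℝ) ^ E * (x : ℝ) ^ (E + 2) + (x : ℝ) ^ E * (x : ℝ) ^ (E + 2) := by
                gcongr
          _ = (x : ℝ) ^ (2 * E) * (x + 2 * x ^ 2) := by ring
          _ ≤ (x : ℝ) ^ (2 * E) * x ^ 3 := by
              gcongr
              nlinarith [pow_pos hx0 2]
          _ = _ := by ring
      exact_mod_cast h1
    · rw [← pow_mul]
      apply Nat.pow_le_pow_right (by omega)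
      rw [hg]
      omega
  have hsize : ∀ n ∈ Ioc (x / 2) (x / 2 + x), FL cc hh (n : ℤ) ≠ 0 ∧ |FL cc hh (n : ℤ)| ≤ (x : ℤ) ^ g := by
    intro n hn
    refine ⟨?_, ?_⟩
    · unfold FL
      exact Finset.prod_ne_zero_iff.2 fun j _ => hwin n hn j
    · have hn2 : (n : ℝ) ≤ 2 * x := by
        rw [mem_Ioc] at hn
        exact_mod_cast (by omega : n ≤ 2 * x)
      have h1 : |((FL cc hh (n : ℤ) : ℤ) : ℝ)| ≤ (x : ℝ) ^ g := by
        unfold FL
        push_cast
        rw [abs_prod]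
        calc ∏ j, |(cc j : ℝ) * n + hh j| ≤ ∏ _j : Fin J, (x : ℝ) ^ (E + 3) := by
              apply Finset.prod_le_prod (fun _ _ => abs_nonneg _)
              intro j _
              refine (abs_add_le _ _).trans ?_
              rw [abs_mul, Nat.abs_cast, Nat.abs_cast]
              have e1 := hccle j
              have e2 := hhhle j
              calc (cc j : ℝ) * n + |(hh j : ℝ)| ≤ (x : ℝ) ^ E * (2 * x) + (x : ℝ) ^ (E + 2) := by gcongr
                _ = (x : ℝ) ^ E * (2 * x + x ^ 2) := by ring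
                _ ≤ (x : ℝ) ^ E * x ^ 3 := by
                    gcongr
                    nlinarith [pow_pos hx0 2]
                _ = _ := by ring
          _ = (x : ℝ) ^ ((E + 3) * J) := by rw [prod_const, card_univ, Fintype.card_fin, ← pow_mul]
          _ ≤ _ := by
              apply pow_le_pow_right₀ hxo
              rw [hg]
              omega
      exact_mod_cast h1
  have hV0 : 0 < V (FL cc hh) 1 x := V_pos hsys.toSys0 1 x
  have hcard : c1 / 2 * (x * V (FL cc hh) 1 x) ≤ S.card := by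
    have h1 := hScard x (by omega)
    rw [← FL_V] at h1
    refine le_trans ?_ h1
    have h2 : (1 : ℝ) ≤ (Real.log x / Real.log ((x : ℝ) / 2)) ^ J := by
      apply one_le_pow₀
      rw [one_le_div (by linarith)]
      exact hlhalf'
    calc c1 / 2 * (x * V (FL cc hh) 1 x) = c1 * (x / 2) * (1 * V (FL cc hh) 1 x) := by ring
      _ ≤ _ := by gcongr
  have hSne : S.Nonempty := by
    rw [← card_pos]
    have : (0 : ℝ) < S.card := lt_of_lt_of_le (by positivity) hcard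
    exact_mod_cast this
  have hrough : ∀ n ∈ S, ∀ p : ℕ, p.Prime → (p : ℝ) ≤ (x : ℝ) ^ (δ / 400) → ¬ (p : ℤ) ∣ FL cc hh (n : ℤ) := by
    intro n hn p hp hpx hd
    apply hSZ n hn p hp
    · refine hpx.trans ?_
      rw [Real.rpow_def_of_pos hx0]
      apply Real.exp_le_exp.2
      unfold Pool.Agent.H378R2.LL
      calc Real.log x * (δ / 400) = δ * ((Real.log x / 2) / 200) := by ring
        _ ≤ _ := by gcongr
    · rw [mem_Zc hp.pos]
      exact (FL_dvd hp n).1 hd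
  have hPmem : ∀ n ∈ S, ∀ t : ℕ, 1 ≤ t → t ≤ L → ((n + t).Prime ↔ t ∈ P) := by
    intro n hn t ht1 ht2
    rw [← hSP n hn, mem_filter, mem_Icc]
    exact ⟨fun h => ⟨⟨ht1, ht2⟩, h⟩, fun h => h.2⟩
  have hP1 : P ⊆ Icc 1 H0 := by
    obtain ⟨n, hn⟩ := hSne
    intro t ht
    have h1 := ht
    rw [← hSP n hn, mem_filter, mem_Icc] at h1
    have h2 := ((hSgood n hn).2 (n + t) (mem_Ioc.2 (by omega)) h1.2).1
    rw [mem_Icc]
    omega
  have hPm : m ≤ P.card := by
    obtain ⟨n, hn⟩ := hSne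
    have h1 := (hSgood n hn).1
    have h2 : ((Ioc n (n + H0)).filter Nat.Prime).card ≤ P.card := by
      apply card_le_card_of_injOn (fun q => q - n)
      · intro q hq
        rw [mem_coe, mem_filter, mem_Ioc] at hq
        rw [mem_coe]
        have h3 := (hPmem n hn (q - n) (by omega) (by omega)).1 (by
          rw [show n + (q - n) = q by omega]
          exact hq.2)
        exact h3
      · intro q hq q' hq' h
        rw [mem_coe, mem_filter, mem_Ioc] at hq hq'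
        simp only at h
        omega
    omega
  refine ⟨P, S, hP1, hPm, hSsub, ?_, ?_⟩
  · intro n hn
    refine ⟨fun t ht1 ht2 => hPmem n hn t ht1 ht2, ?_⟩
    intro t ht
    have ht' := mem_Icc.1 (hP1 ht)
    have hp : (n + t).Prime := (hPmem n hn t ht'.1 (by omega)).2 ht
    refine ⟨hp, ?_⟩
    intro l hl q hq hqd
    have h1 := ((hSgood n hn).2 (n + t) (mem_Ioc.2 (by omega)) hp).2 l hl q hq hqd
    refine lt_of_le_of_lt ?_ h1
    rw [Real.rpow_def_of_pos hx0]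
    apply Real.exp_le_exp.2
    unfold Pool.Agent.H378R2.LL
    calc Real.log x * (δ / 400) = δ * ((Real.log x / 2) / 200) := by ring
      _ ≤ _ := by gcongr
  · intro S' hS'S hS'c sh hsh hsh1 hsh2
    obtain ⟨D', hD1, hD2⟩ := heng (FL cc hh) (x / 2) x S' sh (by rw [← hW]; exact hsys) hx1 hsize
      (hS'S.trans hSsub) (fun n hn => hrough n (hS'S hn)) (by
        refine le_trans ?_ hS'c
        rw [mul_assoc]
        gcongr) hsh hsh1 hsh2
    refine ⟨D', le_trans ?_ hD1, ?_⟩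
    · gcongr
      exact min_le_left _ _
    · intro d hd
      obtain ⟨h1, h2, h3⟩ := hD2 d hd
      refine ⟨h1, h2, le_trans ?_ h3⟩
      have h4 := hVlow (FL cc hh) x ⟨hsys.per, fun p hp => by rw [FL_rt hp]; exact hZ p hp⟩ hx4 (by omega)
      have h5 : V (FL cc hh) 1 x = dW (FL cc hh) (WW ε x) * V (FL cc hh) (WW ε x) x := by
        apply Pool.Agent.H534.UT.V_dW _ _ _ (WW_pos ε x)
        intro p hp hpd
        have h6 := (WW_dvd ε hε.le x p hp).1 hpd
        have h7 : (p : ℝ) ≤ x := by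
          have : ε * Real.log x ≤ 1 * Real.log x := by
            gcongr
            linarith
          have := Real.log_le_sub_one_of_pos hx0
          linarith
        exact_mod_cast h7
      have h6 : 0 < V (FL cc hh) (WW ε x) x := V_pos hsys.toSys0 _ x
      have h7 : 0 < dW (FL cc hh) (WW ε x) := by
        unfold dW
        apply Finset.prod_pos
        intro p hp
        exact Pool.Agent.Y814.RSZ.fac_pos _ _ (hsys.root p (Nat.prime_of_mem_primeFactors hp)).2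
      have h8 : dW (FL cc hh) (WW ε x) ≤ 1 := by
        unfold dW
        exact Finset.prod_le_one (fun p hp => (Pool.Agent.Y814.RSZ.fac_pos _ _
          (hsys.root p (Nat.prime_of_mem_primeFactors hp)).2).le) (fun p _ => Pool.Agent.Y814.RSZ.fac_le_one _ _)
      have h9 : (V (FL cc hh) 1 x) ^ (k + 1) ≤ dW (FL cc hh) (WW ε x) * V (FL cc hh) (WW ε x) x ^ (k + 1) := by
        rw [h5, mul_pow]
        apply mul_le_mul_of_nonneg_right _ (by positivity)
        exact pow_le_of_le_one h7.le h8 (by omega)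
      calc min c (c * KV ^ (k + 1)) * (x / Real.log x ^ (2 * J * (k + 1))) ≤
            c * KV ^ (k + 1) * (x / Real.log x ^ (2 * J * (k + 1))) := by
              gcongr
              exact min_le_right _ _
        _ = c * (x * (KV / Real.log x ^ (2 * J)) ^ (k + 1)) := by
            rw [div_pow, ← pow_mul]
            ring
        _ ≤ c * (x * (V (FL cc hh) 1 x) ^ (k + 1)) := by gcongr
        _ ≤ c * (x * (dW (FL cc hh) (WW ε x) * V (FL cc hh) (WW ε x) x ^ (k + 1))) := by gcongr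
        _ = _ := by ring

end Pool.Agent.H534.RT
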