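import Pool.Agent.H534.RT.Tup
import Pool.Agent.H534.RT.CluW

/-!
# Strings of primes with coloured almost prime companions
-/

set_option autoImplicit false

open Finset Filter Polynomial

namespace Pool.Agent.H534.RT

open Pool.Agent.H534.RS hiding majW classes engP
open Pool.Agent.W123.RP Pool.Agent.H373R2.T7 Pool.Agent.W123.RU Pool.Agent.W123.RU.Poly
open Pool.Agent.Y879.GL (US us_adm us_perB lf lf_eval us_lf lf_assoc)

open Classical in
/-- **Tuples: strings of primes, dense subsets.** -/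
theorem tupS (m s : ℕ) : ∃ η : ℝ, 0 < η ∧ ∃ B K : ℕ, ∀ (k C₀ : ℕ) (δ κ : ℝ), 1 ≤ k → 0 < δ → δ ≤ 1 → 0 < κ →
    ∃ c : ℝ, 0 < c ∧ ∃ x₀ : ℕ, ∀ x : ℕ, x₀ ≤ x → ∀ (h : Fin s → ℕ) (L : ℕ), TAdm h → Function.Injective h →
      (∀ i, 1 ≤ h i) → (∀ i, (h i : ℝ) ≤ (x : ℝ) ^ (δ / 16)) →
      K ≤ L → (L : ℝ) ≤ Real.log x / Real.log (Real.log x) ^ 2 → (L ≤ C₀ ∨ ∀ i, h i ≤ C₀ ∨ L < h i) →
      ∃ P S : Finset ℕ, P ⊆ Icc 1 K ∧ m ≤ P.card ∧ S ⊆ Ioc (x / 2) (x / 2 + x) ∧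
      (∀ n ∈ S, (∀ t : ℕ, 1 ≤ t → t ≤ L → ((n + t).Prime ↔ t ∈ P)) ∧
          ∀ t ∈ P, (n + t).Prime ∧ ∀ i, ∀ q : ℕ, q.Prime → q ∣ n + t + h i → (x : ℝ) ^ η < q) ∧
      ∀ S' ⊆ S, κ * S.card ≤ S'.card →
      ∀ b : Fin k → ℕ, Function.Injective b → (∀ i, 1 ≤ b i) → (∀ i, (b i : ℝ) ≤ (x : ℝ) ^ (1 - δ)) →
      c * (x : ℝ) ^ (δ / 8) ≤ (((Icc 1 ⌊(x : ℝ) ^ (δ / 8)⌋₊).filter (fun d =>
        c * (x / Real.log x ^ (B * (k + 1))) ≤
        ((S'.filter (fun n => ∀ i, n + WW (δ / 8) x * d * b i ∈ S')).card : ℝ))).card : ℝ) := by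
  obtain ⟨η, hη, B, K, hcl⟩ := cluW m s
  refine ⟨η, hη, B, K, fun k C₀ δ κ hk hδ hδ1 hκ => ?_⟩
  obtain ⟨c, hc, x₀, h1⟩ := hcl k 1 C₀ (δ / 8) κ hk (by positivity) (by linarith) hκ
  obtain ⟨x₂, hx₂⟩ := eventually_atTop.1 (WW_bigger (δ / 8) (by positivity) K)
  refine ⟨c, hc, max x₀ (max x₂ (2 * K + 2)), fun x hx h L hadm hinj hpos hhx hKL hL hLC => ?_⟩
  have hx0 : x₀ ≤ x := (le_max_left _ _).trans hx
  have hx2 : x₂ ≤ x := ((le_max_left _ _).trans (le_max_right _ _)).trans hx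
  have hxK : 2 * K + 2 ≤ x := ((le_max_right _ _).trans (le_max_right _ _)).trans hx
  have hxr : (1 : ℝ) < x := by exact_mod_cast (by omega : 1 < x)
  have hbig := hx₂ x hx2
  rw [show δ / 8 / 2 = δ / 16 by ring] at hbig
  have hW : ∀ i, h i + K < WW (δ / 8) x := by
    intro i
    have h3 := hhx i
    have h4 : (h i : ℝ) + K < WW (δ / 8) x := by linarith
    exact_mod_cast h4
  obtain ⟨bb, hbb⟩ : ∃ bb : ℕ → ℤ, bb = fun l => if hl : l < s then (h ⟨l, hl⟩ : ℤ) else 0 := ⟨_, rfl⟩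
  have hbl : ∀ l (hl : l < s), bb l = h ⟨l, hl⟩ := fun l hl => by rw [hbb]; simp [hl]
  have hbs : bb s = 0 := by rw [hbb]; simp
  have hcase : ∀ l ≤ s, (∃ hl : l < s, bb l = h ⟨l, hl⟩) ∨ (l = s ∧ bb l = 0) := by
    intro l hl
    rcases Nat.lt_or_ge l s with h3 | h3
    · exact Or.inl ⟨h3, hbl l h3⟩
    · have : l = s := le_antisymm hl h3
      exact Or.inr ⟨this, by rw [this]; exact hbs⟩
  have hb0 : ∀ l ≤ s, 0 ≤ bb l := by
    intro l hl
    rcases hcase l hl with ⟨h3, h4⟩ | ⟨-, h4⟩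
    · rw [h4]; exact Nat.cast_nonneg _
    · rw [h4]
  have hbW : ∀ l ≤ s, bb l + K < WW (δ / 8) x := by
    intro l hl
    rcases hcase l hl with ⟨h3, h4⟩ | ⟨-, h4⟩
    · rw [h4]; exact_mod_cast hW _
    · rw [h4]
      have h5 : (K : ℝ) < WW (δ / 8) x := by
        have : (0 : ℝ) < (x : ℝ) ^ (δ / 16) := by positivity
        linarith
      have h6 : K < WW (δ / 8) x := by exact_mod_cast h5
      omega
  have hsys : Pool.Agent.Y848.UG.Sys s (fun _ => 1) bb := by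
    refine ⟨rfl, hbs, fun l _ => le_rfl, ?_, ?_⟩
    · rintro l hl l' hl' hne ⟨-, he⟩
      rcases hcase l hl with ⟨h3, h4⟩ | ⟨h3, h4⟩ <;> rcases hcase l' hl' with ⟨h5, h6⟩ | ⟨h5, h6⟩
      · rw [h4, h6] at he
        have h7 : h ⟨l, h3⟩ = h ⟨l', h5⟩ := by exact_mod_cast he
        have h8 := hinj h7
        rw [Fin.mk.injEq] at h8
        exact hne h8
      · rw [h4, h6] at he
        have := hpos ⟨l, h3⟩
        omega
      · rw [h4, h6] at he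
        have := hpos ⟨l', h5⟩
        omega
      · omega
    · intro p hp
      obtain ⟨n, h3, h4⟩ := hadm p hp
      refine ⟨n, fun l hl hd => ?_⟩
      rcases hcase l hl with ⟨h5, h6⟩ | ⟨h5, h6⟩
      · rw [h6] at hd
        apply h4 ⟨l, h5⟩
        have : (p : ℤ) ∣ ((n + h ⟨l, h5⟩ : ℕ) : ℤ) := by
          push_cast at hd ⊢
          rwa [one_mul] at hd
        exact Int.natCast_dvd_natCast.1 this
      · rw [h6] at hd
        apply h3
        have : (p : ℤ) ∣ (n : ℤ) := by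
          push_cast at hd
          rwa [one_mul, add_zero] at hd
        exact Int.natCast_dvd_natCast.1 this
  obtain ⟨P, S, hP1, hP2, hS1, hS2, hsh⟩ := h1 x hx0 (fun _ => 1) bb L hsys
    (fun l _ => by
      push_cast
      rw [pow_one]
      exact hxr.le)
    (fun l hl => by
      rw [pow_one]
      rcases hcase l hl with ⟨h3, h4⟩ | ⟨h3, h4⟩
      · rw [h4]
        push_cast
        rw [Nat.abs_cast]
        refine (hhx _).trans ?_
        nth_rewrite 2 [← Real.rpow_one (x : ℝ)]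
        apply Real.rpow_le_rpow_of_exponent_le hxr.le
        linarith
      · rw [h4]
        simp)
    hKL hL
    (by
      rcases hLC with h3 | h3
      · exact Or.inl h3
      · right
        intro l hl _
        rw [hbl l hl]
        rcases h3 ⟨l, hl⟩ with h4 | h4
        · left; exact_mod_cast h4
        · right; exact_mod_cast h4)
    (fun l hl n hn1 hn2 => by
      have := hb0 l hl
      push_cast
      omega)
    (fun l hl l' hl' hne u t ht1 htx htW hut htu => by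
      have h3 := hb0 l hl
      have h4 := hb0 l' hl'
      have h5 := hbW l hl
      have h6 := Nat.le_of_dvd (by omega) htW
      push_cast
      omega)
  refine ⟨P, S, hP1, hP2, hS1, fun n hn => ?_, fun S' hS' hS'c b hb hb1 hb2 => ?_⟩
  · obtain ⟨h7, h8⟩ := hS2 n hn
    refine ⟨h7, fun t ht => ?_⟩
    obtain ⟨h9, h10⟩ := h8 t ht
    refine ⟨h9, fun i q hq hd => ?_⟩
    apply h10 i i.2 q hq
    rw [hbl i i.2]
    have h13 : (q : ℤ) ∣ ((n + t + h i : ℕ) : ℤ) := Int.natCast_dvd_natCast.2 hd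
    push_cast at h13 ⊢
    rwa [one_mul]
  · obtain ⟨D', hD1, hD2⟩ := hsh S' hS' hS'c b hb hb1 (fun l => by
        refine (hb2 l).trans ?_
        rw [le_div_iff₀ (by positivity), ← Real.rpow_natCast ((x : ℝ) ^ (δ / 8)), ← Real.rpow_mul (by linarith),
          ← Real.rpow_add (by linarith)]
        nth_rewrite 2 [← Real.rpow_one (x : ℝ)]
        apply Real.rpow_le_rpow_of_exponent_le hxr.le
        push_cast
        linarith)
    refine toFil _ D' hD1 le_rfl (fun e he => ?_)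
    obtain ⟨h3, h4, h5⟩ := hD2 e he
    refine ⟨h3, h4, h5.trans ?_⟩
    apply Nat.cast_le.2
    apply card_le_card
    intro n hn
    unfold solN at hn
    rw [mem_filter] at hn ⊢
    refine ⟨hn.1, fun i => ?_⟩
    have := hn.2 i
    rwa [mul_right_comm] at this

open Classical in
/-- **Coloured companions.** -/
theorem colS (m s q : ℕ) : ∃ η : ℝ, 0 < η ∧ ∃ B K : ℕ, ∀ (k C₀ : ℕ) (δ : ℝ), 1 ≤ k → 0 < δ → δ ≤ 1 →
    ∃ c : ℝ, 0 < c ∧ ∃ x₀ : ℕ, ∀ x : ℕ, x₀ ≤ x → ∀ (h : Fin s → ℕ) (L : ℕ), TAdm h → Function.Injective h →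
      (∀ i, 1 ≤ h i) → (∀ i, (h i : ℝ) ≤ (x : ℝ) ^ (δ / 16)) →
      K ≤ L → (L : ℝ) ≤ Real.log x / Real.log (Real.log x) ^ 2 → (L ≤ C₀ ∨ ∀ i, h i ≤ C₀ ∨ L < h i) →
      ∀ χ : Fin s → ℕ → Fin q, ∃ (P P₀ : Finset ℕ) (σ : Fin s → Fin q), P ⊆ P₀ ∧ P₀ ⊆ Icc 1 K ∧ m ≤ P.card ∧
      ∀ b : Fin k → ℕ, Function.Injective b → (∀ i, 1 ≤ b i) → (∀ i, (b i : ℝ) ≤ (x : ℝ) ^ (1 - δ)) →
      c * (x : ℝ) ^ (δ / 8) ≤ (((Icc 1 ⌊(x : ℝ) ^ (δ / 8)⌋₊).filter (fun d =>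
        c * (x / Real.log x ^ (B * (k + 1))) ≤
        (((Ioc (x / 2) (x / 2 + x)).filter (fun n => ∀ u : ℕ, (u = 0 ∨ ∃ i, u = b i) →
          n + WW (δ / 8) x * d * u ≤ x / 2 + x ∧
          (∀ t : ℕ, 1 ≤ t → t ≤ L → ((n + WW (δ / 8) x * d * u + t).Prime ↔ t ∈ P₀)) ∧
          ∀ t ∈ P, (n + WW (δ / 8) x * d * u + t).Prime ∧ ∀ i,
            (∀ q : ℕ, q.Prime → q ∣ n + WW (δ / 8) x * d * u + t + h i → (x : ℝ) ^ η < q) ∧
            χ i (n + WW (δ / 8) x * d * u + t + h i) = σ i)).card : ℝ))).card : ℝ) := by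
  obtain ⟨η, hη, B, K, hS⟩ := tupS (m * Fintype.card (Fin s → Fin q)) s
  refine ⟨η, hη, B, K, fun k C₀ δ hk hδ hδ1 => ?_⟩
  obtain ⟨N, hN⟩ : ∃ N, N = Fintype.card (Fin (K + 1) → Fin s → Fin q) := ⟨_, rfl⟩
  obtain ⟨c, hc, x₀, h1⟩ := hS k C₀ δ (1 / (N + 1)) hk hδ hδ1 (by positivity)
  refine ⟨c, hc, x₀, fun x hx h L hadm hinj hpos hhx hKL hL hLC χ => ?_⟩
  obtain ⟨P₀, S, hP1, hP2, hS1, hS2, hsh⟩ := h1 x hx h L hadm hinj hpos hhx hKL hL hLC
  obtain ⟨F, hF⟩ : ∃ F : ℕ → (Fin (K + 1) → Fin s → Fin q), F = fun n (t : Fin (K + 1)) i => χ i (n + (t : ℕ) + h i) := ⟨_, rfl⟩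
  have hne : (univ : Finset (Fin (K + 1) → Fin s → Fin q)).Nonempty := ⟨F 0, mem_univ _⟩
  obtain ⟨y, -, hy⟩ := Finset.exists_le_card_fiber_of_nsmul_le_card_of_maps_to (s := S) (f := F)
    (t := (univ : Finset (Fin (K + 1) → Fin s → Fin q))) (b := (1 / (N + 1) : ℝ) * S.card)
    (fun _ _ => mem_univ _) hne (by
      rw [card_univ, ← hN, nsmul_eq_mul]
      have h2 : (0 : ℝ) ≤ S.card := Nat.cast_nonneg _
      have h3 : (N : ℝ) * (1 / (N + 1)) ≤ 1 := by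
        rw [mul_one_div, div_le_one (by positivity)]
        linarith
      calc (N : ℝ) * (1 / (N + 1) * S.card) = (N : ℝ) * (1 / (N + 1)) * S.card := by ring
        _ ≤ 1 * S.card := by gcongr
        _ = _ := one_mul _)
  -- the colours of the string
  have hne2 : (univ : Finset (Fin s → Fin q)).Nonempty := ⟨fun i => χ i 0, mem_univ _⟩
  obtain ⟨σ, -, hσ⟩ := Finset.exists_le_card_fiber_of_mul_le_card_of_maps_to (s := P₀)
    (f := fun t : ℕ => if ht : t < K + 1 then y ⟨t, ht⟩ else fun i => χ i 0)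
    (t := (univ : Finset (Fin s → Fin q))) (n := m) (fun _ _ => mem_univ _) hne2 (by
      rw [card_univ, mul_comm]
      exact hP2)
  refine ⟨P₀.filter (fun t => (if ht : t < K + 1 then y ⟨t, ht⟩ else fun i => χ i 0) = σ), P₀, σ, filter_subset _ _,
    hP1, hσ, fun b hb hb1 hb2 => ?_⟩
  refine (hsh (S.filter (fun n => F n = y)) (filter_subset _ _) hy b hb hb1 hb2).trans ?_
  apply Nat.cast_le.2
  apply card_le_card
  intro d hd
  rw [mem_filter] at hd ⊢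
  refine ⟨hd.1, hd.2.trans ?_⟩
  apply Nat.cast_le.2
  apply card_le_card
  intro n hn
  rw [mem_filter] at hn ⊢
  refine ⟨hS1 (mem_filter.1 hn.1).1, fun u hu => ?_⟩
  have hmem : n + WW (δ / 8) x * d * u ∈ S.filter (fun n => F n = y) := by
    rcases hu with rfl | ⟨i, rfl⟩
    · simpa using hn.1
    · exact hn.2 i
  obtain ⟨h3, h4⟩ := mem_filter.1 hmem
  obtain ⟨h7, h8⟩ := hS2 _ h3
  refine ⟨(mem_Ioc.1 (hS1 h3)).2, h7, fun t ht => ?_⟩
  obtain ⟨ht1, ht2⟩ := mem_filter.1 ht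
  obtain ⟨h9, h10⟩ := h8 t ht1
  refine ⟨h9, fun i => ⟨h10 i, ?_⟩⟩
  have htK : t < K + 1 := by
    have := (mem_Icc.1 (hP1 ht1)).2
    omega
  rw [dif_pos htK] at ht2
  have h11 := congrFun (congrFun h4 ⟨t, htK⟩) i
  rw [hF] at h11
  simp only at h11
  rw [h11, ht2]

end Pool.Agent.H534.RT
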