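import Pool.Agent.H534.RT.Sie
import Pool.Agent.H534.RT.Col

/-!
# The forms `q r_j + 1`, uniformly in the `r_j`
-/

set_option autoImplicit false

open Finset Filter Polynomial

namespace Pool.Agent.H534.RT

open Pool.Agent.H534.RS hiding majW classes engP
open Pool.Agent.W123.RP Pool.Agent.H373R2.T7 Pool.Agent.W123.RU Pool.Agent.W123.RU.Poly
open Pool.Agent.Y879.GL (US us_adm us_perB lf lf_eval us_lf lf_assoc)

/-- the forms `r_j n + 1` -/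
noncomputable def qf {l : ℕ} (r : Fin l → ℕ) : Fin l → ℤ[X] := fun j => lf (r j) 1

lemma qf_dvd {l : ℕ} (r : Fin l → ℕ) (p n : ℕ) : (∃ j, (p : ℤ) ∣ (qf r j).eval (n : ℤ)) ↔ ∃ j, p ∣ n * r j + 1 := by
  unfold qf
  simp only [lf_eval]
  constructor
  · rintro ⟨j, h⟩
    refine ⟨j, ?_⟩
    have : ((r j : ℤ) * n + 1) = ((n * r j + 1 : ℕ) : ℤ) := by push_cast; ring
    rw [this] at h
    exact_mod_cast h
  · rintro ⟨j, h⟩
    refine ⟨j, ?_⟩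
    have : ((r j : ℤ) * n + 1) = ((n * r j + 1 : ℕ) : ℤ) := by push_cast; ring
    rw [this]
    exact_mod_cast h

lemma qf_Q {l : ℕ} (r : Fin l → ℕ) : Poly.Q (qf r) = fun p n => ∃ j, p ∣ n * r j + 1 := by
  funext p n
  exact propext (qf_dvd r p n)

lemma qf_us {l : ℕ} (r : Fin l → ℕ) (M : ℝ) (hM : 1 ≤ M) (hr1 : ∀ j, 1 ≤ r j) (hr : ∀ j, (r j : ℝ) ≤ M) :
    US l 1 M 0 (qf r) := by
  have e : qf r = fun j => lf ((fun j => (r j : ℤ)) j) ((fun _ => 1 : Fin l → ℤ) j) := rfl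
  rw [e]
  apply us_lf l (fun j => (r j : ℤ)) (fun _ => 1) M 0
  · intro i
    have := hr1 i
    omega
  · intro i; exact isCoprime_one_right
  · intro i
    simpa using hr i
  · intro i
    simpa using hM
  · intro p hp
    refine ⟨0, fun i hd => ?_⟩
    have h1 : (p : ℤ) ∣ 1 := by simpa using hd
    have h2 : p ∣ 1 := by exact_mod_cast h1
    exact hp.one_lt.ne' (Nat.dvd_one.1 h2)
  · intro i j t ht1 ht2
    have : (1 : ℝ) ≤ t := by exact_mod_cast ht1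
    linarith

lemma qf_nt {l : ℕ} (r : Fin l → ℕ) (W H : ℕ) (hr1 : ∀ j, 1 ≤ r j) : NT W H (qf r) := by
  intro i j t ht1 htH htW hass
  have h1 := lf_assoc _ _ _ _ _ hass
  have hi := hr1 i
  have hj := hr1 j
  rcases h1 with ⟨-, h4⟩ | ⟨h4, -⟩
  · have h5 : (1 : ℤ) ≤ (r j : ℤ) * t := by
      have : 1 ≤ r j * t := Nat.mul_pos hj (by omega)
      exact_mod_cast this
    linarith
  · omega

open Classical in
/-- the sieve density -/
noncomputable def QV {l : ℕ} (r : Fin l → ℕ) (z : ℕ) : ℝ :=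
  ∏ p ∈ (Icc 1 z).filter Nat.Prime, (1 - (((range p).filter (fun n => ∃ j, p ∣ n * r j + 1)).card : ℝ) / p)

lemma QV_eq {l : ℕ} (r : Fin l → ℕ) (z : ℕ) : Vq (Poly.Q (qf r)) z = QV r z := by
  rw [qf_Q]
  unfold Vq QV pz
  apply prod_congr rfl
  intro p _
  have e : nuB (fun p n => ∃ j, p ∣ n * r j + 1) p = ((range p).filter (fun n => ∃ j, p ∣ n * r j + 1)).card := by
    unfold nuB
    apply congrArg
    ext n
    simp only [mem_filter]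
  rw [e]

open Classical in
/-- **Dense sets.** -/
theorem qrA (l E k : ℕ) (δ η κ : ℝ) (hk : 1 ≤ k) (hE : 1 ≤ E) (hδ : 0 < δ) (hδ1 : δ ≤ 1) (hη : 0 < η) (hκ : 0 < κ) :
    ∃ c : ℝ, 0 < c ∧ ∃ H₀ : ℕ, ∀ (H Y : ℕ) (r : Fin l → ℕ) (A : Finset ℕ), H₀ ≤ H →
    (∀ j, 1 ≤ r j) → (∀ j, r j ≤ H ^ E) → Y ≤ H ^ E → A ⊆ Ioc Y (Y + H) →
    (∀ n ∈ A, ∀ p : ℕ, p.Prime → (p : ℝ) ≤ (H : ℝ) ^ η → ∀ j, ¬ p ∣ n * r j + 1) →
    κ * (H * QV r H) ≤ A.card →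
    ∀ b : Fin k → ℕ, Function.Injective b → (∀ i, 1 ≤ b i) → (∀ i, (b i : ℝ) ≤ (H : ℝ) ^ (1 - δ)) →
    c * (H : ℝ) ^ (δ / 8) ≤ (((Icc 1 ⌊(H : ℝ) ^ (δ / 8)⌋₊).filter (fun d =>
      c * (H * (QV r H ^ (k + 1) / QV r ⌊δ / 8 * Real.log H⌋₊ ^ k)) ≤
        ((A.filter (fun n => ∀ i, n + WW (δ / 8) H * d * b i ∈ A)).card : ℝ))).card : ℝ) := by
  obtain ⟨c, hc, H₀, hm⟩ := genA l 1 E k δ η κ hk hE hδ hδ1 hη hκ
  refine ⟨c, hc, max H₀ 1, fun H Y r A hH hr1 hr hY hA hAr hAc b hb hb1 hb2 => ?_⟩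
  have hH0 : H₀ ≤ H := (le_max_left _ _).trans hH
  have hHone : 1 ≤ H := (le_max_right _ _).trans hH
  have hHr : (1 : ℝ) ≤ H := by exact_mod_cast hHone
  have h2 := hm H Y (qf r) A hH0 (qf_us r _ (one_le_pow₀ hHr) hr1 (fun j => by exact_mod_cast hr j)) (qf_nt r _ H hr1) hY
    (fun n hn j => by
      unfold qf
      rw [lf_eval]
      positivity) hA
    (fun n hn j p hp hpH hd => by
      obtain ⟨i, hi⟩ := (qf_dvd r p n).1 ⟨j, hd⟩
      exact hAr n hn p hp hpH i hi)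
    (by rw [QV_eq]; exact hAc) b hb hb1 hb2
  rw [QV_eq, QV_eq] at h2
  exact h2

open Classical in
/-- the `q` of `(Y, Y + H]` with all `q r_j + 1` free of primes up to `H ^ (1 / R)` -/
noncomputable def QP {l : ℕ} (r : Fin l → ℕ) (Y H R : ℕ) : Finset ℕ :=
  (Ioc Y (Y + H)).filter (fun n => ∀ j, ∀ p : ℕ, p.Prime → p ∣ n * r j + 1 → (H : ℝ) ^ (1 / (R : ℝ)) < p)

open Classical in
/-- **Almost primes.** -/
theorem qrB (l : ℕ) : ∃ R₀ : ℕ, 2 ≤ R₀ ∧ ∀ R : ℕ, R₀ ≤ R → ∀ (k E : ℕ) (δ : ℝ), 1 ≤ k → 1 ≤ E → 0 < δ → δ ≤ 1 →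
    ∃ c : ℝ, 0 < c ∧ ∀ᶠ H : ℕ in atTop, ∀ (Y : ℕ) (r : Fin l → ℕ), H ≤ Y → Y ≤ H ^ E → (∀ j, 1 ≤ r j) →
    (∀ j, r j ≤ H ^ E) →
    ∀ b : Fin k → ℕ, Function.Injective b → (∀ i, 1 ≤ b i) → (∀ i, (b i : ℝ) ≤ (H : ℝ) ^ (1 - δ)) →
    c * (H : ℝ) ^ (δ / 8) ≤ (((Icc 1 ⌊(H : ℝ) ^ (δ / 8)⌋₊).filter (fun d =>
      c * (H * (QV r H ^ (k + 1) / QV r ⌊δ / 8 * Real.log H⌋₊ ^ k)) ≤
        (((QP r Y H R).filter (fun n => ∀ i, n + WW (δ / 8) H * d * b i ∈ QP r Y H R)).card : ℝ))).card : ℝ) := by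
  obtain ⟨R₀, hR₀, hm⟩ := genS l 1
  refine ⟨R₀, hR₀, fun R hR k E δ hk hE hδ hδ1 => ?_⟩
  have hR0 : (0 : ℝ) < R := by exact_mod_cast (by omega : 0 < R)
  obtain ⟨c, hc, H₀, hA⟩ := qrA l E k δ (1 / R) (1 / 2) hk hE hδ hδ1 (by positivity) (by norm_num)
  refine ⟨c, hc, ?_⟩
  filter_upwards [hm R hR, eventually_ge_atTop (max H₀ 1)] with H h1 h2 Y r hHY hY hr1 hr b hb hb1 hb2
  have hH1 : 1 ≤ H := (le_max_right _ _).trans h2
  have hHr : (1 : ℝ) ≤ H := by exact_mod_cast hH1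
  refine hA H Y r (QP r Y H R) ((le_max_left _ _).trans h2) hr1 hr hY (filter_subset _ _) ?_ ?_ b hb hb1 hb2
  · intro n hn p hp hpH j hd
    unfold QP at hn
    rw [mem_filter] at hn
    have := hn.2 j p hp hd
    linarith
  · have h3 := h1 ((H : ℝ) ^ E) Y hHY (qf r) (qf_us r _ (one_le_pow₀ hHr) hr1 (fun j => by exact_mod_cast hr j))
    rw [QV_eq] at h3
    refine h3.trans ?_
    apply Nat.cast_le.2
    unfold QP
    apply card_le_card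
    intro n hn
    rw [mem_filter] at hn ⊢
    refine ⟨hn.1, fun j p hp hd => ?_⟩
    by_contra hcon
    rw [not_lt] at hcon
    apply hn.2 j p hp hcon
    unfold qf
    rw [lf_eval]
    have : ((r j : ℤ) * n + 1) = ((n * r j + 1 : ℕ) : ℤ) := by push_cast; ring
    rw [this]
    exact_mod_cast hd

open Classical in
/-- **Strings of primes `q`.** -/
theorem qrC (m l : ℕ) : ∃ η : ℝ, 0 < η ∧ ∃ B K : ℕ, ∀ (k E : ℕ) (δ κ : ℝ), 1 ≤ k → 0 < δ → δ ≤ 1 → 0 < κ →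
    ∃ c : ℝ, 0 < c ∧ ∃ x₀ : ℕ, ∀ x : ℕ, x₀ ≤ x → ∀ r : Fin l → ℕ, Function.Injective r →
      (∀ p : ℕ, p.Prime → ∃ n : ℕ, ¬ p ∣ n ∧ ∀ j, ¬ p ∣ n * r j + 1) →
      (∀ j, 1 ≤ r j) → (∀ j, r j ≤ x ^ E) →
      ∃ P S : Finset ℕ, P ⊆ Icc 1 K ∧ m ≤ P.card ∧ S ⊆ Ioc (x / 2) (x / 2 + x) ∧
      (∀ n ∈ S, (∀ t : ℕ, 1 ≤ t → (t : ℝ) ≤ Real.log x / Real.log (Real.log x) ^ 2 → ((n + t).Prime ↔ t ∈ P)) ∧
          ∀ t ∈ P, (n + t).Prime ∧ ∀ j, ∀ q : ℕ, q.Prime → q ∣ (n + t) * r j + 1 → (x : ℝ) ^ η < q) ∧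
      ∀ S' ⊆ S, κ * S.card ≤ S'.card →
      ∀ b : Fin k → ℕ, Function.Injective b → (∀ i, 1 ≤ b i) → (∀ i, (b i : ℝ) ≤ (x : ℝ) ^ (1 - δ)) →
      c * (x : ℝ) ^ (δ / 8) ≤ (((Icc 1 ⌊(x : ℝ) ^ (δ / 8)⌋₊).filter (fun d =>
        c * (x / Real.log x ^ (B * (k + 1))) ≤
        ((S'.filter (fun n => ∀ i, n + WW (δ / 8) x * d * b i ∈ S')).card : ℝ))).card : ℝ) := by
  obtain ⟨η, hη, B, K, hcl⟩ := cluW m l
  refine ⟨η, hη, B, K, fun k E δ κ hk hδ hδ1 hκ => ?_⟩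
  obtain ⟨c, hc, x₀, h1⟩ := hcl k E 1 (δ / 8) κ hk (by positivity) (by linarith) hκ
  obtain ⟨x₂, hx₂⟩ := eventually_atTop.1 (WW_bigger (δ / 8) (by positivity) (K + 1))
  obtain ⟨x₃, hx₃⟩ := numU 1 one_pos K
  refine ⟨c, hc, max x₀ (max x₂ (max x₃ 2)), fun x hx r hinj hadm hr1 hr => ?_⟩
  have hx0 : x₀ ≤ x := (le_max_left _ _).trans hx
  have hx2 : x₂ ≤ x := ((le_max_left _ _).trans (le_max_right _ _)).trans hx
  have hx3 : x₃ ≤ x := (((le_max_left _ _).trans (le_max_right _ _)).trans (le_max_right _ _)).trans hx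
  have hxK : 2 ≤ x := (((le_max_right _ _).trans (le_max_right _ _)).trans (le_max_right _ _)).trans hx
  have hxr : (1 : ℝ) < x := by exact_mod_cast (by omega : 1 < x)
  have hbig := hx₂ x hx2
  obtain ⟨-, -, n3, -, n5⟩ := hx₃ x hx3
  have hWK : K + 1 < WW (δ / 8) x := by
    have h5 : ((K + 1 : ℕ) : ℝ) < WW (δ / 8) x := by
      have : (0 : ℝ) < (x : ℝ) ^ (δ / 8 / 2) := by positivity
      linarith
    exact_mod_cast h5
  obtain ⟨L, hL⟩ : ∃ L, L = ⌊Real.log x / Real.log (Real.log x) ^ 2⌋₊ := ⟨_, rfl⟩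
  have hLpos : 0 ≤ Real.log x / Real.log (Real.log x) ^ 2 := by
    have : 0 ≤ Real.log (x : ℝ) := Real.log_nonneg hxr.le
    positivity
  have hL1 : (L : ℝ) ≤ Real.log x / Real.log (Real.log x) ^ 2 := by
    rw [hL]
    exact Nat.floor_le hLpos
  have hL2 : K ≤ L := by
    rw [hL]
    apply Nat.le_floor
    linarith
  obtain ⟨aa, haa⟩ : ∃ aa : ℕ → ℕ, aa = fun i => if hi : i < l then r ⟨i, hi⟩ else 1 := ⟨_, rfl⟩
  obtain ⟨bb, hbb⟩ : ∃ bb : ℕ → ℤ, bb = fun i => if i < l then 1 else 0 := ⟨_, rfl⟩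
  have hal : ∀ i (hi : i < l), aa i = r ⟨i, hi⟩ := fun i hi => by rw [haa]; simp [hi]
  have hbl : ∀ i, i < l → bb i = 1 := fun i hi => by rw [hbb]; simp [hi]
  have has : aa l = 1 := by rw [haa]; simp
  have hbs : bb l = 0 := by rw [hbb]; simp
  have hcase : ∀ i ≤ l, (∃ hi : i < l, aa i = r ⟨i, hi⟩ ∧ bb i = 1) ∨ (i = l ∧ aa i = 1 ∧ bb i = 0) := by
    intro i hi
    rcases Nat.lt_or_ge i l with h3 | h3
    · exact Or.inl ⟨h3, hal i h3, hbl i h3⟩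
    · have : i = l := le_antisymm hi h3
      exact Or.inr ⟨this, by rw [this]; exact has, by rw [this]; exact hbs⟩
  have ha1 : ∀ i ≤ l, 1 ≤ aa i := by
    intro i hi
    rcases hcase i hi with ⟨h3, h4, -⟩ | ⟨-, h4, -⟩
    · rw [h4]; exact hr1 _
    · rw [h4]
  have hb0 : ∀ i ≤ l, 0 ≤ bb i ∧ bb i ≤ 1 := by
    intro i hi
    rcases hcase i hi with ⟨h3, -, h4⟩ | ⟨-, -, h4⟩
    · rw [h4]; norm_num
    · rw [h4]; norm_num
  have hsys : Pool.Agent.Y848.UG.Sys l aa bb := by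
    refine ⟨has, hbs, ha1, ?_, ?_⟩
    · rintro i hi i' hi' hne ⟨he1, he2⟩
      rcases hcase i hi with ⟨h3, h4, h5⟩ | ⟨h3, h4, h5⟩ <;> rcases hcase i' hi' with ⟨h6, h7, h8⟩ | ⟨h6, h7, h8⟩
      · rw [h4, h7] at he1
        have h9 := hinj he1
        rw [Fin.mk.injEq] at h9
        exact hne h9
      · rw [h5, h8] at he2
        omega
      · rw [h5, h8] at he2
        omega
      · omega
    · intro p hp
      obtain ⟨n, h3, h4⟩ := hadm p hp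
      refine ⟨n, fun i hi hd => ?_⟩
      rcases hcase i hi with ⟨h5, h6, h7⟩ | ⟨h5, h6, h7⟩
      · rw [h6, h7] at hd
        apply h4 ⟨i, h5⟩
        have : ((r ⟨i, h5⟩ : ℤ) * (n : ℤ) + 1) = ((n * r ⟨i, h5⟩ + 1 : ℕ) : ℤ) := by push_cast; ring
        rw [this] at hd
        exact Int.natCast_dvd_natCast.1 hd
      · rw [h6, h7] at hd
        apply h3
        have : (p : ℤ) ∣ (n : ℤ) := by
          push_cast at hd
          rwa [one_mul, add_zero] at hd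
        exact Int.natCast_dvd_natCast.1 this
  have hxE : (1 : ℝ) ≤ (x : ℝ) ^ E := one_le_pow₀ hxr.le
  obtain ⟨P, S, hP1, hP2, hS1, hS2, hsh⟩ := h1 x hx0 aa bb L hsys
    (fun i hi => by
      rcases hcase i hi with ⟨h3, h4, -⟩ | ⟨-, h4, -⟩
      · rw [h4]; exact_mod_cast hr _
      · rw [h4]; push_cast; exact hxE)
    (fun i hi => by
      obtain ⟨h3, h4⟩ := hb0 i hi
      have h5 : |(bb i : ℝ)| ≤ 1 := by
        rw [abs_le]
        constructor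
        · have : (0 : ℝ) ≤ bb i := by exact_mod_cast h3
          linarith
        · exact_mod_cast h4
      linarith)
    hL2 hL1
    (by
      right
      intro i hi _
      left
      rw [hbl i hi]
      norm_num)
    (fun i hi n hn1 hn2 => by
      have h3 := (hb0 i hi).1
      have h4 : (1 : ℤ) ≤ (aa i : ℤ) * n := by
        have : 1 ≤ aa i * n := Nat.mul_pos (ha1 i hi) (by omega)
        exact_mod_cast this
      linarith)
    (fun i hi i' hi' hne u t ht1 htx htW hut htu => by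
      have h6 := Nat.le_of_dvd (by omega) htW
      have hu2 : (2 : ℤ) ≤ u := by
        have : 2 ≤ u := by omega
        exact_mod_cast this
      have h7 : (1 : ℤ) ≤ aa i := by exact_mod_cast ha1 i hi
      have h8 : (1 : ℤ) ≤ aa i' := by exact_mod_cast ha1 i' hi'
      obtain ⟨h9, h10⟩ := hb0 i hi
      obtain ⟨h11, h12⟩ := hb0 i' hi'
      have h13 : (aa i : ℤ) * aa i' * 2 ≤ (aa i : ℤ) * aa i' * u := mul_le_mul_of_nonneg_left hu2 (by positivity)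
      have h14 : (aa i' : ℤ) * bb i ≤ aa i' * 1 := mul_le_mul_of_nonneg_left h10 (by positivity)
      have h15 : 0 ≤ (aa i : ℤ) * bb i' := mul_nonneg (by positivity) h11
      have h16 : (1 : ℤ) * aa i' ≤ aa i * aa i' := mul_le_mul_of_nonneg_right h7 (by positivity)
      intro h17
      nlinarith)
  refine ⟨P, S, hP1, hP2, hS1, fun n hn => ?_, fun S' hS' hS'c b hb hb1 hb2 => ?_⟩
  · obtain ⟨h7, h8⟩ := hS2 n hn
    refine ⟨fun t ht1 ht2 => h7 t ht1 (by rw [hL]; exact Nat.le_floor ht2), fun t ht => ?_⟩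
    obtain ⟨h9, h10⟩ := h8 t ht
    refine ⟨h9, fun j q hq hd => ?_⟩
    apply h10 j j.2 q hq
    rw [hal j j.2, hbl j j.2]
    have h13 : (q : ℤ) ∣ (((n + t) * r j + 1 : ℕ) : ℤ) := Int.natCast_dvd_natCast.2 hd
    push_cast at h13 ⊢
    rw [mul_comm]
    exact h13
  · obtain ⟨D', hD1, hD2⟩ := hsh S' hS' hS'c b hb hb1 (fun l => by
        refine (hb2 l).trans ?_
        rw [le_div_iff₀ (by positivity), ← Real.rpow_natCast ((x : ℝ) ^ (δ / 8)), ← Real.rpow_mul (by linarith),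
          ← Real.rpow_add (by linarith)]
        nth_rewrite 2 [← Real.rpow_one (x : ℝ)]
        apply Real.rpow_le_rpow_of_exponent_le hxr.le
        push_cast
        linarith)
    refine toFil _ D' hD1 le_rfl (fun e he => ?_)
    obtain ⟨h3, h4, h5⟩ := hD2 e he
    refine ⟨h3, h4, h5.trans ?_⟩
    apply Nat.cast_le.2
    apply card_le_card
    intro n hn
    unfold solN at hn
    rw [mem_filter] at hn ⊢
    refine ⟨hn.1, fun i => ?_⟩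
    have := hn.2 i
    rwa [mul_right_comm] at this

end Pool.Agent.H534.RT
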