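import Pool.Agent.H534.RS.EngP

/-!
# A general form of the engine, part A: the systems, the fundamental lemma and the sieve products
(adapted from `Y852/RSZ/C1.lean`, `Y814/RSZ/Mj4.lean`, `Y677/RSZ/Eng1.lean`)
-/

set_option autoImplicit false

open Finset

namespace Pool.Agent.H534.RT

open Pool.Agent.TH423.SH Pool.Agent.TH423.SH.FLIP
open Pool.Agent.Y677.RSZ hiding Sys V_pos fac_pos V_lower fac_nonneg fac_le V_le_one V_split
open Pool.Agent.Y852.RSZ (per_dvd OmC card_one_le)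

/-- the systems: periodic modulo every prime, with few roots -/
structure Sys0 (g : ℕ) (F : ℤ → ℤ) : Prop where
  per : ∀ p : ℕ, p.Prime → ∀ n : ℤ, (p : ℤ) ∣ F (n + p) - F n
  root : ∀ p : ℕ, p.Prime → rt F p ≤ g ∧ rt F p < p

/-- the systems of size `H` with a modulus `W`: the differences which are multiples of `W` have few collisions -/
structure SysU (g H W : ℕ) (F : ℤ → ℤ) : Prop extends Sys0 g F where
  coll : ∃ Δ : ℕ → ℕ, ∀ h : ℕ, 1 ≤ h → h ≤ H → W ∣ h → 1 ≤ Δ h ∧ Δ h ≤ H ^ g ∧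
    ∀ p : ℕ, p.Prime → ∀ n : ℤ, (p : ℤ) ∣ F n → (p : ℤ) ∣ F (n + h) → p ∣ Δ h

theorem Sys0.mono {g g' : ℕ} {F : ℤ → ℤ} (h : Sys0 g F) (hg : g ≤ g') : Sys0 g' F :=
  ⟨h.per, fun p hp => ⟨(h.root p hp).1.trans hg, (h.root p hp).2⟩⟩

theorem SysU.mono {g g' H W : ℕ} {F : ℤ → ℤ} (h : SysU g H W F) (hg : g ≤ g') (hH : 1 ≤ H) : SysU g' H W F := by
  refine ⟨h.toSys0.mono hg, ?_⟩
  obtain ⟨Δ, hΔ⟩ := h.coll
  exact ⟨Δ, fun x h1 h2 h3 => ⟨(hΔ x h1 h2 h3).1, (hΔ x h1 h2 h3).2.1.trans (Nat.pow_le_pow_right hH hg),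
    (hΔ x h1 h2 h3).2.2⟩⟩

open Classical in
/-- (C1) the fundamental lemma for the numbers `F (W (K + t_i) + b)`, `K` in a class modulo `D` -/
def S_C1' : Prop := ∃ C : ℕ, 1 ≤ C ∧ ∀ g m b₀ W : ℕ, C * (g * m + 1) ≤ b₀ → 1 ≤ W →
  (∀ p : ℕ, p.Prime → p ≤ C * (g * m + 1) → p ∣ W) → ∀ F : ℤ → ℤ, Sys0 g F →
  ∀ (t : Fin m → ℕ) (b J D a M L : ℕ), 1 ≤ D → (∀ p ∈ PS W (2 ^ 2 ^ J), ¬ p ∣ D) →
  |(((Ioc M (M + L)).filter (fun K => K % D = a % D ∧
      ∀ p ∈ PS W (2 ^ 2 ^ J), ∀ i, ¬ (p : ℤ) ∣ F ((W * (K + t i) + b : ℕ) : ℤ))).card : ℝ) -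
    (L : ℝ) / D * ∏ p ∈ PS W (2 ^ 2 ^ J), (1 - (rhoT F W b t p : ℝ) / p)| ≤
    (1 / 2 : ℝ) ^ b₀ * ((L : ℝ) / D * ∏ p ∈ PS W (2 ^ 2 ^ J), (1 - (rhoT F W b t p : ℝ) / p)) +
      ((2 : ℝ) ^ 2 ^ J) ^ (C * b₀)

theorem card_OmC_le {g : ℕ} {F : ℤ → ℤ} (hF : Sys0 g F) (W b : ℕ) {m : ℕ} (t : Fin m → ℕ) {p : ℕ}
    (hp : p.Prime) (hW : ¬ p ∣ W) : (OmC F W b t p).card ≤ g * m := by
  classical
  have h1 : OmC F W b t p ⊆ univ.biUnion (fun i : Fin m =>
      (range p).filter (fun r : ℕ => (p : ℤ) ∣ F ((W * (r + t i) + b : ℕ) : ℤ))) := by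
    intro r hr
    unfold OmC at hr
    rw [mem_filter] at hr
    obtain ⟨hr1, i, hi⟩ := hr
    rw [mem_biUnion]
    exact ⟨i, mem_univ i, mem_filter.2 ⟨hr1, hi⟩⟩
  refine (card_le_card h1).trans (card_biUnion_le.trans ?_)
  have h2 : ∀ i ∈ (univ : Finset (Fin m)),
      ((range p).filter (fun r : ℕ => (p : ℤ) ∣ F ((W * (r + t i) + b : ℕ) : ℤ))).card ≤ g :=
    fun i _ => (card_one_le hp (hF.per p hp) W b (t i) hW).trans (hF.root p hp).1
  calc ∑ i : Fin m, ((range p).filter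
        (fun r : ℕ => (p : ℤ) ∣ F ((W * (r + t i) + b : ℕ) : ℤ))).card
      ≤ ∑ _i : Fin m, g := sum_le_sum h2
    _ = g * m := by simp [mul_comm]

theorem mod_OmC {g : ℕ} {F : ℤ → ℤ} (hF : Sys0 g F) (W b : ℕ) {m : ℕ} (t : Fin m → ℕ) {p : ℕ}
    (hp : p.Prime) (K : ℕ) :
    K % p ∉ OmC F W b t p ↔ ∀ i, ¬ (p : ℤ) ∣ F ((W * (K + t i) + b : ℕ) : ℤ) := by
  unfold OmC
  rw [mem_filter, mem_range]
  have h1 : K % p < p := Nat.mod_lt _ hp.pos
  simp only [h1, true_and, not_exists]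
  refine forall_congr' fun i => not_congr ?_
  have h2 : W * (K % p + t i) + b ≡ W * (K + t i) + b [MOD p] := by
    refine Nat.ModEq.add_right b ?_
    exact ((Nat.mod_modEq K p).add_right (t i)).mul_left W
  exact per_dvd (hF.per p hp) (Nat.modEq_iff_dvd.1 h2.symm)

theorem c1' : S_C1' := by
  classical
  obtain ⟨C0, hC0, hF⟩ := fll
  refine ⟨2 * C0 + 4, by omega, ?_⟩
  intro g m b W hb hW hWp F hSys t b' J q a M L hq hPq
  set κ := g * m with hκ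
  set P := PS W (2 ^ 2 ^ J) with hP
  have hPmem0 : ∀ p ∈ P, ¬ p ∣ W := by
    intro p hp
    rw [hP, PS, mem_filter, mem_Icc] at hp
    exact hp.2.2
  have hPmem : ∀ p ∈ P, p.Prime ∧ (2 * C0 + 4) * (κ + 1) < p ∧ p ≤ 2 ^ 2 ^ J := by
    intro p hp
    rw [hP, PS, mem_filter, mem_Icc] at hp
    refine ⟨hp.2.1, ?_, hp.1.2⟩
    by_contra hcon
    exact hp.2.2 (hWp p hp.2.1 (not_lt.1 hcon))
  have hOm : ∀ p ∈ P, (OmC F W b' t p).card ≤ κ ∧ ∀ c ∈ OmC F W b' t p, c < p := by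
    intro p hp
    refine ⟨card_OmC_le hSys W b' t (hPmem p hp).1 (hPmem0 p hp), ?_⟩
    intro c hc
    unfold OmC at hc
    exact mem_range.1 (mem_filter.1 hc).1
  have hC : C0 * (κ + 1) ≤ (2 * C0 + 4) * (κ + 1) := Nat.mul_le_mul_right _ (by omega)
  have hq' : (0 : ℝ) < q := by exact_mod_cast hq
  have hA : 0 ≤ (L : ℝ) / q := div_nonneg (Nat.cast_nonneg L) hq'.le
  have h1 := hF κ b J ((2 * C0 + 4) * (κ + 1)) P (fun p => 1 / (p : ℝ)) (OmC F W b' t)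
    (hC.trans hb) hC hPmem (fun p hp => (hOm p hp).1)
    (by
      intro p hp
      have hp2 : (2 : ℝ) ≤ p := by exact_mod_cast (hPmem p hp).1.two_le
      refine ⟨by positivity, ?_⟩
      apply one_div_le_one_div_of_le (by linarith)
      linarith)
    ((Ioc M (M + L)).filter (fun n => n % q = a % q)) (fun _ => 1) ((L : ℝ) / q) (fun _ => 1)
    (fun _ _ => zero_le_one) hA (fun _ => zero_le_one)
    (by
      intro T hT _ c hc
      obtain ⟨r, hr⟩ := crt_set q a c T (fun p hp => ⟨(hPmem p (hT hp)).1, hPq p (hT hp)⟩)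
        (fun p hp => (hOm p (hT hp)).2 _ (hc p hp))
      rw [sum_const, nsmul_eq_mul, mul_one, filter_filter]
      have e1 : (Ioc M (M + L)).filter (fun n => n % q = a % q ∧ ∀ p ∈ T, n % p = c p) =
          (Ioc M (M + L)).filter (fun n => n ≡ r [MOD q * ∏ p ∈ T, p]) :=
        filter_congr fun n _ => hr n
      have hpos : 0 < q * ∏ p ∈ T, p :=
        Nat.mul_pos hq (Finset.prod_pos fun p hp => (hPmem p (hT hp)).1.pos)
      have h2 := cnt_Ioc M (M + L) (q * ∏ p ∈ T, p) r (by omega) hpos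
      rw [e1]
      have e2 : (((M + L : ℕ) : ℝ) - M) / ((q * ∏ p ∈ T, p : ℕ) : ℝ) =
          (L : ℝ) / q * ∏ p ∈ T, 1 / (p : ℝ) := by
        push_cast
        rw [← div_div, div_eq_mul_inv _ (∏ p ∈ T, (p : ℝ)), ← prod_inv_distrib,
          show ((M : ℝ) + L - M) = L by ring]
        simp only [one_div]
      rw [e2] at h2
      exact h2)
  have e3 : ∏ p ∈ P, (1 - ((OmC F W b' t p).card : ℝ) * (1 / (p : ℝ))) =
      ∏ p ∈ P, (1 - (rhoT F W b' t p : ℝ) / p) := by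
    apply prod_congr rfl
    intro p _
    rw [mul_one_div]
    unfold OmC rhoT
    rfl
  rw [e3, sum_const, nsmul_eq_mul, mul_one, filter_filter] at h1
  have e4 : (Ioc M (M + L)).filter (fun n => n % q = a % q ∧ ∀ p ∈ P, n % p ∉ OmC F W b' t p) =
      (Ioc M (M + L)).filter (fun K => K % q = a % q ∧
        ∀ p ∈ P, ∀ i, ¬ (p : ℤ) ∣ F ((W * (K + t i) + b' : ℕ) : ℤ)) := by
    refine filter_congr fun n _ => ?_
    refine and_congr Iff.rfl ?_
    constructor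
    · intro h p hp
      exact (mod_OmC hSys W b' t (hPmem p hp).1 n).1 (h p hp)
    · intro h p hp
      exact (mod_OmC hSys W b' t (hPmem p hp).1 n).2 (h p hp)
  rw [e4] at h1
  set Y : ℕ := (2 ^ 2 ^ J) ^ (C0 * b) with hY
  suffices hs : ((J : ℝ) + 2) * ∑ T ∈ P.powerset.filter (fun T : Finset ℕ => ∏ p ∈ T, p ≤ Y),
      (κ : ℝ) ^ T.card * 1 ≤ ((2 : ℝ) ^ 2 ^ J) ^ ((2 * C0 + 4) * b) by
    have hgen : ∀ s : Finset ℕ, (∀ K, K ∈ s ↔ (K ∈ Ioc M (M + L) ∧ (K % q = a % q ∧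
        ∀ p ∈ P, ∀ i, ¬ (p : ℤ) ∣ F ((W * (K + t i) + b' : ℕ) : ℤ)))) →
        |(s.card : ℝ) - (L : ℝ) / q * ∏ p ∈ P, (1 - (rhoT F W b' t p : ℝ) / p)| ≤
          (1 / 2 : ℝ) ^ b * ((L : ℝ) / q * ∏ p ∈ P, (1 - (rhoT F W b' t p : ℝ) / p)) +
            ((2 : ℝ) ^ 2 ^ J) ^ ((2 * C0 + 4) * b) := by
      intro s hs'
      have e5 : s = (Ioc M (M + L)).filter (fun K => K % q = a % q ∧
          ∀ p ∈ P, ∀ i, ¬ (p : ℤ) ∣ F ((W * (K + t i) + b' : ℕ) : ℤ)) := by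
        ext K
        rw [hs' K, mem_filter]
      rw [e5]
      exact h1.trans (add_le_add le_rfl hs)
    refine hgen _ (fun K => ?_)
    simp only [mem_filter]
  have hterm : ∀ T ∈ P.powerset.filter (fun T : Finset ℕ => ∏ p ∈ T, p ≤ Y),
      ((κ : ℝ) ^ T.card * 1) ≤ (Y : ℝ) := by
    intro T hT
    rw [mem_filter, mem_powerset] at hT
    rw [mul_one]
    have h2 : κ ^ T.card ≤ ∏ p ∈ T, p := by
      rw [← prod_const]
      apply prod_le_prod'
      intro p hp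
      have h3 := (hPmem p (hT.1 hp)).2.1
      have h4 : κ + 1 ≤ (2 * C0 + 4) * (κ + 1) := Nat.le_mul_of_pos_left _ (by omega)
      omega
    exact_mod_cast h2.trans hT.2
  have hJ : (J : ℝ) + 2 ≤ ((2 : ℝ) ^ 2 ^ J) ^ 2 := by
    have h2 : J + 2 ≤ (2 ^ 2 ^ J) ^ 2 := by
      have h3 : J < 2 ^ J := Nat.lt_two_pow_self
      have h4 : 2 ^ J < 2 ^ 2 ^ J := Nat.lt_two_pow_self
      have h5 : 2 ≤ 2 ^ 2 ^ J := by
        calc 2 = 2 ^ 1 := rfl
          _ ≤ 2 ^ 2 ^ J := Nat.pow_le_pow_right (by norm_num) (Nat.one_le_two_pow)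
      nlinarith
    exact_mod_cast h2
  have hb4 : 4 ≤ 4 * b := by
    have : 1 ≤ (2 * C0 + 4) * (κ + 1) := Nat.mul_pos (by omega) (by omega)
    omega
  have hone : (1 : ℝ) ≤ (2 : ℝ) ^ 2 ^ J := one_le_pow₀ (by norm_num)
  calc ((J : ℝ) + 2) * ∑ T ∈ P.powerset.filter (fun T : Finset ℕ => ∏ p ∈ T, p ≤ Y),
        (κ : ℝ) ^ T.card * 1
      ≤ ((J : ℝ) + 2) * ((Y : ℝ) ^ 2) := by
        apply mul_le_mul_of_nonneg_left _ (by positivity)
        calc ∑ T ∈ P.powerset.filter (fun T : Finset ℕ => ∏ p ∈ T, p ≤ Y), (κ : ℝ) ^ T.card * 1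
            ≤ ∑ _T ∈ P.powerset.filter (fun T : Finset ℕ => ∏ p ∈ T, p ≤ Y), (Y : ℝ) :=
              sum_le_sum hterm
          _ = ((P.powerset.filter (fun T : Finset ℕ => ∏ p ∈ T, p ≤ Y)).card : ℝ) * Y := by
              rw [sum_const, nsmul_eq_mul]
          _ ≤ (Y : ℝ) * Y := by
              apply mul_le_mul_of_nonneg_right _ (by positivity)
              exact_mod_cast Pool.Agent.TH423.SH.FLIP.card_le P (fun p hp => (hPmem p hp).1) Y
          _ = (Y : ℝ) ^ 2 := by ring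
    _ ≤ ((2 : ℝ) ^ 2 ^ J) ^ 2 * (Y : ℝ) ^ 2 := by
        apply mul_le_mul_of_nonneg_right hJ (by positivity)
    _ = ((2 : ℝ) ^ 2 ^ J) ^ (2 + 2 * (C0 * b)) := by
        rw [hY]
        push_cast
        rw [pow_add, mul_comm 2 (C0 * b), pow_mul _ (C0 * b) 2]
    _ ≤ ((2 : ℝ) ^ 2 ^ J) ^ ((2 * C0 + 4) * b) := by
        apply pow_le_pow_right₀ hone
        have : (2 * C0 + 4) * b = 2 * (C0 * b) + 4 * b := by ring
        omega

theorem V_pos {g : ℕ} {F : ℤ → ℤ} (hS : Sys0 g F) (W z : ℕ) : 0 < V F W z := by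
  unfold V
  apply prod_pos
  intro p hp
  rw [Pool.Agent.Y814.RSZ.mem_PS] at hp
  exact Pool.Agent.Y814.RSZ.fac_pos _ _ (hS.root p hp.2.1).2

theorem PR_pos {g : ℕ} {F : ℤ → ℤ} (hS : Sys0 g F) (z R : ℕ) : 0 < PR (rt F) z R := by
  unfold PR
  apply prod_pos
  intro p hp
  rw [mem_filter] at hp
  exact Pool.Agent.Y814.RSZ.fac_pos _ _ (hS.root p hp.2).2

/-- a lower bound for a partial product -/
theorem prod_low {g : ℕ} {F : ℤ → ℤ} (hS : Sys0 g F) (R : ℕ) (S : Finset ℕ)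
    (hsub : S ⊆ PS (2 * (g + 1)).factorial R) :
    PIj (2 * (g + 1)).factorial R g ≤ ∏ p ∈ S, (1 - (rt F p : ℝ) / p) := by
  have hf : ∀ p ∈ PS (2 * (g + 1)).factorial R, 0 < 1 - (g : ℝ) / (p : ℝ) := by
    intro p hp
    rw [Pool.Agent.Y814.RSZ.mem_PS] at hp
    apply Pool.Agent.Y814.RSZ.fac_pos
    by_contra h
    exact hp.2.2 ((Nat.Prime.dvd_factorial hp.2.1).2 (by omega))
  unfold PIj
  rw [← prod_sdiff hsub]
  have h1 : ∏ p ∈ PS (2 * (g + 1)).factorial R \ S, (1 - (g : ℝ) / (p : ℝ)) ≤ 1 :=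
    prod_le_one (fun p hp => (hf p (mem_sdiff.1 hp).1).le) (fun p _ => Pool.Agent.Y814.RSZ.fac_le_one _ _)
  have h2 : ∏ p ∈ S, (1 - (g : ℝ) / (p : ℝ)) ≤ ∏ p ∈ S, (1 - (rt F p : ℝ) / p) := by
    apply prod_le_prod
    · intro p hp
      exact (hf p (hsub hp)).le
    · intro p hp
      have hp2 := (Pool.Agent.Y814.RSZ.mem_PS.1 (hsub hp)).2.1
      have : (rt F p : ℝ) ≤ g := by exact_mod_cast (hS.root p hp2).1
      have hp0 : (0 : ℝ) < p := by exact_mod_cast hp2.pos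
      gcongr
  have h3 : 0 ≤ ∏ p ∈ S, (1 - (g : ℝ) / (p : ℝ)) := prod_nonneg fun p hp => (hf p (hsub hp)).le
  exact (mul_le_of_le_one_left h3 h1).trans h2

theorem V_low {g : ℕ} {F : ℤ → ℤ} (hS : Sys0 g F) (W z : ℕ)
    (hW : ∀ p : ℕ, p.Prime → p ≤ 2 * (g + 1) → p ∣ W) :
    PIj (2 * (g + 1)).factorial z g ≤ V F W z := by
  unfold V
  apply prod_low hS
  intro p hp
  rw [Pool.Agent.Y814.RSZ.mem_PS] at hp ⊢
  refine ⟨hp.1, hp.2.1, fun h => hp.2.2 (hW p hp.2.1 ((Nat.Prime.dvd_factorial hp.2.1).1 h))⟩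

theorem PR_low {g : ℕ} {F : ℤ → ℤ} (hS : Sys0 g F) (z R : ℕ) (hz : 2 * (g + 1) ≤ z) :
    PIj (2 * (g + 1)).factorial R g ≤ PR (rt F) z R := by
  unfold PR
  apply prod_low hS
  intro p hp
  rw [mem_filter, mem_Ioc] at hp
  rw [Pool.Agent.Y814.RSZ.mem_PS]
  refine ⟨⟨by omega, hp.1.2⟩, hp.2, fun h => ?_⟩
  have := (Nat.Prime.dvd_factorial hp.2).1 h
  omega

theorem PR_mer {g : ℕ} {F : ℤ → ℤ} (hS : Sys0 g F) (R H : ℕ) (hR : 2 * g + 2 ≤ R) (c : ℝ)
    (h : c ≤ ∏ p ∈ (Ioc R H).filter Nat.Prime, (1 - (g : ℝ) / p)) : c ≤ PR (rt F) R H := by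
  refine h.trans ?_
  unfold PR
  apply prod_le_prod
  · intro p hp
    rw [mem_filter, mem_Ioc] at hp
    exact (Pool.Agent.Y814.RSZ.fac_pos g p (by omega)).le
  · intro p hp
    rw [mem_filter] at hp
    have : (rt F p : ℝ) ≤ g := by exact_mod_cast (hS.root p hp.2).1
    have hp0 : (0 : ℝ) < p := by exact_mod_cast hp.2.pos
    gcongr

/-- a lower bound for the sieve product -/
theorem V_lower : ∃ K : ℝ, 1 ≤ K ∧ ∀ (g : ℕ) (F : ℤ → ℤ) (W H : ℕ), Sys0 g F → 2 ≤ H →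
    (∀ p : ℕ, p.Prime → p ≤ 2 * g + 2 → p ∣ W) → 1 / (K * Real.log H) ^ (2 * g) ≤ V F W H := by
  obtain ⟨K, hK, hV⟩ := Pool.Agent.Y674.PSP.VV_le
  refine ⟨max K 1 * (1 / Real.log 2), ?_, fun g F W H hF hH hW => ?_⟩
  · have h2 : 0 < Real.log 2 := Real.log_pos (by norm_num)
    have h3 : Real.log 2 ≤ 1 := by linarith [Real.log_two_lt_d9]
    have h4 : 1 ≤ 1 / Real.log 2 := by rw [le_div_iff₀ h2]; linarith
    have h5 : 1 ≤ max K 1 := le_max_right _ _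
    nlinarith
  have hlog2 : 0 < Real.log 2 := Real.log_pos (by norm_num)
  have hlogH : Real.log 2 ≤ Real.log H := Real.log_le_log (by norm_num) (by exact_mod_cast hH)
  have h1 := hV H hH
  have hVV0 : 0 < Pool.Agent.Y674.PSP.VV H := by
    unfold Pool.Agent.Y674.PSP.VV
    apply prod_pos
    intro p hp
    rw [mem_filter] at hp
    have h2 : (1 : ℝ) < p := by exact_mod_cast hp.2.one_lt
    have h3 : (p : ℝ)⁻¹ < 1 := inv_lt_one_of_one_lt₀ h2
    have : 0 < 1 - (p : ℝ)⁻¹ := by linarith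
    positivity
  have hmax : Pool.Agent.Y674.PSP.VV H ≤ max K 1 * (1 / Real.log 2) * Real.log H := by
    refine h1.trans ?_
    have h4 : 1 ≤ 1 / Real.log 2 := by
      rw [le_div_iff₀ hlog2]; linarith [Real.log_two_lt_d9]
    have h5 : K ≤ max K 1 := le_max_left _ _
    have h6 : (0 : ℝ) < max K 1 := lt_of_lt_of_le one_pos (le_max_right _ _)
    have h7 : K ≤ max K 1 * (1 / Real.log 2) := by nlinarith
    exact mul_le_mul_of_nonneg_right h7 (by linarith)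
  calc 1 / (max K 1 * (1 / Real.log 2) * Real.log H) ^ (2 * g) ≤
      1 / (Pool.Agent.Y674.PSP.VV H) ^ (2 * g) := by
        apply one_div_le_one_div_of_le (by positivity)
        exact pow_le_pow_left₀ hVV0.le hmax _
    _ = ∏ p ∈ (Icc 1 H).filter Nat.Prime, (1 - (p : ℝ)⁻¹) ^ (2 * g) := by
        unfold Pool.Agent.Y674.PSP.VV
        rw [prod_pow, one_div, ← inv_pow, ← prod_inv_distrib]
        simp only [inv_inv]
    _ ≤ ∏ p ∈ PS W H, (1 - (p : ℝ)⁻¹) ^ (2 * g) := by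
        have hsub : PS W H ⊆ (Icc 1 H).filter Nat.Prime := by
          intro p hp
          unfold PS at hp
          rw [mem_filter] at hp ⊢
          exact ⟨hp.1, hp.2.1⟩
        have hall : ∀ p ∈ (Icc 1 H).filter Nat.Prime, 0 ≤ (1 - (p : ℝ)⁻¹) ^ (2 * g) ∧
            (1 - (p : ℝ)⁻¹) ^ (2 * g) ≤ 1 := by
          intro p hp
          rw [mem_filter] at hp
          have h2 : (1 : ℝ) < p := by exact_mod_cast hp.2.one_lt
          have h3 : (p : ℝ)⁻¹ < 1 := inv_lt_one_of_one_lt₀ h2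
          have h4 : 0 < (p : ℝ)⁻¹ := by positivity
          exact ⟨pow_nonneg (by linarith) _, pow_le_one₀ (by linarith) (by linarith)⟩
        rw [← prod_sdiff hsub]
        apply mul_le_of_le_one_left
        · exact prod_nonneg fun p hp => (hall p (hsub hp)).1
        · exact prod_le_one (fun p hp => (hall p (mem_sdiff.1 hp).1).1)
            (fun p hp => (hall p (mem_sdiff.1 hp).1).2)
    _ ≤ V F W H := by
        unfold V
        apply prod_le_prod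
        · intro p hp
          unfold PS at hp
          rw [mem_filter] at hp
          have h2 : (1 : ℝ) < p := by exact_mod_cast hp.2.1.one_lt
          have h3 : (p : ℝ)⁻¹ < 1 := inv_lt_one_of_one_lt₀ h2
          have : 0 ≤ 1 - (p : ℝ)⁻¹ := by linarith
          positivity
        · intro p hp
          unfold PS at hp
          rw [mem_filter] at hp
          have hpg : 2 * g + 2 < p := by
            by_contra hcon
            exact hp.2.2 (hW p hp.2.1 (by omega))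
          have hp0 : (0 : ℝ) < p := by exact_mod_cast hp.2.1.pos
          have hpg' : (2 : ℝ) * g + 2 ≤ p := by exact_mod_cast hpg.le
          have hr : (rt F p : ℝ) ≤ g := by exact_mod_cast (hF.root p hp.2.1).1
          have hx : (p : ℝ)⁻¹ * (2 * g + 2) ≤ 1 := by
            rw [inv_mul_le_iff₀ hp0]; linarith
          have hx0 : 0 < (p : ℝ)⁻¹ := by positivity
          have h5 : (1 - (p : ℝ)⁻¹) ^ (2 * g) ≤ 1 - g * (p : ℝ)⁻¹ := by
            have hg0 := (Nat.cast_nonneg g : (0 : ℝ) ≤ g)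
            have hx1 : (p : ℝ)⁻¹ ≤ 1 := by nlinarith
            have h6 : 1 + ((2 * g : ℕ) : ℝ) * (p : ℝ)⁻¹ ≤ (1 + (p : ℝ)⁻¹) ^ (2 * g) :=
              one_add_mul_le_pow (by linarith) _
            push_cast at h6
            have h8 : (1 - (p : ℝ)⁻¹) ^ (2 * g) * (1 + (p : ℝ)⁻¹) ^ (2 * g) ≤ 1 := by
              rw [← mul_pow]
              apply pow_le_one₀
              · nlinarith
              · nlinarith
            have h9 : 0 ≤ (1 - (p : ℝ)⁻¹) ^ (2 * g) := pow_nonneg (by linarith) _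
            have h10 : (1 - (p : ℝ)⁻¹) ^ (2 * g) * (1 + 2 * g * (p : ℝ)⁻¹) ≤ 1 :=
              (mul_le_mul_of_nonneg_left h6 h9).trans h8
            have h11 : 1 ≤ (1 - g * (p : ℝ)⁻¹) * (1 + 2 * g * (p : ℝ)⁻¹) := by
              have h12 : 0 ≤ (g : ℝ) * (p : ℝ)⁻¹ := by positivity
              nlinarith
            have h13 : 0 < 1 + 2 * g * (p : ℝ)⁻¹ := by positivity
            exact le_of_mul_le_mul_right (h10.trans h11) h13
          have h7 : (rt F p : ℝ) / p ≤ g * (p : ℝ)⁻¹ := by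
            rw [div_eq_mul_inv]
            exact mul_le_mul_of_nonneg_right hr hx0.le
          linarith


end Pool.Agent.H534.RT
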