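import Pool.Agent.H534.RT.Uni
import Pool.Graph.R_pool_sql_team_seeded_3997aac3.Q236.GW.RegGl

/-!
# Pairs `n`, `d n + a` of almost primes: every shape, uniformly in `a` and `d`
-/

set_option autoImplicit false

open Finset Filter Polynomial

namespace Pool.Agent.H534.RT

open Pool.Agent.H534.RS hiding majW classes engP
open Pool.Agent.W123.RP Pool.Agent.H373R2.T7 Pool.Agent.W123.RU Pool.Agent.W123.RU.Poly
open Pool.Agent.Y879.GL (US us_adm)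
open Pool.Agent.Q236.GW (gl gl_us gl_V gl_Q SG VG VG_formula SG_formula Cz Cz_low Cz_anti C2 C2_low VGX_order)

lemma Cz_le_one (z : ℕ) : Cz z ≤ 1 := by
  have h := Cz_anti (Nat.zero_le z)
  have h0 : Cz 0 = 1 := by
    unfold Pool.Agent.Q236.GW.Cz
    simp
  rwa [h0] at h

/-- the sieve density at a small level -/
theorem VG_up : ∃ C : ℝ, 0 < C ∧ ∀ (n y : ℕ), Even n → n ≠ 0 → 2 ≤ y → VG n y ≤ C * (SG n / Real.log y ^ 2) := by
  obtain ⟨c, C, hc, hC, h⟩ := Vz_bounds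
  refine ⟨2 * C ^ 2, by positivity, ?_⟩
  intro n y hn hn0 hy
  have hly : 0 < Real.log (y : ℝ) := Real.log_pos (by exact_mod_cast hy)
  have hVz := (h y hy).2
  have hVz0 : 0 ≤ Vz y := (Pool.Agent.H373R2.T7.Vz_pos y).le
  have hC2 := C2_low
  have hbig : ∀ p ∈ n.primeFactors.filter (fun p => 2 < p), (1 : ℝ) ≤ ((p : ℝ) - 1) / ((p : ℝ) - 2) := by
    intro p hp
    have h3 : (3 : ℝ) ≤ p := by
      have := (Finset.mem_filter.1 hp).2
      exact_mod_cast (by omega : 3 ≤ p)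
    rw [one_le_div (by linarith)]
    linarith
  have hsub : n.primeFactors.filter (fun p => 2 < p ∧ p ≤ y) ⊆ n.primeFactors.filter (fun p => 2 < p) := by
    intro p hp
    rw [Finset.mem_filter] at hp ⊢
    exact ⟨hp.1, hp.2.1⟩
  have hP : ∏ p ∈ n.primeFactors.filter (fun p => 2 < p ∧ p ≤ y), ((p : ℝ) - 1) / ((p : ℝ) - 2) ≤ SG n := by
    have h1 : ∏ p ∈ n.primeFactors.filter (fun p => 2 < p ∧ p ≤ y), ((p : ℝ) - 1) / ((p : ℝ) - 2) ≤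
        ∏ p ∈ n.primeFactors.filter (fun p => 2 < p), ((p : ℝ) - 1) / ((p : ℝ) - 2) := by
      rw [← Finset.prod_sdiff hsub]
      apply le_mul_of_one_le_left
      · exact Finset.prod_nonneg fun p hp => zero_le_one.trans (hbig p (hsub hp))
      · have h2 : ∏ p ∈ n.primeFactors.filter (fun p => 2 < p) \ n.primeFactors.filter (fun p => 2 < p ∧ p ≤ y), (1 : ℝ) ≤
            ∏ p ∈ n.primeFactors.filter (fun p => 2 < p) \ n.primeFactors.filter (fun p => 2 < p ∧ p ≤ y),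
              ((p : ℝ) - 1) / ((p : ℝ) - 2) :=
          Finset.prod_le_prod (fun _ _ => zero_le_one) (fun p hp => hbig p (Finset.mem_sdiff.1 hp).1)
        rwa [Finset.prod_const_one] at h2
    refine h1.trans ?_
    unfold Pool.Agent.Q236.GW.SG
    apply le_mul_of_one_le_left _ (by linarith)
    exact Finset.prod_nonneg fun p hp => zero_le_one.trans (hbig p hp)
  have hP0 : 0 ≤ ∏ p ∈ n.primeFactors.filter (fun p => 2 < p ∧ p ≤ y), ((p : ℝ) - 1) / ((p : ℝ) - 2) :=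
    Finset.prod_nonneg fun p hp => zero_le_one.trans (hbig p (hsub hp))
  rw [VG_formula n y hn hn0 hy]
  have hCz0 : 0 ≤ Cz y := by linarith [Cz_low y]
  calc 2 * Vz y ^ 2 * Cz y * ∏ p ∈ n.primeFactors.filter (fun p => 2 < p ∧ p ≤ y), ((p : ℝ) - 1) / ((p : ℝ) - 2) ≤
      2 * (C / Real.log y) ^ 2 * 1 * SG n := by
        have := Cz_le_one y
        gcongr
    _ = _ := by field_simp

lemma gl_ne (a d : ℤ) (n : ℕ) (hn : 0 < n) (h : a + d * n ≠ 0) (i : Fin 2) : (gl a d i).eval (n : ℤ) ≠ 0 := by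
  unfold Pool.Agent.Q236.GW.gl Pool.Agent.Q236.GW.lfs
  rw [Pool.Agent.Y879.GL.lf_eval]
  fin_cases i
  · simp
    omega
  · simp
    intro h1
    apply h
    linarith

lemma gl_dvd (a d : ℤ) (p n : ℕ) (i : Fin 2) (h : (p : ℤ) ∣ (gl a d i).eval (n : ℤ)) :
    (p : ℤ) ∣ (n : ℤ) * (a + d * n) := by
  unfold Pool.Agent.Q236.GW.gl Pool.Agent.Q236.GW.lfs at h
  rw [Pool.Agent.Y879.GL.lf_eval] at h
  fin_cases i
  · simp at h
    exact (Dvd.dvd.mul_right h _)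
  · simp at h
    apply Dvd.dvd.mul_left
    rwa [add_comm]

open Classical in
/-- **Every shape, uniformly in the pair.** -/
theorem pairP (E r : ℕ) (hE : 1 ≤ E) (hr : 1 ≤ r) (δ κ ε : ℝ)
    (hδ : 0 < δ) (hκ : 0 < κ) (hε : 0 < ε) (hε8 : 8 * ε ≤ 1) :
    ∃ c : ℝ, 0 < c ∧ ∃ H₀ : ℕ, ∀ H : ℕ, H₀ ≤ H → ∀ a d : ℤ, IsCoprime a d → Even (a * d) → a ≠ 0 → d ≠ 0 →
    |(a : ℝ)| ≤ (H : ℝ) ^ E → |(d : ℝ)| ≤ (H : ℝ) ^ E → (d = 1 ∨ d = -1 → (H : ℝ) < |(a : ℝ)|) →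
    ∀ (Y : ℕ) (A : Finset ℕ), (Y : ℝ) ≤ (H : ℝ) ^ E →
    (∀ n ∈ Ioc Y (Y + H), a + d * (n : ℤ) ≠ 0) → A ⊆ Ioc Y (Y + H) →
    (∀ n ∈ A, ∀ p : ℕ, p.Prime → (p : ℝ) ≤ (H : ℝ) ^ δ → ¬ (p : ℤ) ∣ (n : ℤ) * (a + d * n)) →
    κ * (SG (a * d).natAbs * (H / Real.log H ^ 2)) ≤ A.card →
    ∀ b : Fin r → ℕ, Function.Injective b → (∀ l, 1 ≤ b l) → (∀ l, (b l : ℝ) ≤ H / ((H : ℝ) ^ ε) ^ 5) →
    ∃ D' : Finset ℕ, c * (H : ℝ) ^ ε ≤ D'.card ∧ ∀ e ∈ D', 1 ≤ e ∧ (e : ℝ) ≤ (H : ℝ) ^ ε ∧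
      c * (SG (a * d).natAbs * (H * Real.log (Real.log H) ^ (2 * r) / Real.log H ^ (2 * (r + 1)))) ≤
        ((solN A (WW ε H) b e).card : ℝ) := by
  obtain ⟨c₁, c₂, hc₁, hc₂, hord⟩ := VGX_order E
  obtain ⟨C, hC, hup⟩ := VG_up
  obtain ⟨c, hc, H₁, hmain⟩ := uniP 2 1 E r hE hr δ (κ / c₂) ε hδ (by positivity) hε hε8
  obtain ⟨H₂, hH₂⟩ := Pool.Agent.H534.UT.num1 ε κ hε hκ 2 0 1 3
  obtain ⟨H₃, hH₃⟩ := eventually_atTop.1 hord
  refine ⟨min c (c * (c₁ ^ (r + 1) / (C * 2 ^ 2) ^ r)), lt_min hc (by positivity), max (max H₁ H₂) H₃, ?_⟩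
  intro H hH a d had hev ha hd haH hdH hU Y A hY hne hA hAr hAc b hb hb1 hb2
  have hH1 : H₁ ≤ H := ((le_max_left _ _).trans (le_max_left _ _)).trans hH
  have hH2 : H₂ ≤ H := ((le_max_right _ _).trans (le_max_left _ _)).trans hH
  have hH3 : H₃ ≤ H := (le_max_right _ _).trans hH
  obtain ⟨n1, n2, n3, n4, n5, n6, n7, n8⟩ := hH₂ H hH2
  have hH16 : (16 : ℝ) ≤ H := by exact_mod_cast n1
  have hH0 : (0 : ℝ) < H := by linarith
  have hlog : 0 < Real.log (H : ℝ) := Real.log_pos (by linarith)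
  have haE : |(a : ℝ)| ≤ (H : ℝ) ^ (E : ℝ) := by rw [Real.rpow_natCast]; exact haH
  have hdE : |(d : ℝ)| ≤ (H : ℝ) ^ (E : ℝ) := by rw [Real.rpow_natCast]; exact hdH
  obtain ⟨o1, o2⟩ := hH₃ H hH3 a d had hev ha hd haE hdE
  have hus : US 2 1 ((H : ℝ) ^ E) H (gl a d) := gl_us a d hd had hev _ _ (one_le_pow₀ (by linarith)) haH hdH hU
  have hus0 : US 2 1 ((H : ℝ) ^ E) 0 (gl a d) := gl_us a d hd had hev _ 0 (one_le_pow₀ (by linarith)) haH hdH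
    (fun h => lt_trans hH0 (hU h))
  have hNT : NT (WW ε H) H (gl a d) := fun i j t ht1 htH _ => hus.tr i j t ht1 (by exact_mod_cast htH)
  obtain ⟨D', hD'c, hD'⟩ := hmain H hH1 (gl a d) hus0 hNT Y A hY
    (fun n hn i => gl_ne a d n (by have := mem_Ioc.1 hn; omega) (hne n hn) i) hA
    (fun n hn i p hp hpH hd => hAr n hn p hp hpH (gl_dvd a d p n i hd))
    (by
      refine le_trans ?_ hAc
      calc κ / c₂ * (H * Vq (Poly.Q (gl a d)) H) ≤ κ / c₂ * (H * (c₂ * (SG (a * d).natAbs / Real.log H ^ 2))) := by gcongr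
        _ = _ := by field_simp)
    b hb hb1 hb2
  refine ⟨D', le_trans ?_ hD'c, ?_⟩
  · gcongr
    exact min_le_left _ _
  intro e he
  obtain ⟨h1, h2, h3⟩ := hD' e he
  refine ⟨h1, h2, le_trans ?_ h3⟩
  obtain ⟨S, hS⟩ : ∃ S, S = SG (a * d).natAbs := ⟨_, rfl⟩
  have hS0 : 0 < S := by rw [hS]; exact Pool.Agent.Q236.GW.SG_pos _
  obtain ⟨v, hv⟩ : ∃ v, v = Vq (Poly.Q (gl a d)) H := ⟨_, rfl⟩
  obtain ⟨w, hw⟩ : ∃ w, w = Vq (Poly.Q (gl a d)) ⌊ε * Real.log H⌋₊ := ⟨_, rfl⟩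
  rw [← hS] at o1
  rw [← hS, ← hv, ← hw]
  rw [← hv] at o1
  have hv0 : 0 < v := lt_of_lt_of_le (by positivity) o1
  have hw0 : 0 < w := by rw [hw]; exact Pool.Agent.TH464.PO.Vq_pos _ (us_adm hus0) _
  have hwup : w ≤ C * 2 ^ 2 * S / Real.log (Real.log H) ^ 2 := by
    have e1 := hup (a * d).natAbs ⌊ε * Real.log H⌋₊ (Int.natAbs_even.2 hev)
      (Int.natAbs_ne_zero.2 (mul_ne_zero ha hd)) (by omega)
    rw [← gl_V a d had, ← hw, ← hS] at e1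
    refine e1.trans ?_
    have e2 : (Real.log (Real.log H) / 2) ^ 2 ≤ Real.log (⌊ε * Real.log H⌋₊ : ℝ) ^ 2 := by gcongr
    calc C * (S / Real.log (⌊ε * Real.log H⌋₊ : ℝ) ^ 2) ≤ C * (S / (Real.log (Real.log H) / 2) ^ 2) := by gcongr
      _ = _ := by rw [div_pow]; field_simp
  have hll : Real.log (Real.log H) ≠ 0 := by linarith
  have hll0 : 0 < Real.log (Real.log H) := by linarith
  have e3 : c₁ ^ (r + 1) / (C * 2 ^ 2) ^ r * (S * (Real.log (Real.log H) ^ (2 * r) / Real.log H ^ (2 * (r + 1)))) ≤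
      v ^ (r + 1) / w ^ r := by
    calc c₁ ^ (r + 1) / (C * 2 ^ 2) ^ r * (S * (Real.log (Real.log H) ^ (2 * r) / Real.log H ^ (2 * (r + 1)))) =
          (c₁ * (S / Real.log H ^ 2)) ^ (r + 1) / (C * 2 ^ 2 * S / Real.log (Real.log H) ^ 2) ^ r := by
            rw [mul_pow c₁, div_pow S, ← pow_mul, div_pow (C * 2 ^ 2 * S), ← pow_mul, mul_pow (C * 2 ^ 2) S, pow_succ S]
            field_simp
      _ ≤ v ^ (r + 1) / w ^ r := by gcongr
  calc min c (c * (c₁ ^ (r + 1) / (C * 2 ^ 2) ^ r)) *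
        (S * (H * Real.log (Real.log H) ^ (2 * r) / Real.log H ^ (2 * (r + 1)))) ≤
        (c * (c₁ ^ (r + 1) / (C * 2 ^ 2) ^ r)) *
        (S * (H * Real.log (Real.log H) ^ (2 * r) / Real.log H ^ (2 * (r + 1)))) := by
          gcongr
          exact min_le_right _ _
    _ = c * (H * (c₁ ^ (r + 1) / (C * 2 ^ 2) ^ r *
        (S * (Real.log (Real.log H) ^ (2 * r) / Real.log H ^ (2 * (r + 1)))))) := by ring
    _ ≤ _ := by gcongr

end Pool.Agent.H534.RT
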