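import Pool.Agent.H534.UT.Miss
import Pool.Graph.R_pool_sql_team_seeded_1acbe0a2.Y677.KP.Apply

/-!
# Explicit numbers of prime factors: the counts
-/

set_option autoImplicit false

open Finset Filter

namespace Pool.Agent.H534.RT

open Pool.Agent.TH977.PW (N)

/-- the primes `p` for which `a p + b` has at most three prime factors, all larger than `p ^ (1 / 5)` -/
def TL (a : ℕ) (b : ℤ) : Set ℕ :=
  {p | p.Prime ∧ (∀ q : ℕ, q.Prime → q ∣ ((a : ℤ) * p + b).toNat → (p : ℝ) ^ (1 / (5 : ℝ)) < (q : ℝ)) ∧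
    ((a : ℤ) * p + b).toNat.primeFactorsList.length ≤ 3}

/-- their number -/
theorem cntL (a : ℕ) (b : ℤ) (ha : 0 < a) (hab : IsCoprime (a : ℤ) b) (hX : ¬ (a = 1 ∧ b = 0))
    (hpos : -2 * (a : ℤ) ≤ b)
    (hadm : ∀ p : ℕ, p.Prime → ∃ m : ℕ, ¬ p ∣ m ∧ ¬ (p : ℤ) ∣ a * (m : ℤ) + b) :
    ∃ κ : ℝ, 0 < κ ∧ ∀ᶠ X : ℕ in atTop, κ * X / Real.log X ^ 2 ≤ N (TL a b) X (2 * X) := by
  have hV : ∀ m : ℕ, 2 ≤ m → a * (m : ℤ) + b = (((a : ℤ) * m + b).toNat : ℤ) := by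
    intro m hm
    rw [Int.toNat_of_nonneg]
    have h1 : (2 : ℤ) ≤ m := by exact_mod_cast hm
    have h2 : (0 : ℤ) < a := by exact_mod_cast ha
    nlinarith
  exact (Pool.Agent.Y677.KP.lin_p a b ha hab hX hadm (fun m => ((a : ℤ) * m + b).toNat) hV
    (fun s => {n | (∀ p : ℕ, p.Prime → p ∣ n → (n : ℝ) ^ (1 / (s : ℝ)) < (p : ℝ)) ∧
      ∀ p : ℕ, p.Prime → p ∣ ((a : ℤ) * n + b).toNat → (n : ℝ) ^ (1 / (s : ℝ)) < (p : ℝ)}) (TL a b)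
    (fun m hm => ⟨fun p hp hd => Pool.Agent.Y677.KP.rough_prime 5 m p (by norm_num) hm.1 hp hd,
      fun p hp hd => by exact_mod_cast hm.2.1 p hp hd⟩)
    (fun s _ m hm => hm)
    (fun m hm _ h2 h3 => ⟨hm, fun q hq hd => by exact_mod_cast h2 q hq hd, h3⟩)).1

/-- the primes `p` for which `a p ^ 2 + b p + c` has at most five prime factors, all larger than
`p ^ (1 / 7)` -/
def TQ (a b c : ℤ) : Set ℕ :=
  {p | p.Prime ∧ (∀ q : ℕ, q.Prime → q ∣ (a * p ^ 2 + b * p + c).toNat → (p : ℝ) ^ (1 / (7 : ℝ)) < (q : ℝ)) ∧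
    (a * p ^ 2 + b * p + c).toNat.primeFactorsList.length ≤ 5}

/-- their number -/
theorem cntQ (a b c : ℤ) (ha : 0 < a)
    (hg : ∀ p : ℕ, p.Prime → ¬ ((p : ℤ) ∣ a ∧ (p : ℤ) ∣ b ∧ (p : ℤ) ∣ c))
    (hD : ¬ IsSquare (b ^ 2 - 4 * a * c))
    (hpos : ∀ m : ℕ, 2 ≤ m → 0 ≤ a * (m : ℤ) ^ 2 + b * m + c)
    (hadm : ∀ p : ℕ, p.Prime → ∃ m : ℕ, ¬ p ∣ m ∧ ¬ (p : ℤ) ∣ a * (m : ℤ) ^ 2 + b * m + c) :
    ∃ κ : ℝ, 0 < κ ∧ ∀ᶠ X : ℕ in atTop, κ * X / Real.log X ^ 2 ≤ N (TQ a b c) X (2 * X) := by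
  have hV : ∀ m : ℕ, 2 ≤ m → a * (m : ℤ) ^ 2 + b * m + c = ((a * (m : ℤ) ^ 2 + b * m + c).toNat : ℤ) := by
    intro m hm
    rw [Int.toNat_of_nonneg (hpos m hm)]
  exact (Pool.Agent.Y677.KP.quad_p a b c ha hg hD hadm (fun m => (a * (m : ℤ) ^ 2 + b * m + c).toNat) hV
    (fun s => {n | (∀ p : ℕ, p.Prime → p ∣ n → (n : ℝ) ^ (1 / (s : ℝ)) < (p : ℝ)) ∧
      ∀ p : ℕ, p.Prime → p ∣ (a * (n : ℤ) ^ 2 + b * n + c).toNat → (n : ℝ) ^ (1 / (s : ℝ)) < (p : ℝ)})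
    (TQ a b c)
    (fun m hm => ⟨fun p hp hd => Pool.Agent.Y677.KP.rough_prime 7 m p (by norm_num) hm.1 hp hd,
      fun p hp hd => by exact_mod_cast hm.2.1 p hp hd⟩)
    (fun s _ m hm => hm)
    (fun m hm _ h2 h3 => ⟨hm, fun q hq hd => by exact_mod_cast h2 q hq hd, h3⟩)).1

end Pool.Agent.H534.RT
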