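import Pool.Agent.H534.RT.GoldB
import Pool.Agent.H534.RT.CluV
import Pool.Graph.R_seed8.W123.RU.Gen

/-!
# Uniform systems: general forms of the theorems
-/

set_option autoImplicit false

open Finset Filter Polynomial

namespace Pool.Agent.H534.RT

open Pool.Agent.H534.RS hiding majW classes engP
open Pool.Agent.W123.RP Pool.Agent.H373R2.T7 Pool.Agent.W123.RU Pool.Agent.W123.RU.Poly
open Pool.Agent.Y879.GL (US us_adm us_perB lf lf_eval us_lf lf_assoc)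

open Classical in
/-- **Every shape in dense sets, uniformly in the system.** -/
theorem genA (s D E k : ℕ) (δ η κ : ℝ) (hk : 1 ≤ k) (hE : 1 ≤ E) (hδ : 0 < δ) (hδ1 : δ ≤ 1) (hη : 0 < η) (hκ : 0 < κ) :
    ∃ c : ℝ, 0 < c ∧ ∃ H₀ : ℕ, ∀ (H Y : ℕ) (f : Fin s → ℤ[X]) (A : Finset ℕ), H₀ ≤ H → US s D ((H : ℝ) ^ E) 0 f →
    NT (WW (δ / 8) H) H f → Y ≤ H ^ E → (∀ n ∈ Ioc Y (Y + H), ∀ i, (f i).eval (n : ℤ) ≠ 0) → A ⊆ Ioc Y (Y + H) →
    (∀ n ∈ A, ∀ i, ∀ p : ℕ, p.Prime → (p : ℝ) ≤ (H : ℝ) ^ η → ¬ (p : ℤ) ∣ (f i).eval (n : ℤ)) →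
    κ * (H * Vq (Poly.Q f) H) ≤ A.card →
    ∀ b : Fin k → ℕ, Function.Injective b → (∀ i, 1 ≤ b i) → (∀ i, (b i : ℝ) ≤ (H : ℝ) ^ (1 - δ)) →
    c * (H : ℝ) ^ (δ / 8) ≤ (((Icc 1 ⌊(H : ℝ) ^ (δ / 8)⌋₊).filter (fun d =>
      c * (H * (Vq (Poly.Q f) H ^ (k + 1) / Vq (Poly.Q f) ⌊δ / 8 * Real.log H⌋₊ ^ k)) ≤
        ((A.filter (fun n => ∀ i, n + WW (δ / 8) H * d * b i ∈ A)).card : ℝ))).card : ℝ) := by
  obtain ⟨c, hc, H₀, h⟩ := uniP s D E k hE hk η κ (δ / 8) hη hκ (by positivity) (by linarith)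
  refine ⟨c, hc, max H₀ 2, fun H Y f A hH hf hNT hY hne hA hAr hAc b hb hb1 hb2 => ?_⟩
  have hH0 : H₀ ≤ H := (le_max_left _ _).trans hH
  have hH2 : 2 ≤ H := (le_max_right _ _).trans hH
  have hHr : (1 : ℝ) < H := by exact_mod_cast (by omega : 1 < H)
  obtain ⟨D', hD1, hD2⟩ := h H hH0 f hf hNT Y A (by exact_mod_cast hY) hne hA hAr hAc b hb hb1
    (fun l => by
      refine (hb2 l).trans ?_
      rw [le_div_iff₀ (by positivity), ← Real.rpow_natCast ((H : ℝ) ^ (δ / 8)), ← Real.rpow_mul (by linarith),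
        ← Real.rpow_add (by linarith)]
      nth_rewrite 2 [← Real.rpow_one (H : ℝ)]
      apply Real.rpow_le_rpow_of_exponent_le hHr.le
      push_cast
      linarith)
  refine toFil (fun d => A.filter (fun n => ∀ i, n + WW (δ / 8) H * d * b i ∈ A)) D' hD1 le_rfl (fun e he => ?_)
  obtain ⟨h1, h2, h3⟩ := hD2 e he
  refine ⟨h1, h2, h3.trans ?_⟩
  apply Nat.cast_le.2
  apply card_le_card
  intro n hn
  unfold solN at hn
  rw [mem_filter] at hn ⊢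
  refine ⟨hn.1, fun i => ?_⟩
  have := hn.2 i
  rwa [mul_right_comm] at this

lemma Vq_anti {Q : ℕ → ℕ → Prop} (hQ : ∀ p : ℕ, p.Prime → nuB Q p < p) {y z : ℕ} (hyz : y ≤ z) : Vq Q z ≤ Vq Q y := by
  unfold Vq
  have hsub : pz y ⊆ pz z := by
    intro p hp
    rw [mem_pz] at hp ⊢
    exact ⟨hp.1.trans hyz, hp.2⟩
  rw [← Finset.prod_sdiff hsub]
  have hf : ∀ p ∈ pz z, 0 ≤ (1 - (nuB Q p : ℝ) / p) ∧ (1 - (nuB Q p : ℝ) / p) ≤ 1 := by
    intro p hp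
    have hpp := (mem_pz.1 hp).2
    have hp0 : (0 : ℝ) < p := by exact_mod_cast hpp.pos
    have h1 : (nuB Q p : ℝ) ≤ p := by exact_mod_cast (hQ p hpp).le
    constructor
    · have := (div_le_one hp0).2 h1
      linarith
    · have : 0 ≤ (nuB Q p : ℝ) / p := by positivity
      linarith
  apply mul_le_of_le_one_left
  · exact Finset.prod_nonneg fun p hp => (hf p (hsub hp)).1
  · exact Finset.prod_le_one (fun p hp => (hf p (mem_sdiff.1 hp).1).1) (fun p hp => (hf p (mem_sdiff.1 hp).1).2)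

theorem Vq_two (c : ℕ) : ∃ C : ℝ, 0 < C ∧ ∀ᶠ x : ℕ in atTop,
    ∀ Q : ℕ → ℕ → Prop, PerB Q c → (∀ p : ℕ, p.Prime → nuB Q p < p) → C * Vq Q x ≤ Vq Q (2 * x) := by
  obtain ⟨C, hC, h⟩ := Pool.Agent.Q236.GW.Vq_level c 2 le_rfl
  refine ⟨1 / C, by positivity, ?_⟩
  have htw : Tendsto (fun x : ℕ => 2 * x) atTop atTop := tendsto_id.const_mul_atTop' (by norm_num)
  filter_upwards [htw.eventually h, eventually_ge_atTop 4] with x hx hx4
  intro Q hQ hadm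
  obtain ⟨-, h2⟩ := hx Q hQ hadm
  have h3 : ⌊((2 * x : ℕ) : ℝ) ^ (1 / ((2 : ℕ) : ℝ))⌋₊ ≤ x := by
    apply Nat.floor_le_of_le
    have hx4r : (4 : ℝ) ≤ x := by exact_mod_cast hx4
    rw [show (1 / ((2 : ℕ) : ℝ)) = 1 / 2 by norm_num, ← Real.sqrt_eq_rpow]
    apply Real.sqrt_le_iff.2
    constructor
    · linarith
    · push_cast
      nlinarith
  have h4 := Vq_anti hadm h3
  rw [one_div, inv_mul_le_iff₀ hC]
  exact h4.trans h2

open Classical in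
/-- **Lower bound for the primes with almost prime values, uniformly in the system.** -/
theorem genP (s D E : ℕ) : ∃ r₀ : ℕ, 2 ≤ r₀ ∧ ∀ r : ℕ, r₀ ≤ r → ∃ κ : ℝ, 0 < κ ∧ ∀ᶠ x : ℕ in atTop,
    ∀ f : Fin s → ℤ[X], US s D ((x : ℝ) ^ E) 0 f → (∃ i, ∀ n : ℕ, (f i).eval (n : ℤ) = n) →
    κ * (x * Vq (Poly.Q f) x) ≤ (((Ioc x (2 * x)).filter (fun p : ℕ => p.Prime ∧
      ∀ i, ∀ q : ℕ, q.Prime → (q : ℝ) ≤ (x : ℝ) ^ (1 / (r : ℝ)) → ¬ (q : ℤ) ∣ (f i).eval (p : ℤ))).card : ℝ) := by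
  obtain ⟨r₀, hr₀, h⟩ := Pool.Agent.Q236.GW.count_low 1 s D squarefree_one E (1 / 2) (by norm_num) (by norm_num)
  obtain ⟨C, hC, hlev⟩ := Vq_two (s * D + 1)
  refine ⟨r₀, hr₀, fun r hr => ?_⟩
  obtain ⟨κ, hκ, h2⟩ := h r hr
  refine ⟨κ * C, by positivity, ?_⟩
  have htw : Tendsto (fun x : ℕ => 2 * x) atTop atTop := tendsto_id.const_mul_atTop' (by norm_num)
  filter_upwards [htw.eventually h2, hlev, eventually_ge_atTop 16] with x hx hl hx16
  intro f hf hbase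
  have hx16r : (16 : ℝ) ≤ x := by exact_mod_cast hx16
  have hx0 : (0 : ℝ) < x := by linarith
  obtain ⟨i, hi⟩ := hbase
  have hf' : US s D (((2 * x : ℕ) : ℝ) ^ (E : ℝ)) 0 f := by
    refine ⟨hf.irr, hf.deg, hf.degD, fun i n => (hf.hgt i n).trans ?_, hf.adm, hf.tr⟩
    rw [Real.rpow_natCast]
    apply pow_le_pow_left₀ hx0.le
    push_cast
    linarith
  have h3 := hx f 0 hf' (Nat.coprime_one_left 0) (by
      intro p n hp h1
      exact absurd (Nat.dvd_one.1 h1) hp.one_lt.ne') ⟨i, fun n => by rw [hi]; simp⟩ (by omega) x x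
      (by push_cast; linarith) (by push_cast; linarith) (by omega)
  have hlf := hl (Poly.Q f) (us_perB hf) (us_adm hf)
  calc κ * C * (x * Vq (Poly.Q f) x) = κ * (x * (C * Vq (Poly.Q f) x)) := by ring
    _ ≤ κ * (x * Vq (Poly.Q f) (2 * x)) := by gcongr
    _ ≤ _ := h3
    _ ≤ _ := by
        apply Nat.cast_le.2
        unfold Pool.Agent.Q236.GW.cnt
        rw [← two_mul]
        apply card_le_card
        intro p hp
        rw [mem_filter] at hp ⊢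
        obtain ⟨h6, h7⟩ := hp
        unfold Pool.Agent.Q236.GW.PS at h7
        rw [Set.mem_ofPred_eq, one_mul, add_zero] at h7
        refine ⟨h6, h7.1, fun j q hq hqx hd => ?_⟩
        have h8 : q ∈ pz ⌊((2 * x : ℕ) : ℝ) ^ (1 / (r : ℝ))⌋₊ := by
          rw [mem_pz]
          refine ⟨Nat.le_floor (hqx.trans ?_), hq⟩
          apply Real.rpow_le_rpow hx0.le _ (by positivity)
          push_cast
          linarith
        exact h7.2 q h8 ⟨j, hd⟩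

end Pool.Agent.H534.RT
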