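import Pool.Agent.H534.RT.GoldA
import Pool.Agent.H534.RT.CluU
import Pool.Graph.R_pool_sql_team_seeded_1acbe0a2.Y848.UG.GoldS

/-!
# Goldbach pairs at every shape, uniformly in the even number
-/

set_option autoImplicit false

open Finset Filter Polynomial

namespace Pool.Agent.H534.RT

open Pool.Agent.H534.RS hiding majW classes engP
open Pool.Agent.W123.RP Pool.Agent.H373R2.T7 Pool.Agent.W123.RU Pool.Agent.W123.RU.Poly
open Pool.Agent.Q236.GW (gl SG)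

/-- from a set of dilates to a filtered interval -/
lemma toFil {X c c' T : ℝ} (g : ℕ → Finset ℕ) (D' : Finset ℕ) (h1 : c ≤ D'.card) (hc' : c' ≤ c)
    (h2 : ∀ e ∈ D', 1 ≤ e ∧ (e : ℝ) ≤ X ∧ T ≤ ((g e).card : ℝ)) :
    c' ≤ (((Icc 1 ⌊X⌋₊).filter (fun d => T ≤ ((g d).card : ℝ))).card : ℝ) := by
  refine hc'.trans (h1.trans ?_)
  apply Nat.cast_le.2
  apply card_le_card
  intro e he
  obtain ⟨h3, h4, h5⟩ := h2 e he
  exact mem_filter.2 ⟨mem_Icc.2 ⟨h3, Nat.le_floor h4⟩, h5⟩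

open Classical in
/-- **Goldbach pairs: relatively dense sets.** -/
theorem goldA (k E : ℕ) (δ η κ : ℝ) (hk : 1 ≤ k) (hE : 1 ≤ E) (hδ : 0 < δ) (hδ1 : δ ≤ 1) (hη : 0 < η) (hκ : 0 < κ) :
    ∃ c : ℝ, 0 < c ∧ ∃ H₀ : ℕ, ∀ (N Y H : ℕ) (A : Finset ℕ), H₀ ≤ H → Even N → Y + H < N → N ≤ H ^ E →
    A ⊆ Ioc Y (Y + H) →
    (∀ n ∈ A, ∀ p : ℕ, p.Prime → (p : ℝ) ≤ (H : ℝ) ^ η → ¬ p ∣ n ∧ ¬ p ∣ N - n) →
    κ * (SG N * (H / Real.log H ^ 2)) ≤ A.card →
    ∀ b : Fin k → ℕ, Function.Injective b → (∀ i, 1 ≤ b i) → (∀ i, (b i : ℝ) ≤ (H : ℝ) ^ (1 - δ)) →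
    c * (H : ℝ) ^ (δ / 8) ≤ (((Icc 1 ⌊(H : ℝ) ^ (δ / 8)⌋₊).filter (fun d =>
      c * (SG N * (H * Real.log (Real.log H) ^ (2 * k) / Real.log H ^ (2 * (k + 1)))) ≤
        ((A.filter (fun n => ∀ i, n + WW (δ / 8) H * d * b i ∈ A)).card : ℝ))).card : ℝ) := by
  obtain ⟨c, hc, H₀, h⟩ := pairP E k hE hk η κ (δ / 8) hη hκ (by positivity) (by linarith)
  refine ⟨c, hc, max H₀ 2, fun N Y H A hH hN hYN hNE hA hAr hAc b hb hb1 hb2 => ?_⟩
  have hH0 : H₀ ≤ H := (le_max_left _ _).trans hH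
  have hH2 : 2 ≤ H := (le_max_right _ _).trans hH
  have hHr : (1 : ℝ) < H := by exact_mod_cast (by omega : 1 < H)
  have hab : ((N : ℤ) * (-1)).natAbs = N := by simp
  obtain ⟨D', hD1, hD2⟩ := h H hH0 (N : ℤ) (-1) isCoprime_one_right.neg_right (by
      obtain ⟨w, hw⟩ := hN
      exact ⟨-w, by rw [hw]; push_cast; ring⟩) (by omega) (by norm_num)
    (by
      rw [Int.cast_natCast, abs_of_nonneg (Nat.cast_nonneg _)]
      exact_mod_cast hNE)
    (by
      simp only [Int.cast_neg, Int.cast_one, abs_neg, abs_one]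
      exact one_le_pow₀ hHr.le)
    (fun _ => by
      rw [Int.cast_natCast, abs_of_nonneg (Nat.cast_nonneg _)]
      exact_mod_cast (by omega : H < N))
    Y A (by
      have : Y ≤ H ^ E := by omega
      exact_mod_cast this)
    (fun n hn => by have := mem_Ioc.1 hn; omega) hA
    (fun n hn p hp hpH hd => by
      obtain ⟨h1, h2⟩ := hAr n hn p hp hpH
      have hn' := mem_Ioc.1 (hA hn)
      rcases (Nat.prime_iff_prime_int.1 hp).dvd_or_dvd hd with h3 | h3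
      · exact h1 (by exact_mod_cast h3)
      · apply h2
        have : ((N - n : ℕ) : ℤ) = (N : ℤ) + -1 * (n : ℤ) := by
          rw [Nat.cast_sub (by omega)]; ring
        rw [← this] at h3
        exact_mod_cast h3)
    (by rw [hab]; exact hAc) b hb hb1
    (fun l => by
      refine (hb2 l).trans ?_
      rw [le_div_iff₀ (by positivity), ← Real.rpow_natCast ((H : ℝ) ^ (δ / 8)), ← Real.rpow_mul (by linarith),
        ← Real.rpow_add (by linarith)]
      nth_rewrite 2 [← Real.rpow_one (H : ℝ)]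
      apply Real.rpow_le_rpow_of_exponent_le hHr.le
      push_cast
      linarith)
  rw [hab] at hD2
  refine toFil (fun d => A.filter (fun n => ∀ i, n + WW (δ / 8) H * d * b i ∈ A)) D' hD1 le_rfl (fun e he => ?_)
  obtain ⟨h1, h2, h3⟩ := hD2 e he
  refine ⟨h1, h2, h3.trans ?_⟩
  apply Nat.cast_le.2
  apply card_le_card
  intro n hn
  unfold solN at hn
  rw [mem_filter] at hn ⊢
  refine ⟨hn.1, fun i => ?_⟩
  have := hn.2 i
  rwa [mul_right_comm] at this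

/-- few prime factors -/
theorem len_ev (E r : ℕ) (hE : 1 ≤ E) (hr : 1 ≤ r) : ∀ᶠ x : ℕ in atTop, ∀ n : ℕ, 0 < n → n ≤ x ^ E →
    (∀ q : ℕ, q.Prime → q ∣ n → (x : ℝ) ^ (1 / (r : ℝ)) < q) → n.primeFactorsList.length ≤ E * r := by
  have hr0 : (0 : ℝ) < r := by exact_mod_cast (by omega : 0 < r)
  have hp1 : Tendsto (fun X : ℕ => (X : ℝ) ^ (1 / (r : ℝ))) atTop atTop :=
    (tendsto_rpow_atTop (by positivity)).comp tendsto_natCast_atTop_atTop
  filter_upwards [hp1.eventually_ge_atTop 2] with x hx n hn hnE h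
  have hx0 : (0 : ℝ) ≤ x := Nat.cast_nonneg _
  have hEr : 1 ≤ E * r := Nat.mul_pos hE hr
  apply Pool.Agent.W123.RU.length_le n (E * r) (by omega) _ h _ (by linarith)
  have e : ((x : ℝ) ^ (1 / (r : ℝ))) ^ (E * r) = (x : ℝ) ^ E := by
    rw [mul_comm E r, pow_mul, ← Real.rpow_natCast ((x : ℝ) ^ (1 / (r : ℝ))) r, ← Real.rpow_mul hx0, one_div,
      inv_mul_cancel₀ hr0.ne', Real.rpow_one]
  have h1 : (n : ℝ) ≤ (x : ℝ) ^ E := by exact_mod_cast hnE
  rw [pow_succ, e]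
  nlinarith [pow_nonneg hx0 E]

open Classical in
/-- the primes `p` of `(x, 2 x]` with `N - p` free of primes up to `x ^ (1 / r)` -/
noncomputable def GP (N x r : ℕ) : Finset ℕ :=
  (Ioc x (2 * x)).filter (fun p => p.Prime ∧ ∀ q : ℕ, q.Prime → q ∣ N - p → (x : ℝ) ^ (1 / (r : ℝ)) < q)

/-- many elements -/
theorem gp_many (E : ℕ) (hE : 1 ≤ E) : ∃ r₀ : ℕ, 2 ≤ r₀ ∧ ∀ r : ℕ, r₀ ≤ r → ∃ κ : ℝ, 0 < κ ∧ ∀ᶠ x : ℕ in atTop,
    ∀ N : ℕ, Even N → 2 * x < N → N ≤ x ^ E → κ * (SG N * (x / Real.log x ^ 2)) ≤ (GP N x r).card := by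
  classical
  obtain ⟨r₀, hr₀, h⟩ := Pool.Agent.Q236.GW.reg_gl E (1 / 2) (by exact_mod_cast hE) (by norm_num) (by norm_num)
  refine ⟨r₀, hr₀, fun r hr => ?_⟩
  obtain ⟨κ, hκ, h2⟩ := h r hr
  obtain ⟨c, hc, h3⟩ := h2 1 one_pos
  obtain ⟨B, h4⟩ := h3 1 one_pos
  refine ⟨κ / 4, by positivity, ?_⟩
  have hr0 : (0 : ℝ) < r := by exact_mod_cast (by omega : 0 < r)
  have htw : Tendsto (fun x : ℕ => 2 * x) atTop atTop := tendsto_id.const_mul_atTop' (by norm_num)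
  filter_upwards [htw.eventually h4, eventually_ge_atTop 16] with x hx hx16
  intro N hN hxN hNE
  have hx16r : (16 : ℝ) ≤ x := by exact_mod_cast hx16
  have hx0 : (0 : ℝ) < x := by linarith
  have hab : ((N : ℤ) * (-1)).natAbs = N := by simp
  obtain ⟨h5, -⟩ := hx (N : ℤ) (-1) isCoprime_one_right.neg_right (by
      obtain ⟨w, hw⟩ := hN
      exact ⟨-w, by rw [hw]; push_cast; ring⟩) (by omega) (by norm_num)
    (by
      rw [Int.cast_natCast, abs_of_nonneg (Nat.cast_nonneg _), Real.rpow_natCast]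
      have : x ^ E ≤ (2 * x) ^ E := Nat.pow_le_pow_left (by omega) _
      exact_mod_cast hNE.trans this)
    (by
      simp only [Int.cast_neg, Int.cast_one, abs_neg, abs_one]
      rw [Real.rpow_natCast]
      exact one_le_pow₀ (by push_cast; linarith))
    x x (by push_cast; linarith) le_rfl (by omega)
  rw [hab] at h5
  have hSG : 0 < SG N := Pool.Agent.Q236.GW.SG_pos _
  have hlx : 0 < Real.log (x : ℝ) := Real.log_pos (by linarith)
  have hl2 : Real.log (((2 * x : ℕ) : ℕ) : ℝ) ≤ 2 * Real.log x := by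
    push_cast
    rw [Real.log_mul (by norm_num) hx0.ne']
    have := Real.log_le_log (by norm_num : (0 : ℝ) < 2) (by linarith : (2 : ℝ) ≤ x)
    linarith
  have hl20 : 0 < Real.log (((2 * x : ℕ) : ℕ) : ℝ) := Real.log_pos (by push_cast; linarith)
  calc κ / 4 * (SG N * (x / Real.log x ^ 2)) = κ * (x * (SG N / (2 * Real.log x) ^ 2)) := by
        field_simp; ring
    _ ≤ κ * (x * (SG N / Real.log (((2 * x : ℕ) : ℕ) : ℝ) ^ 2)) := by gcongr
    _ ≤ _ := h5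
    _ ≤ _ := by
        apply Nat.cast_le.2
        unfold Pool.Agent.Q236.GW.cnt GP
        rw [← two_mul]
        apply card_le_card
        intro p hp
        rw [mem_filter] at hp ⊢
        obtain ⟨h6, h7⟩ := hp
        have h6' := mem_Ioc.1 h6
        unfold Pool.Agent.Q236.GW.PS at h7
        rw [Set.mem_ofPred_eq, one_mul, add_zero] at h7
        refine ⟨h6, h7.1, fun q hq hd => ?_⟩
        by_contra hcon
        rw [not_lt] at hcon
        have h8 : q ∈ pz ⌊((2 * x : ℕ) : ℝ) ^ (1 / (r : ℝ))⌋₊ := by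
          rw [mem_pz]
          refine ⟨Nat.le_floor (hcon.trans ?_), hq⟩
          apply Real.rpow_le_rpow hx0.le _ (by positivity)
          push_cast
          linarith
        apply h7.2 q h8
        rw [Pool.Agent.Q236.GW.gl_Q _ _ q p hq]
        apply Dvd.dvd.mul_left
        have : ((N - p : ℕ) : ℤ) = (N : ℤ) + -1 * (p : ℤ) := by
          rw [Nat.cast_sub (by omega)]; ring
        rw [← this]
        exact_mod_cast hd

open Classical in
/-- **Goldbach pairs: a prime and an almost prime.** -/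
theorem goldB (E : ℕ) (hE : 1 ≤ E) : ∃ r₀ : ℕ, 2 ≤ r₀ ∧ ∀ r : ℕ, r₀ ≤ r → ∀ (k : ℕ) (δ : ℝ), 1 ≤ k → 0 < δ → δ ≤ 1 →
    ∃ c : ℝ, 0 < c ∧ ∀ᶠ x : ℕ in atTop, ∀ N : ℕ, Even N → 2 * x < N → N ≤ x ^ E →
    ∀ b : Fin k → ℕ, Function.Injective b → (∀ i, 1 ≤ b i) → (∀ i, (b i : ℝ) ≤ (x : ℝ) ^ (1 - δ)) →
    c * (x : ℝ) ^ (δ / 8) ≤ (((Icc 1 ⌊(x : ℝ) ^ (δ / 8)⌋₊).filter (fun d =>
      c * (SG N * (x * Real.log (Real.log x) ^ (2 * k) / Real.log x ^ (2 * (k + 1)))) ≤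
        (((GP N x r).filter (fun n => ∀ i, n + WW (δ / 8) x * d * b i ∈ GP N x r)).card : ℝ))).card : ℝ) := by
  obtain ⟨r₀, hr₀, hm⟩ := gp_many E hE
  refine ⟨r₀, hr₀, fun r hr k δ hk hδ hδ1 => ?_⟩
  obtain ⟨κ, hκ, hκx⟩ := hm r hr
  have hr0 : (0 : ℝ) < r := by exact_mod_cast (by omega : 0 < r)
  obtain ⟨c, hc, H₀, h⟩ := goldA k E δ (1 / r) κ hk hE hδ hδ1 (by positivity) hκ
  refine ⟨c, hc, ?_⟩
  filter_upwards [hκx, eventually_ge_atTop (max H₀ 1)] with x h1 h2 N hN hxN hNE b hb hb1 hb2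
  have hx1 : 1 ≤ x := (le_max_right _ _).trans h2
  refine h N x x (GP N x r) ((le_max_left _ _).trans h2) hN (by omega) hNE ?_ ?_ (h1 N hN hxN hNE) b hb hb1 hb2
  · rw [← two_mul]
    exact filter_subset _ _
  · intro m hm p hp hpx
    unfold GP at hm
    rw [mem_filter, mem_Ioc] at hm
    obtain ⟨⟨hm1, hm2⟩, h3, h4⟩ := hm
    constructor
    · intro hd
      have h5 := (Nat.prime_dvd_prime_iff_eq hp h3).1 hd
      have h6 : (x : ℝ) < p := by
        rw [h5]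
        exact_mod_cast hm1
      have h7 : (x : ℝ) ^ (1 / (r : ℝ)) ≤ x := by
        nth_rewrite 2 [← Real.rpow_one (x : ℝ)]
        apply Real.rpow_le_rpow_of_exponent_le (by exact_mod_cast hx1)
        rw [div_le_one hr0]
        have : 1 ≤ r := by omega
        exact_mod_cast this
      linarith
    · intro hd
      have := h4 p hp hd
      linarith

open Pool.Agent.Y848.UG (gb sys_gold)

open Classical in
/-- **Strings of primes `p` with `N - p` almost prime.** -/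
theorem goldC (m : ℕ) : ∃ η : ℝ, 0 < η ∧ ∃ B K : ℕ, ∀ (k E : ℕ) (δ : ℝ), 1 ≤ k → 0 < δ → δ ≤ 1 →
    ∃ c : ℝ, 0 < c ∧ ∃ x₀ : ℕ, ∀ x : ℕ, x₀ ≤ x → ∀ N : ℕ, Even N → 2 * x < N → N ≤ x ^ E →
      ∃ P : Finset ℕ, P ⊆ Icc 1 K ∧ m ≤ P.card ∧
      ∀ b : Fin k → ℕ, Function.Injective b → (∀ i, 1 ≤ b i) → (∀ i, (b i : ℝ) ≤ (x : ℝ) ^ (1 - δ)) →
      c * (x : ℝ) ^ (δ / 8) ≤ (((Icc 1 ⌊(x : ℝ) ^ (δ / 8)⌋₊).filter (fun d =>
        c * (x / Real.log x ^ (B * (k + 1))) ≤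
        (((Ioc (x / 2) (x / 2 + x)).filter (fun n => ∀ s : ℕ, (s = 0 ∨ ∃ i, s = b i) →
          n + WW (δ / 8) x * d * s ≤ x / 2 + x ∧
          (∀ t : ℕ, 1 ≤ t → (t : ℝ) ≤ Real.log x / Real.log (Real.log x) ^ 2 →
            ((n + WW (δ / 8) x * d * s + t).Prime ↔ t ∈ P)) ∧
          ∀ t ∈ P, (n + WW (δ / 8) x * d * s + t).Prime ∧
            ∀ q : ℕ, q.Prime → q ∣ N - (n + WW (δ / 8) x * d * s + t) → (x : ℝ) ^ η < q)).card : ℝ))).card : ℝ) := by
  obtain ⟨η, hη, B, K, h⟩ := cluU m 1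
  refine ⟨η, hη, B, K, fun k E δ hk hδ hδ1 => ?_⟩
  obtain ⟨c, hc, x₀, h1⟩ := h k E 0 (δ / 8) hk (by positivity) (by linarith)
  refine ⟨c, hc, max x₀ (2 * K + 2), fun x hx N hN hxN hNE => ?_⟩
  have hx0 : x₀ ≤ x := (le_max_left _ _).trans hx
  have hxK : 2 * K + 2 ≤ x := (le_max_right _ _).trans hx
  have hxr : (1 : ℝ) < x := by exact_mod_cast (by omega : 1 < x)
  have hg0 : gb N 0 = -(N : ℤ) := rfl
  have hg1 : gb N 1 = 0 := rfl
  obtain ⟨P, S, hP1, hP2, hS1, hS2, hsh⟩ := h1 x hx0 (fun _ => 1) (gb N) (sys_gold hN (by omega))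
    (fun l _ => by
      push_cast
      exact one_le_pow₀ hxr.le)
    (fun l hl => by
      interval_cases l
      · rw [hg0]
        push_cast
        rw [abs_neg, abs_of_nonneg (Nat.cast_nonneg _)]
        exact_mod_cast hNE
      · rw [hg1]
        simp)
    (fun l hl _ => by
      interval_cases l
      left
      rw [hg0]
      push_cast
      omega)
    (fun l hl n hn1 hn2 => by
      interval_cases l
      · rw [hg0]
        push_cast
        omega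
      · rw [hg1]
        push_cast
        omega)
    (fun l hl l' hl' hne s hs1 hs2 => by
      have : (l = 0 ∧ l' = 1) ∨ (l = 1 ∧ l' = 0) := by omega
      rcases this with ⟨rfl, rfl⟩ | ⟨rfl, rfl⟩
      · rw [hg0, hg1]
        push_cast
        omega
      · rw [hg0, hg1]
        push_cast
        omega)
  refine ⟨P, hP1, hP2, fun b hb hb1 hb2 => ?_⟩
  obtain ⟨D', hD1, hD2⟩ := hsh b hb hb1 (fun l => by
      refine (hb2 l).trans ?_
      rw [le_div_iff₀ (by positivity), ← Real.rpow_natCast ((x : ℝ) ^ (δ / 8)), ← Real.rpow_mul (by linarith),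
        ← Real.rpow_add (by linarith)]
      nth_rewrite 2 [← Real.rpow_one (x : ℝ)]
      apply Real.rpow_le_rpow_of_exponent_le hxr.le
      push_cast
      linarith)
  refine toFil _ D' hD1 le_rfl (fun e he => ?_)
  obtain ⟨h3, h4, h5⟩ := hD2 e he
  refine ⟨h3, h4, h5.trans ?_⟩
  apply Nat.cast_le.2
  apply card_le_card
  intro n hn
  unfold solN at hn
  rw [mem_filter] at hn ⊢
  refine ⟨hS1 hn.1, fun s hs => ?_⟩
  have hmem : n + WW (δ / 8) x * e * s ∈ S := by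
    rcases hs with rfl | ⟨i, rfl⟩
    · simpa using hn.1
    · have := hn.2 i
      rwa [mul_right_comm] at this
  have h6 := mem_Ioc.1 (hS1 hmem)
  obtain ⟨h7, h8⟩ := hS2 _ hmem
  refine ⟨h6.2, h7, fun t ht => ?_⟩
  obtain ⟨h9, h10⟩ := h8 t ht
  refine ⟨h9, fun q hq hd => ?_⟩
  apply h10 0 one_pos q hq
  rw [hg0]
  have htK := (mem_Icc.1 (hP1 ht)).2
  have h11 : n + WW (δ / 8) x * e * s + t ≤ N := by omega
  have h12 : ((N - (n + WW (δ / 8) x * e * s + t) : ℕ) : ℤ) =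
      -(((1 : ℕ) : ℤ) * ((n + WW (δ / 8) x * e * s + t : ℕ) : ℤ) + -(N : ℤ)) := by
    rw [Nat.cast_sub h11]
    push_cast
    ring
  have h13 : (q : ℤ) ∣ ((N - (n + WW (δ / 8) x * e * s + t) : ℕ) : ℤ) := Int.natCast_dvd_natCast.2 hd
  rw [h12] at h13
  exact (dvd_neg.1 h13)

end Pool.Agent.H534.RT
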