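import Pool.Agent.H534.RT.Sie
import Pool.Agent.H534.RT.Col

/-!
# Systems of linear forms `n`, `a_j n + b_j`, uniformly in the coefficients
-/

set_option autoImplicit false

open Finset Filter Polynomial

namespace Pool.Agent.H534.RT

open Pool.Agent.H534.RS hiding majW classes engP
open Pool.Agent.W123.RP Pool.Agent.H373R2.T7 Pool.Agent.W123.RU Pool.Agent.W123.RU.Poly
open Pool.Agent.Y879.GL (US us_adm us_perB lf lf_eval us_lf lf_assoc)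

/-- the forms `n`, `a_j n + b_j` -/
noncomputable def ff {l : ℕ} (a : Fin l → ℕ) (b : Fin l → ℤ) : Fin (l + 1) → ℤ[X] :=
  fun i => lf ((Fin.cons 1 (fun j => (a j : ℤ)) : Fin (l + 1) → ℤ) i) ((Fin.cons 0 b : Fin (l + 1) → ℤ) i)

/-- no prime divides all the products of the `n`, `a_j n + b_j` -/
def LAdm {l : ℕ} (a : Fin l → ℕ) (b : Fin l → ℤ) : Prop :=
  ∀ p : ℕ, p.Prime → ∃ n : ℕ, ¬ p ∣ n ∧ ∀ j, ¬ (p : ℤ) ∣ (a j : ℤ) * n + b j

/-- the bad classes -/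
def LB {l : ℕ} (a : Fin l → ℕ) (b : Fin l → ℤ) (p n : ℕ) : Prop := p ∣ n ∨ ∃ j, (p : ℤ) ∣ (a j : ℤ) * n + b j

variable {l : ℕ} {a : Fin l → ℕ} {b : Fin l → ℤ}

lemma ff_dvd (a : Fin l → ℕ) (b : Fin l → ℤ) (p n : ℕ) : (∃ i, (p : ℤ) ∣ (ff a b i).eval (n : ℤ)) ↔ LB a b p n := by
  unfold LB ff
  rw [Fin.exists_fin_succ]
  simp only [lf_eval, Fin.cons_zero, Fin.cons_succ, add_zero, one_mul]
  constructor
  · rintro (h1 | ⟨i, h1⟩)
    · left; exact_mod_cast h1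
    · right; exact ⟨i, h1⟩
  · rintro (h1 | ⟨i, h1⟩)
    · left; exact_mod_cast h1
    · right; exact ⟨i, h1⟩

lemma ff_Q (a : Fin l → ℕ) (b : Fin l → ℤ) : Poly.Q (ff a b) = LB a b := by
  funext p n
  exact propext (ff_dvd a b p n)

lemma LAdm.cop (h : LAdm a b) (j : Fin l) : IsCoprime (a j : ℤ) (b j) := by
  rw [Int.isCoprime_iff_gcd_eq_one]
  by_contra hne
  obtain ⟨p, hp, hpd⟩ := Nat.exists_prime_and_dvd hne
  have h1 : (p : ℤ) ∣ a j := (Int.natCast_dvd_natCast.2 hpd).trans (Int.gcd_dvd_left _ _)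
  have h2 : (p : ℤ) ∣ b j := (Int.natCast_dvd_natCast.2 hpd).trans (Int.gcd_dvd_right _ _)
  obtain ⟨n, -, h3⟩ := h p hp
  exact h3 j (dvd_add (h1.mul_right _) h2)

lemma ff_us (M : ℝ) (hM : 1 ≤ M) (ha1 : ∀ j, 1 ≤ a j) (haM : ∀ j, (a j : ℝ) ≤ M) (hbM : ∀ j, |(b j : ℝ)| ≤ M)
    (hadm : LAdm a b) : US (l + 1) 1 M 0 (ff a b) := by
  have e : ff a b = fun i => lf ((Fin.cons 1 (fun j => (a j : ℤ)) : Fin (l + 1) → ℤ) i)
    ((Fin.cons 0 b : Fin (l + 1) → ℤ) i) := rfl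
  rw [e]
  apply us_lf (l + 1) (Fin.cons 1 (fun j => (a j : ℤ))) (Fin.cons 0 b) M 0
  · intro i
    refine Fin.cases ?_ (fun j => ?_) i
    · rw [Fin.cons_zero]; exact one_ne_zero
    · rw [Fin.cons_succ]
      have := ha1 j
      omega
  · intro i
    refine Fin.cases ?_ (fun j => ?_) i
    · rw [Fin.cons_zero]; exact isCoprime_one_left
    · rw [Fin.cons_succ, Fin.cons_succ]
      exact hadm.cop j
  · intro i
    refine Fin.cases ?_ (fun j => ?_) i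
    · rw [Fin.cons_zero]; simpa using hM
    · rw [Fin.cons_succ]
      simpa using haM j
  · intro i
    refine Fin.cases ?_ (fun j => ?_) i
    · rw [Fin.cons_zero]; simp; linarith
    · rw [Fin.cons_succ]
      exact hbM j
  · intro p hp
    obtain ⟨m, h1, h2⟩ := hadm p hp
    refine ⟨m, fun i => ?_⟩
    refine Fin.cases ?_ (fun j => ?_) i
    · rw [Fin.cons_zero, Fin.cons_zero, one_mul, add_zero]
      exact_mod_cast h1
    · rw [Fin.cons_succ, Fin.cons_succ]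
      exact h2 j
  · intro i j t ht1 ht2
    have : (1 : ℝ) ≤ t := by exact_mod_cast ht1
    linarith

/-- the coefficients of all the forms -/
lemma ff_coef (S : ℝ) (hS : 0 ≤ S) (ha1 : ∀ j, 1 ≤ a j) (hb : ∀ j, |(b j : ℝ)| ≤ a j * S) (i : Fin (l + 1)) :
    (1 : ℤ) ≤ (Fin.cons 1 (fun j => (a j : ℤ)) : Fin (l + 1) → ℤ) i ∧
      |((Fin.cons 0 b : Fin (l + 1) → ℤ) i : ℝ)| ≤ ((Fin.cons 1 (fun j => (a j : ℤ)) : Fin (l + 1) → ℤ) i : ℝ) * S := by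
  refine Fin.cases ?_ (fun j => ?_) i
  · rw [Fin.cons_zero, Fin.cons_zero]
    refine ⟨le_rfl, ?_⟩
    simpa using hS
  · rw [Fin.cons_succ, Fin.cons_succ]
    refine ⟨by exact_mod_cast ha1 j, ?_⟩
    have := hb j
    push_cast
    exact this

lemma ff_nt (W H : ℕ) (S : ℝ) (hS : 0 ≤ S) (hSW : 2 * S < W) (ha1 : ∀ j, 1 ≤ a j) (hb : ∀ j, |(b j : ℝ)| ≤ a j * S) :
    NT W H (ff a b) := by
  intro i j t ht1 htH htW hass
  have h1 := lf_assoc _ _ _ _ _ hass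
  have hWt : W ≤ t := Nat.le_of_dvd (by omega) htW
  obtain ⟨h2, h3⟩ := ff_coef S hS ha1 hb i
  obtain ⟨h4, h5⟩ := ff_coef S hS ha1 hb j
  have hWt' : (W : ℝ) ≤ t := by exact_mod_cast hWt
  rcases h1 with ⟨h6, h7⟩ | ⟨h6, -⟩
  · rw [h6, h7] at h3
    push_cast at h3
    generalize (Fin.cons 1 (fun j => (a j : ℤ)) : Fin (l + 1) → ℤ) j = A at h3 h4 h5
    generalize (Fin.cons 0 b : Fin (l + 1) → ℤ) j = B at h3 h5
    have hA : (1 : ℝ) ≤ A := by exact_mod_cast h4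
    have h8 := (abs_le.1 h3).2
    have h9 := (abs_le.1 h5).1
    have h10 : (A : ℝ) * (2 * S) < A * t := mul_lt_mul_of_pos_left (by linarith) (by linarith)
    nlinarith
  · omega

open Classical in
/-- the sieve density -/
noncomputable def LV {l : ℕ} (a : Fin l → ℕ) (b : Fin l → ℤ) (z : ℕ) : ℝ :=
  ∏ p ∈ (Icc 1 z).filter Nat.Prime,
    (1 - (((range p).filter (fun n : ℕ => p ∣ n ∨ ∃ j, (p : ℤ) ∣ (a j : ℤ) * n + b j)).card : ℝ) / p)

lemma LV_eq (a : Fin l → ℕ) (b : Fin l → ℤ) (z : ℕ) : Vq (LB a b) z = LV a b z := by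
  unfold Vq LV pz
  apply prod_congr rfl
  intro p _
  have e : nuB (LB a b) p = ((range p).filter (fun n : ℕ => p ∣ n ∨ ∃ j, (p : ℤ) ∣ (a j : ℤ) * n + b j)).card := by
    unfold nuB LB
    apply congrArg
    ext n
    simp only [mem_filter]
  rw [e]

/-- `2 H ^ (δ / 32) + K < W` -/
lemma S_ev (δ : ℝ) (hδ : 0 < δ) (K : ℕ) : ∀ᶠ H : ℕ in atTop, 2 * (H : ℝ) ^ (δ / 32) + K < WW (δ / 8) H ∧
    (H : ℝ) ^ (δ / 32) < H / 4 ∨ 1 < δ := by
  have hxr0 : Tendsto (fun X : ℕ => (X : ℝ)) atTop atTop := tendsto_natCast_atTop_atTop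
  filter_upwards [WW_bigger (δ / 8) (by positivity) K, eventually_ge_atTop 2,
    ((tendsto_rpow_atTop (show (0 : ℝ) < δ / 32 by positivity)).comp hxr0).eventually_ge_atTop 4] with H h1 h2 h3
  by_cases hd : 1 < δ
  · exact Or.inr hd
  left
  simp only [Function.comp_apply] at h3
  have hHr : (1 : ℝ) < H := by exact_mod_cast (by omega : 1 < H)
  have hH0 : (0 : ℝ) < H := by linarith
  rw [show δ / 8 / 2 = δ / 16 by ring] at h1
  have e : (H : ℝ) ^ (δ / 16) = (H : ℝ) ^ (δ / 32) * (H : ℝ) ^ (δ / 32) := by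
    rw [← Real.rpow_add hH0]
    congr 1
    ring
  refine ⟨?_, ?_⟩
  · rw [e] at h1
    nlinarith
  · have h4 : (H : ℝ) ^ (δ / 16) < H := by
      nth_rewrite 2 [← Real.rpow_one (H : ℝ)]
      apply Real.rpow_lt_rpow_of_exponent_lt hHr
      linarith
    rw [e] at h4
    nlinarith

open Classical in
/-- **Dense sets.** -/
theorem linA (l E k : ℕ) (δ η κ : ℝ) (hk : 1 ≤ k) (hE : 1 ≤ E) (hδ : 0 < δ) (hδ1 : δ ≤ 1) (hη : 0 < η) (hκ : 0 < κ) :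
    ∃ c : ℝ, 0 < c ∧ ∃ H₀ : ℕ, ∀ (H Y : ℕ) (a : Fin l → ℕ) (b : Fin l → ℤ) (A : Finset ℕ), H₀ ≤ H → LAdm a b →
    (∀ j, 1 ≤ a j) → (∀ j, (a j : ℝ) ≤ (H : ℝ) ^ E) → (∀ j, |(b j : ℝ)| ≤ (H : ℝ) ^ E) →
    (∀ j, |(b j : ℝ)| ≤ a j * (H : ℝ) ^ (δ / 32)) → Y ≤ H ^ E →
    (∀ n ∈ Ioc Y (Y + H), ∀ j, (a j : ℤ) * n + b j ≠ 0) → A ⊆ Ioc Y (Y + H) →
    (∀ n ∈ A, ∀ p : ℕ, p.Prime → (p : ℝ) ≤ (H : ℝ) ^ η → ¬ p ∣ n ∧ ∀ j, ¬ (p : ℤ) ∣ (a j : ℤ) * n + b j) →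
    κ * (H * LV a b H) ≤ A.card →
    ∀ sh : Fin k → ℕ, Function.Injective sh → (∀ i, 1 ≤ sh i) → (∀ i, (sh i : ℝ) ≤ (H : ℝ) ^ (1 - δ)) →
    c * (H : ℝ) ^ (δ / 8) ≤ (((Icc 1 ⌊(H : ℝ) ^ (δ / 8)⌋₊).filter (fun d =>
      c * (H * (LV a b H ^ (k + 1) / LV a b ⌊δ / 8 * Real.log H⌋₊ ^ k)) ≤
        ((A.filter (fun n => ∀ i, n + WW (δ / 8) H * d * sh i ∈ A)).card : ℝ))).card : ℝ) := by
  obtain ⟨c, hc, H₀, hm⟩ := genA (l + 1) 1 E k δ η κ hk hE hδ hδ1 hη hκ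
  obtain ⟨H₁, hH₁⟩ := eventually_atTop.1 (S_ev δ hδ 0)
  refine ⟨c, hc, max (max H₀ H₁) 1, fun H Y a b A hH hadm ha1 haE hbE hbS hY hnz hA hAr hAc sh hb hb1 hb2 => ?_⟩
  have hH0 : H₀ ≤ H := ((le_max_left _ _).trans (le_max_left _ _)).trans hH
  have hH1 : H₁ ≤ H := ((le_max_right _ _).trans (le_max_left _ _)).trans hH
  have hHone : 1 ≤ H := (le_max_right _ _).trans hH
  have hHr : (1 : ℝ) ≤ H := by exact_mod_cast hHone
  have hW : 2 * (H : ℝ) ^ (δ / 32) < WW (δ / 8) H := by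
    rcases hH₁ H hH1 with h1 | h1
    · have := h1.1
      push_cast at this
      linarith
    · linarith
  have h2 := hm H Y (ff a b) A hH0 (ff_us _ (one_le_pow₀ hHr) ha1 haE hbE hadm)
    (ff_nt _ H _ (by positivity) hW ha1 hbS) hY
    (fun n hn i => by
      have hn1 := (mem_Ioc.1 hn).1
      unfold ff
      rw [lf_eval]
      refine Fin.cases ?_ (fun j => ?_) i
      · rw [Fin.cons_zero, Fin.cons_zero]; omega
      · rw [Fin.cons_succ, Fin.cons_succ]; exact hnz n hn j) hA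
    (fun n hn i p hp hpH hd => by
      obtain ⟨h3, h4⟩ := hAr n hn p hp hpH
      rcases (ff_dvd a b p n).1 ⟨i, hd⟩ with h5 | ⟨j, h5⟩
      · exact h3 h5
      · exact h4 j h5)
    (by rw [ff_Q, LV_eq]; exact hAc) sh hb hb1 hb2
  rw [ff_Q, LV_eq, LV_eq] at h2
  exact h2

open Classical in
/-- the primes `p` of `(x, 2 x]` with all `a_j p + b_j` free of primes up to `x ^ (1 / r)` -/
noncomputable def LP {l : ℕ} (a : Fin l → ℕ) (b : Fin l → ℤ) (x r : ℕ) : Finset ℕ :=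
  (Ioc x (2 * x)).filter (fun p : ℕ => p.Prime ∧
    ∀ j, ∀ q : ℕ, q.Prime → (q : ℤ) ∣ (a j : ℤ) * p + b j → (x : ℝ) ^ (1 / (r : ℝ)) < q)

open Classical in
/-- **A prime and almost primes.** -/
theorem linB (l E : ℕ) (hE : 1 ≤ E) : ∃ r₀ : ℕ, 2 ≤ r₀ ∧ ∀ r : ℕ, r₀ ≤ r → ∀ (k : ℕ) (δ : ℝ), 1 ≤ k → 0 < δ → δ ≤ 1 →
    ∃ c : ℝ, 0 < c ∧ ∀ᶠ x : ℕ in atTop, ∀ (a : Fin l → ℕ) (b : Fin l → ℤ), LAdm a b →
    (∀ j, 1 ≤ a j) → (∀ j, (a j : ℝ) ≤ (x : ℝ) ^ E) → (∀ j, |(b j : ℝ)| ≤ (x : ℝ) ^ E) →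
    (∀ j, |(b j : ℝ)| ≤ a j * (x : ℝ) ^ (δ / 32)) →
    ∀ sh : Fin k → ℕ, Function.Injective sh → (∀ i, 1 ≤ sh i) → (∀ i, (sh i : ℝ) ≤ (x : ℝ) ^ (1 - δ)) →
    c * (x : ℝ) ^ (δ / 8) ≤ (((Icc 1 ⌊(x : ℝ) ^ (δ / 8)⌋₊).filter (fun d =>
      c * (x * (LV a b x ^ (k + 1) / LV a b ⌊δ / 8 * Real.log x⌋₊ ^ k)) ≤
        (((LP a b x r).filter (fun n => ∀ i, n + WW (δ / 8) x * d * sh i ∈ LP a b x r)).card : ℝ))).card : ℝ) := by
  obtain ⟨r₀, hr₀, hm⟩ := genP (l + 1) 1 E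
  refine ⟨r₀, hr₀, fun r hr k δ hk hδ hδ1 => ?_⟩
  obtain ⟨κ, hκ, hκx⟩ := hm r hr
  have hr0 : (0 : ℝ) < r := by exact_mod_cast (by omega : 0 < r)
  obtain ⟨c, hc, H₀, hA⟩ := linA l E k δ (1 / r) κ hk hE hδ hδ1 (by positivity) hκ
  refine ⟨c, hc, ?_⟩
  filter_upwards [hκx, eventually_ge_atTop (max H₀ 1), S_ev δ hδ 0] with x h1 h2 hS a b hadm ha1 haE hbE hbS sh hb hb1 hb2
  have hx1 : 1 ≤ x := (le_max_right _ _).trans h2
  have hxr : (1 : ℝ) ≤ x := by exact_mod_cast hx1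
  have h7 : (x : ℝ) ^ (1 / (r : ℝ)) ≤ x := by
    nth_rewrite 2 [← Real.rpow_one (x : ℝ)]
    apply Real.rpow_le_rpow_of_exponent_le hxr
    rw [div_le_one hr0]
    have : 1 ≤ r := by omega
    exact_mod_cast this
  have hS2 : (x : ℝ) ^ (δ / 32) < x / 4 := by
    rcases hS with h | h
    · exact h.2
    · linarith
  refine hA x x a b (LP a b x r) ((le_max_left _ _).trans h2) hadm ha1 haE hbE hbS
    (by nth_rewrite 1 [← pow_one x]; exact Nat.pow_le_pow_right hx1 hE) ?_ ?_ ?_ ?_ sh hb hb1 hb2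
  · intro n hn j hz
    have hn1 := (mem_Ioc.1 hn).1
    have h3 := hbS j
    have h4 : (b j : ℝ) = -((a j : ℝ) * n) := by
      have : b j = -((a j : ℤ) * n) := by linarith
      rw [this]
      push_cast
      ring
    rw [h4, abs_neg, abs_of_nonneg (by positivity)] at h3
    have ha : (0 : ℝ) < a j := by exact_mod_cast ha1 j
    have h5 := le_of_mul_le_mul_left h3 ha
    have h6 : (x : ℝ) < n := by exact_mod_cast hn1
    linarith
  · rw [← two_mul]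
    exact filter_subset _ _
  · intro m hm p hp hpx
    unfold LP at hm
    rw [mem_filter, mem_Ioc] at hm
    obtain ⟨⟨hm1, hm2⟩, h3, h4⟩ := hm
    constructor
    · intro hd
      have h5 := (Nat.prime_dvd_prime_iff_eq hp h3).1 hd
      have h6 : (x : ℝ) < p := by
        rw [h5]
        exact_mod_cast hm1
      linarith
    · intro i hd
      have := h4 i p hp hd
      linarith
  · have h8 := h1 (ff a b) (ff_us _ (one_le_pow₀ hxr) ha1 haE hbE hadm) ⟨0, fun n => by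
        unfold ff
        rw [lf_eval, Fin.cons_zero, Fin.cons_zero]
        simp⟩
    rw [ff_Q, LV_eq] at h8
    refine h8.trans ?_
    apply Nat.cast_le.2
    unfold LP
    apply card_le_card
    intro p hp
    rw [mem_filter] at hp ⊢
    refine ⟨hp.1, hp.2.1, fun i q hq hd => ?_⟩
    by_contra hcon
    rw [not_lt] at hcon
    obtain ⟨j, hj⟩ := (ff_dvd a b q p).2 (Or.inr ⟨i, hd⟩)
    exact hp.2.2 j q hq hcon hj

open Classical in
/-- **Strings of primes.** -/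
theorem linC (m l : ℕ) : ∃ η : ℝ, 0 < η ∧ ∃ B K : ℕ, ∀ (k E C₀ : ℕ) (δ κ : ℝ), 1 ≤ k → 0 < δ → δ ≤ 1 → 0 < κ →
    ∃ c : ℝ, 0 < c ∧ ∃ x₀ : ℕ, ∀ x : ℕ, x₀ ≤ x → ∀ (a : Fin l → ℕ) (b : Fin l → ℤ) (L : ℕ), LAdm a b →
      (∀ i j, a i = a j → b i = b j → i = j) → (∀ j, ¬ (a j = 1 ∧ b j = 0)) →
      (∀ j, 1 ≤ a j) → (∀ j, (a j : ℝ) ≤ (x : ℝ) ^ E) → (∀ j, |(b j : ℝ)| ≤ (x : ℝ) ^ E) →
      (∀ j, |(b j : ℝ)| ≤ a j * (x : ℝ) ^ (δ / 32)) →
      K ≤ L → (L : ℝ) ≤ Real.log x / Real.log (Real.log x) ^ 2 →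
      (L ≤ C₀ ∨ ∀ j, a j = 1 → b j ≤ C₀ ∨ (L : ℤ) < b j) →
      ∃ P S : Finset ℕ, P ⊆ Icc 1 K ∧ m ≤ P.card ∧ S ⊆ Ioc (x / 2) (x / 2 + x) ∧
      (∀ n ∈ S, (∀ t : ℕ, 1 ≤ t → t ≤ L → ((n + t).Prime ↔ t ∈ P)) ∧
          ∀ t ∈ P, (n + t).Prime ∧ ∀ j, ∀ q : ℕ, q.Prime → (q : ℤ) ∣ (a j : ℤ) * ((n + t : ℕ) : ℤ) + b j → (x : ℝ) ^ η < q) ∧
      ∀ S' ⊆ S, κ * S.card ≤ S'.card →
      ∀ sh : Fin k → ℕ, Function.Injective sh → (∀ i, 1 ≤ sh i) → (∀ i, (sh i : ℝ) ≤ (x : ℝ) ^ (1 - δ)) →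
      c * (x : ℝ) ^ (δ / 8) ≤ (((Icc 1 ⌊(x : ℝ) ^ (δ / 8)⌋₊).filter (fun d =>
        c * (x / Real.log x ^ (B * (k + 1))) ≤
        ((S'.filter (fun n => ∀ i, n + WW (δ / 8) x * d * sh i ∈ S')).card : ℝ))).card : ℝ) := by
  obtain ⟨η, hη, B, K, hcl⟩ := cluW m l
  refine ⟨η, hη, B, K, fun k E C₀ δ κ hk hδ hδ1 hκ => ?_⟩
  obtain ⟨c, hc, x₀, h1⟩ := hcl k E C₀ (δ / 8) κ hk (by positivity) (by linarith) hκ
  obtain ⟨x₂, hx₂⟩ := eventually_atTop.1 (S_ev δ hδ (K + 1))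
  refine ⟨c, hc, max x₀ (max x₂ 2), fun x hx a b L hadm hinj hn1 ha1 haE hbE hbS hKL hL hLC => ?_⟩
  have hx0 : x₀ ≤ x := (le_max_left _ _).trans hx
  have hx2 : x₂ ≤ x := ((le_max_left _ _).trans (le_max_right _ _)).trans hx
  have hxK : 2 ≤ x := ((le_max_right _ _).trans (le_max_right _ _)).trans hx
  have hxr : (1 : ℝ) < x := by exact_mod_cast (by omega : 1 < x)
  obtain ⟨hSW, hSx⟩ : 2 * (x : ℝ) ^ (δ / 32) + (K + 1 : ℕ) < WW (δ / 8) x ∧ (x : ℝ) ^ (δ / 32) < x / 4 := by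
    rcases hx₂ x hx2 with h | h
    · exact h
    · linarith
  obtain ⟨S₀, hS₀⟩ : ∃ S₀ : ℝ, S₀ = (x : ℝ) ^ (δ / 32) := ⟨_, rfl⟩
  rw [← hS₀] at hSW hSx hbS
  have hS₀0 : 0 ≤ S₀ := by rw [hS₀]; positivity
  obtain ⟨aa, haa⟩ : ∃ aa : ℕ → ℕ, aa = fun i => if hi : i < l then a ⟨i, hi⟩ else 1 := ⟨_, rfl⟩
  obtain ⟨bb, hbb⟩ : ∃ bb : ℕ → ℤ, bb = fun i => if hi : i < l then b ⟨i, hi⟩ else 0 := ⟨_, rfl⟩
  have hal : ∀ i (hi : i < l), aa i = a ⟨i, hi⟩ := fun i hi => by rw [haa]; simp [hi]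
  have hbl : ∀ i (hi : i < l), bb i = b ⟨i, hi⟩ := fun i hi => by rw [hbb]; simp [hi]
  have has : aa l = 1 := by rw [haa]; simp
  have hbs : bb l = 0 := by rw [hbb]; simp
  have hcase : ∀ i ≤ l, (∃ hi : i < l, aa i = a ⟨i, hi⟩ ∧ bb i = b ⟨i, hi⟩) ∨ (i = l ∧ aa i = 1 ∧ bb i = 0) := by
    intro i hi
    rcases Nat.lt_or_ge i l with h3 | h3
    · exact Or.inl ⟨h3, hal i h3, hbl i h3⟩
    · have : i = l := le_antisymm hi h3
      exact Or.inr ⟨this, by rw [this]; exact has, by rw [this]; exact hbs⟩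
  have hA1 : ∀ i ≤ l, 1 ≤ aa i := by
    intro i hi
    rcases hcase i hi with ⟨h3, h4, -⟩ | ⟨-, h4, -⟩
    · rw [h4]; exact ha1 _
    · rw [h4]
  have hBS : ∀ i ≤ l, |(bb i : ℝ)| ≤ aa i * S₀ := by
    intro i hi
    rcases hcase i hi with ⟨h3, h4, h5⟩ | ⟨-, h4, h5⟩
    · rw [h4, h5]; exact hbS _
    · rw [h4, h5]
      simpa using hS₀0
  have hsys : Pool.Agent.Y848.UG.Sys l aa bb := by
    refine ⟨has, hbs, hA1, ?_, ?_⟩
    · rintro i hi i' hi' hne ⟨he1, he2⟩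
      rcases hcase i hi with ⟨h3, h4, h5⟩ | ⟨h3, h4, h5⟩ <;> rcases hcase i' hi' with ⟨h6, h7, h8⟩ | ⟨h6, h7, h8⟩
      · rw [h4, h7] at he1
        rw [h5, h8] at he2
        have h9 := hinj _ _ he1 he2
        rw [Fin.mk.injEq] at h9
        exact hne h9
      · exact hn1 ⟨i, h3⟩ ⟨by rw [← h4, he1, h7], by rw [← h5, he2, h8]⟩
      · exact hn1 ⟨i', h6⟩ ⟨by rw [← h7, ← he1, h4], by rw [← h8, ← he2, h5]⟩
      · omega
    · intro p hp
      obtain ⟨n, h3, h4⟩ := hadm p hp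
      refine ⟨n, fun i hi hd => ?_⟩
      rcases hcase i hi with ⟨h5, h6, h7⟩ | ⟨h5, h6, h7⟩
      · rw [h6, h7] at hd
        exact h4 ⟨i, h5⟩ hd
      · rw [h6, h7] at hd
        apply h3
        have : (p : ℤ) ∣ (n : ℤ) := by
          push_cast at hd
          rwa [one_mul, add_zero] at hd
        exact Int.natCast_dvd_natCast.1 this
  have hxE : (1 : ℝ) ≤ (x : ℝ) ^ E := one_le_pow₀ hxr.le
  obtain ⟨P, S, hP1, hP2, hS1, hS2, hsh⟩ := h1 x hx0 aa bb L hsys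
    (fun i hi => by
      rcases hcase i hi with ⟨h3, h4, -⟩ | ⟨-, h4, -⟩
      · rw [h4]; exact haE _
      · rw [h4]; push_cast; exact hxE)
    (fun i hi => by
      rcases hcase i hi with ⟨h3, -, h5⟩ | ⟨-, -, h5⟩
      · rw [h5]; exact hbE _
      · rw [h5]
        push_cast
        rw [abs_zero]
        linarith)
    hKL hL
    (by
      rcases hLC with h | h
      · exact Or.inl h
      · right
        intro i hi hai
        rw [hbl i hi]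
        rw [hal i hi] at hai
        exact h _ hai)
    (fun i hi n hn1 hn2 hz => by
      have h3 := hBS i hi
      have h4 : (bb i : ℝ) = -((aa i : ℝ) * n) := by
        have : bb i = -((aa i : ℤ) * n) := by linarith
        rw [this]
        push_cast
        ring
      rw [h4, abs_neg, abs_of_nonneg (by positivity)] at h3
      have ha : (0 : ℝ) < aa i := by exact_mod_cast hA1 i hi
      have h5 := le_of_mul_le_mul_left h3 ha
      have h6 : (x : ℝ) < 2 * n := by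
        have : x < 2 * n := by omega
        exact_mod_cast this
      linarith)
    (fun i hi i' hi' hne u t ht1 htx htW hut htu hz => by
      have h6 := Nat.le_of_dvd (by omega) htW
      have h7 : (0 : ℝ) < aa i := by exact_mod_cast hA1 i hi
      have h8 : (0 : ℝ) < aa i' := by exact_mod_cast hA1 i' hi'
      have h9 := abs_le.1 (hBS i hi)
      have h10 := abs_le.1 (hBS i' hi')
      have h11 : (2 : ℝ) * S₀ + 1 < u := by
        have h12 : (WW (δ / 8) x : ℝ) ≤ t := by exact_mod_cast h6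
        have h13 : (t : ℝ) ≤ u + K := by exact_mod_cast htu
        push_cast at hSW
        linarith
      have h14 : (aa i : ℝ) * aa i' * u + aa i * bb i' - aa i' * bb i = 0 := by exact_mod_cast hz
      have h15 : (aa i : ℝ) * (-(aa i' * S₀)) ≤ aa i * bb i' := mul_le_mul_of_nonneg_left h10.1 h7.le
      have h16 : (aa i' : ℝ) * bb i ≤ aa i' * (aa i * S₀) := mul_le_mul_of_nonneg_left h9.2 h8.le
      have h17 : 0 < (aa i : ℝ) * aa i' := mul_pos h7 h8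
      have h18 : (aa i : ℝ) * aa i' * (2 * S₀ + 1) < aa i * aa i' * u := mul_lt_mul_of_pos_left h11 h17
      nlinarith)
  refine ⟨P, S, hP1, hP2, hS1, fun n hn => ?_, fun S' hS' hS'c sh hb hb1 hb2 => ?_⟩
  · obtain ⟨h7, h8⟩ := hS2 n hn
    refine ⟨h7, fun t ht => ?_⟩
    obtain ⟨h9, h10⟩ := h8 t ht
    refine ⟨h9, fun j q hq hd => ?_⟩
    apply h10 j j.2 q hq
    rw [hal j j.2, hbl j j.2]
    exact hd
  · obtain ⟨D', hD1, hD2⟩ := hsh S' hS' hS'c sh hb hb1 (fun l => by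
        refine (hb2 l).trans ?_
        rw [le_div_iff₀ (by positivity), ← Real.rpow_natCast ((x : ℝ) ^ (δ / 8)), ← Real.rpow_mul (by linarith),
          ← Real.rpow_add (by linarith)]
        nth_rewrite 2 [← Real.rpow_one (x : ℝ)]
        apply Real.rpow_le_rpow_of_exponent_le hxr.le
        push_cast
        linarith)
    refine toFil _ D' hD1 le_rfl (fun e he => ?_)
    obtain ⟨h3, h4, h5⟩ := hD2 e he
    refine ⟨h3, h4, h5.trans ?_⟩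
    apply Nat.cast_le.2
    apply card_le_card
    intro n hn
    unfold solN at hn
    rw [mem_filter] at hn ⊢
    refine ⟨hn.1, fun i => ?_⟩
    have := hn.2 i
    rwa [mul_right_comm] at this

end Pool.Agent.H534.RT
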