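import Pool.Graph.R_pool_sql_team_seeded_1acbe0a2.Y848.UG.MainS

set_option autoImplicit false

/-! # Strings of primes with companions free of small prime factors, uniform in the forms; the sieve classes
are those of the forms (the proof of `Pool.Agent.Y848.UG.manyS`) -/

open Finset Filter Topology

namespace Pool.Agent.H534.RT

open Pool.Agent.Y848.UG
open Pool.Agent.H378R2 Pool.Agent.H387R2.MB
open Pool.Agent.H387R2 (Uni.WW Uni.WW_pos)
open Pool.Agent.Y843.HS (VV Pr)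

open Classical in
/-- many intervals, uniformly in the system -/
theorem manyF (k r : ℕ) : ∃ δ : ℝ, 0 < δ ∧ ∃ K1 H0 : ℕ, ∀ C : ℕ, ∀ A : ℝ, ∃ c1 : ℝ, 0 < c1 ∧
    ∀ᶠ X : ℝ in atTop, ∀ (a : ℕ → ℕ) (b : ℕ → ℤ) (L : ℕ), Sys r a b →
      (∀ l ≤ r, (a l : ℝ) ≤ X ^ A) → (∀ l ≤ r, |(b l : ℝ)| ≤ X ^ A) →
      (L : ℝ) ≤ 2 * (Real.log X / Real.log (Real.log X) ^ 2) → (L ≤ C ∨ ∀ l < r, a l = 1 → b l ≤ C ∨ (L : ℤ) < b l) →
      ∃ (S : Finset ℕ) (T : ℕ → ℕ) (P : Finset ℕ), (∀ i < K1 + 1, T i ≤ H0) ∧ S ⊆ Ioc ⌊X⌋₊ ⌊3 * X⌋₊ ∧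
        (∀ n ∈ S, GoodI (k + 1) r a b H0 L (Real.exp (δ * LL X)) n) ∧
        (∀ n ∈ S, (Icc 1 L).filter (fun t => (n + t).Prime) = P) ∧
        (∀ p : ℕ, p.Prime → (Zc (fc (K1 + 1) a (r * (K1 + 1) + K1 + 1)) (fh (K1 + 1) a b T (r * (K1 + 1) + K1 + 1)) p).card ≤
          r * (K1 + 1) + K1 + 1 ∧
          (Zc (fc (K1 + 1) a (r * (K1 + 1) + K1 + 1)) (fh (K1 + 1) a b T (r * (K1 + 1) + K1 + 1)) p).card < p) ∧
        (∀ n ∈ S, ∀ p : ℕ, p.Prime → (p : ℝ) ≤ Real.exp (δ * LL X) →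
          n % p ∉ Zc (fc (K1 + 1) a (r * (K1 + 1) + K1 + 1)) (fh (K1 + 1) a b T (r * (K1 + 1) + K1 + 1)) p) ∧
        (∀ z : ℕ, 3 ≤ z → c1 * X * ((Real.log z / Real.log X) ^ (r * (K1 + 1) + K1 + 1) *
          VV (Zc (fc (K1 + 1) a (r * (K1 + 1) + K1 + 1)) (fh (K1 + 1) a b T (r * (K1 + 1) + K1 + 1))) 0 z) ≤ (#S : ℝ)) := by
  obtain ⟨K1, hK1⟩ := posUG k
  obtain ⟨J, hJ⟩ : ∃ J, J = r * (K1 + 1) + K1 + 1 := ⟨_, rfl⟩
  obtain ⟨δ, hδ, hδ1, z1, hz1⟩ := hK1 (r * (K1 + 1)) 1 le_rfl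
  obtain ⟨Cb, hCb, z2, hz2⟩ := bad_x (r * (K1 + 1) + K1 + 1) hδ hδ1
  obtain ⟨Wy, hWyd⟩ : ∃ Wy, Wy = Uni.WW J := ⟨_, rfl⟩
  have hWy : 0 < Wy := by rw [hWyd]; exact Uni.WW_pos J
  obtain ⟨H0, hH0⟩ : ∃ H0, H0 = Wy * ((r + 1) * (r + 1) * ((K1 + 1) * (K1 + 1)) + 1) * (K1 + 1) := ⟨_, rfl⟩
  obtain ⟨CV, hCV, hVV⟩ := VV_le
  refine ⟨δ, hδ, K1, H0, fun C A => ?_⟩
  obtain ⟨H, hH⟩ : ∃ H, H = C + H0 := ⟨_, rfl⟩
  obtain ⟨Y, hY⟩ : ∃ Y, Y = z1 + z2 + 4 * H + J := ⟨_, rfl⟩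
  obtain ⟨A1, hA1⟩ : ∃ A1 : ℝ, A1 = max A 1 := ⟨_, rfl⟩
  have hA1a : A ≤ A1 := by rw [hA1]; exact le_max_left _ _
  have hA1b : 1 ≤ A1 := by rw [hA1]; exact le_max_right _ _
  obtain ⟨c0, hc0, hz1⟩ := hz1 (A1 + 2)
  have hWWpos : (0:ℝ) < Uni.WW Y := by exact_mod_cast Uni.WW_pos Y
  refine ⟨c0 / (2 * 2 ^ (K1 + 1) * 20 * CV ^ J * Uni.WW Y), by positivity, ?_⟩
  have hbad := hz2 Y (by omega) ((A1 + 2) * J)
  have hllog : Tendsto (fun X : ℝ => Real.log (Real.log X)) atTop atTop := Real.tendsto_log_atTop.comp Real.tendsto_log_atTop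
  have hgs := gs_pf z1 Y (by omega) (A1 + (2 * A1 + 2) * J)
  have hgs2 := gs_pf z2 Y (by omega) (A1 + (2 * A1 + 2) * J)
  have hl3 : ∀ᶠ X : ℝ in atTop, (Uni.WW Y : ℝ) ≤ Real.log X ^ 3 := by
    filter_upwards [Real.tendsto_log_atTop.eventually_ge_atTop (Uni.WW Y : ℝ),
      Real.tendsto_log_atTop.eventually_ge_atTop 1] with X h1 h2
    refine h1.trans ?_
    exact le_self_pow₀ h2 (by norm_num)
  filter_upwards [hz1, hbad, hgs, hgs2, hl3, eventually_ge_atTop 4, eventually_ge_atTop ((H : ℝ) + 1),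
    eventually_ge_atTop ((H : ℝ) ^ 2), QQ_ge J, LL_tendsto.eventually_ge_atTop 1,
    Real.tendsto_log_atTop.eventually_ge_atTop (40 * 2 ^ (K1 + 1) / c0), hllog.eventually_ge_atTop (4 * Cb / c0 + 1),
    MPhi_big] with X h1 h2 h3 h3' h4 h5 h6 h7 h8 h9 h10 h11 h12
  intro a b L S ha hb hLX hLC
  have hX0 : 0 < X := by linarith
  have hX1 : 1 ≤ X := by linarith
  have ha' : ∀ l ≤ r, (a l : ℝ) ≤ X ^ A1 := fun l hl => (ha l hl).trans (Real.rpow_le_rpow_of_exponent_le hX1 hA1a)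
  have hb' : ∀ l ≤ r, |(b l : ℝ)| ≤ X ^ A1 := fun l hl => (hb l hl).trans (Real.rpow_le_rpow_of_exponent_le hX1 hA1a)
  obtain ⟨v, hv1, hv2, hv3⟩ := exists_v S (K1 + 1) Wy hWy
  obtain ⟨T, hT⟩ : ∃ T : ℕ → ℕ, ∀ i, T i = Wy * v * (i + 1) := ⟨_, fun _ => rfl⟩
  have hTH0 : ∀ i < K1 + 1, T i ≤ H0 := by
    intro i hi
    rw [hT, hH0]
    apply Nat.mul_le_mul (Nat.mul_le_mul_left _ hv2) (by omega)
  have hTH : ∀ i < K1 + 1, T i ≤ H := fun i hi => (hTH0 i hi).trans (by omega)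
  have hP : Prm (fc (K1 + 1) a (r * (K1 + 1) + K1 + 1)) (fh (K1 + 1) a b T (r * (K1 + 1) + K1 + 1)) := by
    apply prm_cfg S
    intro l hl l' hl' i hi i' hi' hii haa
    rw [hT, hT]
    exact hv3 l hl l' hl' i hi i' hi' hii haa
  obtain ⟨a0, ha0⟩ := class_cfg S K1 J Y T (by omega) (by
    intro i p hp hpJ
    rw [hT, hWyd]
    exact (((dvd_WW hp).2 hpJ).mul_right _).mul_right _) hP
  obtain ⟨c, hc⟩ : ∃ c, c = fc (K1 + 1) a (r * (K1 + 1) + K1 + 1) := ⟨_, rfl⟩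
  obtain ⟨h, hh⟩ : ∃ h, h = fh (K1 + 1) a b T (r * (K1 + 1) + K1 + 1) := ⟨_, rfl⟩
  have hgo := @good_ofS k r K1 H H0 L Y a b v Wy δ X T hT (Nat.mul_pos hWy hv1) hTH0 S.ar S.br hP
  rw [← hc, ← hh] at hgo hP
  have ha0' : ∀ n : ℕ, n ≡ a0 [MOD Uni.WW Y] → ∀ j, ∀ p : ℕ, p.Prime → p ≤ Y → ¬ (p : ℤ) ∣ (c j : ℤ) * (n : ℤ) + h j := by
    rw [hc, hh]; exact ha0
  obtain ⟨E, hE⟩ : ∃ E, E = EE' Y c h H := ⟨_, rfl⟩
  have hF : FS (Uni.WW Y) E c h := by rw [hE]; exact FS_EE hP (by omega)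
  -- sizes
  have hXA : 1 ≤ X ^ A1 := Real.one_le_rpow hX1 (by linarith)
  have hcA : ∀ j, (c j : ℝ) ≤ X ^ A1 := by
    intro j
    rw [hc]
    exact ha' _ (div_le_r j)
  have hhA : ∀ j, |(h j : ℝ)| ≤ X ^ (A1 + 1) := by
    intro j
    rw [hh]
    unfold fh
    push_cast
    refine (abs_add_le _ _).trans ?_
    rw [abs_mul, Nat.abs_cast, Nat.abs_cast]
    have e1 := hb' _ (div_le_r j)
    have e2 := ha' _ (div_le_r j)
    have e3 : (T ((j : ℕ) % (K1 + 1)) : ℝ) ≤ H := by exact_mod_cast hTH _ (Nat.mod_lt _ (by omega))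
    calc |(b ((j : ℕ) / (K1 + 1)) : ℝ)| + (a ((j : ℕ) / (K1 + 1)) : ℝ) * (T ((j : ℕ) % (K1 + 1)) : ℝ) ≤
          X ^ A1 + X ^ A1 * H := by gcongr
      _ = X ^ A1 * (H + 1) := by ring
      _ ≤ X ^ A1 * X := by gcongr
      _ = X ^ (A1 + 1) := by rw [Real.rpow_add_one hX0.ne']
  have hDA : ∀ i j, (((Dt c h i j).natAbs : ℕ) : ℝ) ≤ X ^ (2 * A1 + 2) := by
    intro i j
    rw [Nat.cast_natAbs]
    unfold Dt
    push_cast
    refine (abs_sub _ _).trans ?_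
    rw [abs_mul, abs_mul, Nat.abs_cast, Nat.abs_cast]
    calc (c i : ℝ) * |(h j : ℝ)| + (c j : ℝ) * |(h i : ℝ)| ≤ X ^ A1 * X ^ (A1 + 1) + X ^ A1 * X ^ (A1 + 1) := by
          have := hcA i; have := hcA j; have := hhA i; have := hhA j
          gcongr
      _ = 2 * X ^ (2 * A1 + 1) := by
          rw [← Real.rpow_add hX0, ← two_mul]; congr 2; ring
      _ ≤ X * X ^ (2 * A1 + 1) := by
          apply mul_le_mul_of_nonneg_right (by linarith) (Real.rpow_nonneg hX0.le _)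
      _ = X ^ (2 * A1 + 2) := by
          have : 2 * A1 + 2 = (2 * A1 + 1) + 1 := by ring
          rw [this, Real.rpow_add_one hX0.ne' (2 * A1 + 1)]; ring
  have hNN : ∀ j, (NN c h H j : ℝ) ≤ X ^ (A1 + (2 * A1 + 2) * J) := by
    intro j
    have e1 := NN_le hXA (Real.one_le_rpow hX1 (by linarith : 0 ≤ 2 * A1 + 2)) hcA hDA H j
    refine e1.trans (le_of_eq ?_)
    have e2 : X ^ ((2 * A1 + 2) * (J : ℝ)) = (X ^ (2 * A1 + 2)) ^ (r * (K1 + 1) + K1 + 1) := by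
      rw [Real.rpow_mul hX0.le (2 * A1 + 2) (J : ℝ), Real.rpow_natCast, hJ]
    rw [Real.rpow_add hX0 A1 ((2 * A1 + 2) * (J : ℝ)), e2]
  have hGS : ∀ j, GS X z1 (E j) := by
    intro j
    rw [hE]
    exact h3 _ (NN_pos hP H j) (hNN j)
  have hGS2 : ∀ j, GS X z2 (E j) := by
    intro j
    rw [hE]
    exact h3' _ (NN_pos hP H j) (hNN j)
  have hlog0 : 0 < Real.log X := by
    unfold LL at h9
    linarith
  have hll1 : 1 ≤ Real.log (Real.log X) := by
    have : 0 < 4 * Cb / c0 := by positivity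
    linarith
  have hLX2 : (L : ℝ) ≤ X := by
    have e1 : Real.log X / Real.log (Real.log X) ^ 2 ≤ Real.log X := by
      apply div_le_self hlog0.le
      exact one_le_pow₀ hll1
    have e2 : Real.log X ≤ X / 2 := by
      have e3 := Real.log_le_log (by positivity) (Real.add_one_le_exp (Real.log X / 2)) |>.trans_eq (Real.log_exp _)
      have e4 : Real.log X = 2 * (Real.log X / 2) := by ring
      have e5 := Real.quadratic_le_exp_of_nonneg hlog0.le
      rw [Real.exp_log hX0] at e5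
      nlinarith
    linarith
  have hxA : ∀ x : ℕ, x ≤ L → ∀ j, |((h j - c j * x : ℤ) : ℝ)| ≤ X ^ (A1 + 2) := by
    intro x hx j
    push_cast
    refine (abs_sub _ _).trans ?_
    rw [abs_mul, Nat.abs_cast, Nat.abs_cast]
    have e3 : (x : ℝ) ≤ X := by
      have : (x : ℝ) ≤ L := by exact_mod_cast hx
      linarith
    calc |(h j : ℝ)| + (c j : ℝ) * (x : ℝ) ≤ X ^ (A1 + 1) + X ^ A1 * X := by
          have := hcA j; have := hhA j
          gcongr
      _ = 2 * X ^ (A1 + 1) := by rw [Real.rpow_add_one hX0.ne']; ring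
      _ ≤ X * X ^ (A1 + 1) := by
          apply mul_le_mul_of_nonneg_right (by linarith) (Real.rpow_nonneg hX0.le _)
      _ = X ^ (A1 + 2) := by
          have : A1 + 2 = (A1 + 1) + 1 := by ring
          rw [this, Real.rpow_add_one hX0.ne' (A1 + 1)]; ring
  have hsp : ∀ j, (c j = 1 ∧ 0 ≤ h j ∧ h j ≤ H) → Sp c h H j := by
    intro j hj
    refine ⟨hj.1, ?_⟩
    rw [abs_of_nonneg hj.2.1]
    linarith [hj.2.2]
  have hPF : ∀ j, (c j = 1 ∧ 0 ≤ h j ∧ h j ≤ H) → PF (Uni.WW Y) E c h a0 j (h j).toNat ∧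
      (((h j).toNat : ℕ) : ℝ) ≤ Real.sqrt X ∧ ((Uni.WW Y).totient : ℝ) = (Uni.WW Y : ℕ) * BE (E j) := by
    intro j hj
    refine ⟨?_, ?_, ?_⟩
    · rw [hE]
      exact PF_EE hP (by omega) (hsp j hj) hj.2.1 (ha0' a0 (Nat.ModEq.refl _) j)
    · have e1 : (((h j).toNat : ℕ) : ℝ) ≤ H := by
        have : (h j).toNat ≤ H := by
          rw [Int.toNat_le]; exact hj.2.2
        exact_mod_cast this
      refine e1.trans (Real.le_sqrt_of_sq_le h7)
    · rw [hE, EE_sp (hsp j hj)]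
      exact Pool.Agent.Y848.MS.tot_eq _
  have hpa : ∀ j : Fin (r * (K1 + 1) + K1 + 1), r * (K1 + 1) ≤ (j : ℕ) → c j = 1 ∧ 0 ≤ h j ∧ h j ≤ H := by
    intro j hj
    have e := div_eq_r j hj
    rw [hc, hh]
    unfold fc fh
    rw [e, S.ar, S.br]
    have := hTH _ (Nat.mod_lt (j : ℕ) (by omega : 0 < K1 + 1))
    refine ⟨rfl, ?_, ?_⟩
    · push_cast; positivity
    · push_cast
      have : (T ((j : ℕ) % (K1 + 1)) : ℤ) ≤ H := by exact_mod_cast this
      linarith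
  obtain ⟨Cs, hCs⟩ : ∃ Cs : Finset (Fin (r * (K1 + 1) + K1 + 1)), Cs = univ.filter (fun j : Fin (r * (K1 + 1) + K1 + 1) =>
    (j : ℕ) < r * (K1 + 1) ∧ c j = 1 ∧ 1 ≤ h j ∧ h j ≤ H) := ⟨_, rfl⟩
  rw [← hCs, ← hE] at hgo
  have hfar : ∀ j : Fin (r * (K1 + 1) + K1 + 1), (j : ℕ) < r * (K1 + 1) → c j = 1 → h j ≤ H ∨ (L : ℤ) < h j := by
    intro j hj hj1
    rcases hLC with hLC | hLC
    · by_cases hjL : (L : ℤ) < h j
      · exact Or.inr hjL
      · left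
        have : (L : ℤ) ≤ H := by exact_mod_cast (by omega : L ≤ H)
        omega
    · have e1 := div_lt_r j hj
      rw [hc] at hj1
      have e2 := hLC _ e1 hj1
      have e3 : h j = b ((j : ℕ) / (K1 + 1)) + T ((j : ℕ) % (K1 + 1)) := by
        unfold fc at hj1
        rw [hh]
        unfold fh
        rw [hj1]
        push_cast
        ring
      have e4 : (T ((j : ℕ) % (K1 + 1)) : ℤ) ≤ H0 := by
        exact_mod_cast hTH0 _ (Nat.mod_lt (j : ℕ) (by omega : 0 < K1 + 1))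
      have e5 : (0 : ℤ) ≤ T ((j : ℕ) % (K1 + 1)) := by positivity
      rw [e3, hH]
      push_cast
      rcases e2 with e2 | e2
      · left; linarith
      · right; linarith
  have k1 := h1 (Uni.WW Y) (Uni.WW Y) E a0 c h (fun j => (h j).toNat) Cs hGS (by ring)
    (WW_sqf Y) h4 hF
    (by
      intro j hj
      rw [hCs, mem_filter] at hj
      exact hj.2.1)
    (by
      intro j hj
      rcases hj with hj | hj
      · rw [hCs, mem_filter] at hj
        exact hPF j ⟨hj.2.2.1, by linarith [hj.2.2.2.1], hj.2.2.2.2⟩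
      · exact hPF j (hpa j (mem_PA.1 hj)))
    (by
      intro j n hn
      push_cast
      refine (abs_add_le _ _).trans ?_
      rw [abs_mul, Nat.abs_cast, Nat.abs_cast]
      calc (c j : ℝ) * (n : ℝ) + |(h j : ℝ)| ≤ X ^ A1 * (3 * X) + X ^ (A1 + 1) := by
            have := hcA j; have := hhA j
            gcongr
        _ = 4 * X ^ (A1 + 1) := by rw [Real.rpow_add_one hX0.ne']; ring
        _ ≤ X * X ^ (A1 + 1) := by
            apply mul_le_mul_of_nonneg_right h5 (Real.rpow_nonneg hX0.le _)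
        _ = X ^ (A1 + 2) := by
            have : A1 + 2 = (A1 + 1) + 1 := by ring
            rw [this, Real.rpow_add_one hX0.ne' (A1 + 1)]; ring)
  -- the bad shifts
  obtain ⟨Xs, hXs⟩ : ∃ Xs, Xs = (Icc 1 L).filter (fun x : ℕ => ∀ j, c j = 1 → h j ≠ x) := ⟨_, rfl⟩
  have k2 : ∀ x ∈ Xs, ∑ n ∈ Icc 1 ⌊3 * X⌋₊, nu X (Uni.WW Y) a0 n *
        (if (∀ j, RgG δ X (E j) (c j * (n : ℤ) + h j)) ∧ (n + x).Prime then 1 else 0) ≤
        Cb * (Real.log (Real.log X) / Real.log X) * QG X (Uni.WW Y) E := by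
    intro x hx
    rw [hXs, mem_filter, mem_Icc] at hx
    refine h2 E a0 x c h hGS2 hP hF hx.2 ?_
    push_cast
    calc ∏ j, (((h j - c j * x).natAbs : ℕ) : ℝ) ≤ ∏ _j : Fin (r * (K1 + 1) + K1 + 1), X ^ (A1 + 2) := by
          apply Finset.prod_le_prod (fun _ _ => Nat.cast_nonneg _)
          intro j _
          rw [Nat.cast_natAbs, Int.cast_abs]
          exact hxA x hx.1.2 j
      _ = X ^ ((A1 + 2) * J) := by
          rw [prod_const, card_univ, Fintype.card_fin, Real.rpow_mul hX0.le, Real.rpow_natCast, hJ]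
  have hLB : 0 < LB X E := LB_pos (by linarith) fun j => (hGS j).pr
  have hM0 : 0 ≤ MPhi X := MPhi_nonneg X
  have hWW0 : (0:ℝ) < Uni.WW Y := by exact_mod_cast Uni.WW_pos Y
  have hQ0 : 0 ≤ QG X (Uni.WW Y) E := by unfold QG; positivity
  have k3 : ∑ x ∈ Xs, ∑ n ∈ Icc 1 ⌊3 * X⌋₊, nu X (Uni.WW Y) a0 n *
        (if (∀ j, RgG δ X (E j) (c j * (n : ℤ) + h j)) ∧ (n + x).Prime then 1 else 0) ≤ c0 / 2 * QG X (Uni.WW Y) E := by
    refine (sum_le_sum k2).trans ?_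
    rw [sum_const, nsmul_eq_mul]
    have e1 : ((#Xs : ℕ) : ℝ) ≤ L := by
      have : #Xs ≤ L := by
        rw [hXs]
        refine (card_filter_le _ _).trans ?_
        rw [Nat.card_Icc]; omega
      exact_mod_cast this
    have e2 : 0 ≤ Cb * (Real.log (Real.log X) / Real.log X) * QG X (Uni.WW Y) E := by
      have : 0 ≤ Real.log (Real.log X) / Real.log X := div_nonneg (by linarith) hlog0.le
      positivity
    calc (#Xs : ℝ) * (Cb * (Real.log (Real.log X) / Real.log X) * QG X (Uni.WW Y) E) ≤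
        2 * (Real.log X / Real.log (Real.log X) ^ 2) * (Cb * (Real.log (Real.log X) / Real.log X) * QG X (Uni.WW Y) E) := by
          apply mul_le_mul_of_nonneg_right (by linarith) e2
      _ = 2 * Cb / Real.log (Real.log X) * QG X (Uni.WW Y) E := by
          have : Real.log (Real.log X) ≠ 0 := by linarith
          field_simp
      _ ≤ c0 / 2 * QG X (Uni.WW Y) E := by
          apply mul_le_mul_of_nonneg_right _ hQ0
          rw [div_le_iff₀ (by linarith)]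
          have e3 : 4 * Cb / c0 ≤ Real.log (Real.log X) := by linarith
          rw [div_le_iff₀ hc0] at e3
          linarith
  obtain ⟨G, hG⟩ : ∃ G, G = (Ioc ⌊X⌋₊ ⌊3 * X⌋₊).filter (fun n => GoodI (k + 1) r a b H0 L (Real.exp (δ * LL X)) n ∧
      (∀ j, ∀ p ∈ PS δ X, ¬ (p : ℤ) ∣ (c j : ℤ) * (n : ℤ) + h j) ∧
      (Icc 1 L).filter (fun t => (n + t).Prime) ⊆ (range (K1 + 1)).image T) := ⟨_, rfl⟩
  have k4 : ∑ n ∈ Icc 1 ⌊3 * X⌋₊, nu X (Uni.WW Y) a0 n *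
      (if GdG k δ X E c h (fun j => (h j).toNat) Cs n then 1 else 0) ≤
      ∑ n ∈ Icc 1 ⌊3 * X⌋₊, (∑ x ∈ Xs, nu X (Uni.WW Y) a0 n *
        (if (∀ j, RgG δ X (E j) (c j * (n : ℤ) + h j)) ∧ (n + x).Prime then 1 else 0) + (if n ∈ G then 1 else 0)) := by
    apply sum_le_sum
    intro n hn
    rw [mem_Icc] at hn
    have hnn : ∀ x, 0 ≤ nu X (Uni.WW Y) a0 n *
        (if (∀ j, RgG δ X (E j) (c j * (n : ℤ) + h j)) ∧ (n + x).Prime then (1:ℝ) else 0) := by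
      intro x
      apply mul_nonneg (nu_nonneg _ _ _ _)
      split_ifs <;> norm_num
    have hsn := sum_nonneg (s := Xs) (fun x _ => hnn x)
    by_cases hg : GdG k δ X E c h (fun j => (h j).toNat) Cs n
    · rw [if_pos hg, mul_one]
      by_cases hn0 : nu X (Uni.WW Y) a0 n = 0
      · rw [hn0]
        rw [hn0] at hsn
        have : (0:ℝ) ≤ if n ∈ G then 1 else 0 := by split_ifs <;> norm_num
        linarith
      · have hna : n ≡ a0 [MOD Uni.WW Y] := by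
          by_contra hcon
          apply hn0
          unfold nu
          rw [if_neg hcon]
        have hnX : ⌊X⌋₊ < n := by
          rw [Nat.floor_lt hX0.le]
          by_contra hcon
          push Not at hcon
          apply hn0
          unfold nu
          rw [Phi_eq_zero_of_le (by positivity) (by rw [div_le_one hX0]; exact hcon)]
          split_ifs <;> rfl
        by_cases hbx : ∃ x ∈ Xs, (n + x).Prime
        · obtain ⟨x, hx, hxp⟩ := hbx
          have e1 : nu X (Uni.WW Y) a0 n ≤ ∑ x ∈ Xs, nu X (Uni.WW Y) a0 n *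
              (if (∀ j, RgG δ X (E j) (c j * (n : ℤ) + h j)) ∧ (n + x).Prime then 1 else 0) := by
            refine le_trans (le_of_eq ?_) (single_le_sum (fun x _ => hnn x) hx)
            rw [if_pos ⟨hg.2.2, hxp⟩, mul_one]
          have : (0:ℝ) ≤ if n ∈ G then 1 else 0 := by split_ifs <;> norm_num
          linarith
        · push Not at hbx
          have hmem : n ∈ G := by
            rw [hG, mem_filter, mem_Ioc]
            refine ⟨⟨hnX, hn.2⟩, hgo (ha0' n hna) hg hfar ?_⟩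
            intro x hx hxj
            apply hbx x
            rw [hXs, mem_filter]
            exact ⟨hx, hxj⟩
          rw [if_pos hmem]
          have : nu X (Uni.WW Y) a0 n ≤ 1 := by
            unfold nu
            split_ifs
            · exact Phi_le_one _
          linarith
    · rw [if_neg hg, mul_zero]
      have : (0:ℝ) ≤ if n ∈ G then 1 else 0 := by split_ifs <;> norm_num
      linarith
  rw [sum_add_distrib, sum_comm] at k4
  have k5 : ∑ n ∈ Icc 1 ⌊3 * X⌋₊, (if n ∈ G then (1:ℝ) else 0) ≤ (#G : ℝ) := by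
    rw [← sum_filter, sum_const, nsmul_eq_mul, mul_one]
    exact_mod_cast card_le_card (fun n hn => (mem_filter.1 hn).2)
  have k6 : c0 / 2 * QG X (Uni.WW Y) E ≤ (#G : ℝ) := by linarith
  have k7 := h8 (Uni.WW Y) ∅ (Uni.WW_pos Y) h4 (by simp)
  have k8 : QQ J X (Uni.WW Y) ∅ ≤ QG X (Uni.WW Y) E := by
    rw [hJ]
    exact QQ_le_QG (by linarith) fun j => (hGS j).pr
  -- the pattern
  obtain ⟨P, hP1, hP2⟩ := Finset.exists_le_card_fiber_of_nsmul_le_card_of_maps_to (s := G)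
    (t := ((range (K1 + 1)).image T).powerset) (f := fun n => (Icc 1 L).filter (fun t => (n + t).Prime))
    (b := (#G : ℝ) / 2 ^ (K1 + 1))
    (by
      intro n hn
      rw [hG, mem_filter] at hn
      exact mem_powerset.2 hn.2.2.2) (powerset_nonempty _)
    (by
      rw [card_powerset, nsmul_eq_mul]
      have e1 : #((range (K1 + 1)).image T) ≤ K1 + 1 := card_image_le.trans (by rw [card_range])
      have e2 : ((2 ^ #((range (K1 + 1)).image T) : ℕ) : ℝ) ≤ 2 ^ (K1 + 1) := by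
        exact_mod_cast Nat.pow_le_pow_right (by norm_num) e1
      calc ((2 ^ #((range (K1 + 1)).image T) : ℕ) : ℝ) * ((#G : ℝ) / 2 ^ (K1 + 1)) ≤
          2 ^ (K1 + 1) * ((#G : ℝ) / 2 ^ (K1 + 1)) := by gcongr
        _ = #G := by field_simp)
  obtain ⟨S', hS'⟩ : ∃ S', S' = G.filter (fun n => (Icc 1 L).filter (fun t => (n + t).Prime) = P) := ⟨_, rfl⟩
  rw [← hS'] at hP2
  have hSG : ∀ n ∈ S', n ∈ G ∧ (Icc 1 L).filter (fun t => (n + t).Prime) = P := by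
    intro n hn
    rw [hS', mem_filter] at hn
    exact hn
  have hGm : ∀ n ∈ G, n ∈ Ioc ⌊X⌋₊ ⌊3 * X⌋₊ ∧ GoodI (k + 1) r a b H0 L (Real.exp (δ * LL X)) n ∧
      (∀ j, ∀ p ∈ PS δ X, ¬ (p : ℤ) ∣ (c j : ℤ) * (n : ℤ) + h j) := by
    intro n hn
    rw [hG, mem_filter] at hn
    exact ⟨hn.1, hn.2.1, hn.2.2.1⟩
  have k9 : c0 / (2 * 2 ^ (K1 + 1)) * QG X (Uni.WW Y) E ≤ (#S' : ℝ) := by
    refine le_trans ?_ hP2
    rw [le_div_iff₀ (by positivity)]
    calc c0 / (2 * 2 ^ (K1 + 1)) * QG X (Uni.WW Y) E * 2 ^ (K1 + 1) = c0 / 2 * QG X (Uni.WW Y) E := by field_simp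
      _ ≤ _ := k6
  refine ⟨S', T, P, hTH0, fun n hn => (hGm n (hSG n hn).1).1, fun n hn => (hGm n (hSG n hn).1).2.1,
    fun n hn => (hSG n hn).2, ?_⟩
  rw [← hc, ← hh]
  refine ⟨fun p hp => ⟨?_, ?_⟩, fun n hn p hp hpX hmem => ?_, fun z hz => ?_⟩
  · exact Zc_card_le hP hp
  · by_cases hpY : p ≤ Y
    · have e1 : Zc c h p ⊆ (range p).erase (a0 % p) := by
        intro u hu
        rw [mem_erase, mem_range]
        refine ⟨?_, Zc_lt u hu⟩
        rintro rfl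
        rw [mem_Zc hp.pos] at hu
        obtain ⟨j, hj⟩ := hu
        exact ha0' a0 (Nat.ModEq.refl _) j p hp hpY hj
      have e2 := card_le_card e1
      rw [card_erase_of_mem (mem_range.2 (Nat.mod_lt _ hp.pos)), card_range] at e2
      have := hp.pos
      omega
    · have e1 : #(Zc c h p) ≤ r * (K1 + 1) + K1 + 1 := Zc_card_le hP hp
      omega
  · rw [mem_Zc hp.pos] at hmem
    obtain ⟨j, hj⟩ := hmem
    exact (hGm n (hSG n hn).1).2.2 j p (mem_PS.2 ⟨hp, hpX⟩) hj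
  · refine le_trans ?_ k9
    have hpe : (Real.log z / Real.log X) ^ (r * (K1 + 1) + K1 + 1) = (Real.log z / Real.log X) ^ J := by rw [hJ]
    rw [hpe]
    have hz0 : 0 < Real.log (z : ℝ) := Real.log_pos (by exact_mod_cast (by omega : 1 < z))
    have e1 := hVV (r * (K1 + 1) + K1 + 1) (Uni.WW Y) E c h hF (fun j => (hGS j).pr) z hz
    have eJ : (CV / Real.log (z : ℝ)) ^ (r * (K1 + 1) + K1 + 1) = (CV / Real.log (z : ℝ)) ^ J := by rw [hJ]
    rw [eJ] at e1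
    obtain ⟨PB, hPB⟩ : ∃ PB : ℝ, PB = ∏ j, (1 / BE (E j)) := ⟨_, rfl⟩
    rw [← hPB] at e1
    have hPB0 : 0 ≤ PB := by
      rw [hPB]
      exact prod_nonneg fun j _ => by
        have := BE_pos (hGS j).pr
        positivity
    have hL0 : 0 < LL X := by linarith
    have e2 : QG X (Uni.WW Y) E = MPhi X * (1 / (Uni.WW Y : ℝ)) * ((1 / LL X ^ J) * PB) := by
      unfold QG LB
      rw [hPB]
      have e3 : (1 : ℝ) / ∏ j, (LL X * BE (E j)) = (1 / LL X ^ J) * ∏ j, (1 / BE (E j)) := by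
        rw [prod_mul_distrib, prod_const, card_univ, Fintype.card_fin, hJ, one_div, mul_inv, one_div]
        congr 1
        rw [← prod_inv_distrib]
        apply prod_congr rfl
        intro j _
        rw [one_div]
      rw [e3]
    rw [e2]
    exact calc1 hc0 hCV hWWpos hX0 h12 hPB0 hL0 (by unfold LL; linarith) hz0 e1

end Pool.Agent.H534.RT
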