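import Pool.Agent.H534.RT.Base

/-!
# A general form of the engine: the tuples of moduli with a common prime factor
-/

set_option autoImplicit false

open Finset

namespace Pool.Agent.H534.RT

open Pool.Agent.TH423.SH (PS PIj)
open Pool.Agent.Y917.PSP (TT Dl wt mem_TT Dl_pos div_bound)
open Pool.Agent.Y677.RSZ hiding Sys V_pos fac_pos V_lower
open Pool.Agent.Y814.RSZ (ds ds_eq ds_sq cn Dl_primes Dl_sqf mem_PS Cl cn_eq per_dvd)
open Pool.Agent.Y833.RSZ (card_shift)
open Pool.Agent.H534.RS (card_per cond_per bdK)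

theorem bad_card (g W z N H b M₀ L m : ℕ) (F : ℤ → ℤ) (hS : SysU g H W F) (t : Fin m → ℕ)
    (hinj : Function.Injective t) (hW1 : 1 ≤ W) (hWNH : W * N ≤ H) (hWz : ∀ p : ℕ, p.Prime → p ∣ W → p ≤ z)
    (ht : ∀ i, 1 ≤ t i ∧ t i ≤ N) (E : ℕ) (hE : ∀ n, z ^ n ≤ H ^ g → n ≤ E) :
    (bdK F W z b M₀ L t).card ≤ m ^ 2 * (E * (g * (L / z + 1))) := by
  classical
  obtain ⟨Δ, hΔ⟩ := hS.coll
  set hh : Fin m × Fin m → ℕ := fun q => W * ((t q.1 : ℤ) - (t q.2 : ℤ)).natAbs with hhh
  have hhpos : ∀ q ∈ (univ : Finset (Fin m)).offDiag, 1 ≤ hh q ∧ hh q ≤ H ∧ W ∣ hh q := by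
    intro q hq
    rw [mem_offDiag] at hq
    have h1 : 1 ≤ ((t q.1 : ℤ) - (t q.2 : ℤ)).natAbs := by
      rw [Nat.one_le_iff_ne_zero]
      intro h
      apply hq.2.2
      apply hinj
      omega
    have h2 : ((t q.1 : ℤ) - (t q.2 : ℤ)).natAbs ≤ N := by
      have := ht q.1
      have := ht q.2
      omega
    refine ⟨?_, ?_, ?_⟩
    · calc 1 ≤ W := hW1
        _ = W * 1 := (mul_one W).symm
        _ ≤ _ := Nat.mul_le_mul_left W h1
    · exact (Nat.mul_le_mul_left W h2).trans hWNH
    · exact Dvd.intro _ rfl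
  have hsub : bdK F W z b M₀ L t ⊆ (univ : Finset (Fin m)).offDiag.biUnion (fun q =>
      ((Δ (hh q)).primeFactors.filter (fun p => z < p)).biUnion (fun p =>
        (Ioc M₀ (M₀ + L)).filter (fun K => (p : ℤ) ∣ F ((W * (K + t q.1) + b : ℕ) : ℤ)))) := by
    intro K hK
    unfold bdK at hK
    rw [mem_filter] at hK
    obtain ⟨hK1, i, j, hij, p, hp, hzp, h1, h2⟩ := hK
    have hq : (i, j) ∈ (univ : Finset (Fin m)).offDiag := by
      rw [mem_offDiag]; exact ⟨mem_univ _, mem_univ _, hij⟩
    rw [mem_biUnion]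
    refine ⟨(i, j), hq, ?_⟩
    rw [mem_biUnion]
    refine ⟨p, ?_, ?_⟩
    · rw [mem_filter, Nat.mem_primeFactors]
      obtain ⟨q1, q2, q3⟩ := hhpos (i, j) hq
      obtain ⟨h4, _, h3⟩ := hΔ (hh (i, j)) q1 q2 q3
      refine ⟨⟨hp, ?_, by omega⟩, hzp⟩
      rcases le_total (t i) (t j) with hle | hle
      · apply h3 p hp _ h1
        have e : ((W * (K + t i) + b : ℕ) : ℤ) + (hh (i, j) : ℤ) =
            ((W * (K + t j) + b : ℕ) : ℤ) := by
          simp only [hhh]
          have e1 : ((((t i : ℤ) - (t j : ℤ)).natAbs : ℕ) : ℤ) = (t j : ℤ) - t i := by omega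
          push_cast [e1]
          ring
        rw [e]
        exact h2
      · apply h3 p hp _ h2
        have e : ((W * (K + t j) + b : ℕ) : ℤ) + (hh (i, j) : ℤ) =
            ((W * (K + t i) + b : ℕ) : ℤ) := by
          simp only [hhh]
          have e1 : ((((t i : ℤ) - (t j : ℤ)).natAbs : ℕ) : ℤ) = (t i : ℤ) - t j := by omega
          push_cast [e1]
          ring
        rw [e]
        exact h1
    · rw [mem_filter]
      exact ⟨hK1, h1⟩
  refine (card_le_card hsub).trans (card_biUnion_le.trans ?_)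
  have hone : ∀ q ∈ (univ : Finset (Fin m)).offDiag,
      (((Δ (hh q)).primeFactors.filter (fun p => z < p)).biUnion (fun p =>
        (Ioc M₀ (M₀ + L)).filter (fun K => (p : ℤ) ∣ F ((W * (K + t q.1) + b : ℕ) : ℤ)))).card ≤
      E * (g * (L / z + 1)) := by
    intro q hq
    obtain ⟨q1, q2, q3⟩ := hhpos q hq
    obtain ⟨h4, h5, _⟩ := hΔ (hh q) q1 q2 q3
    refine card_biUnion_le.trans ?_
    have h6 : ∀ p ∈ (Δ (hh q)).primeFactors.filter (fun p => z < p),
        ((Ioc M₀ (M₀ + L)).filter (fun K => (p : ℤ) ∣ F ((W * (K + t q.1) + b : ℕ) : ℤ))).card ≤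
        g * (L / z + 1) := by
      intro p hp
      rw [mem_filter] at hp
      have hpp := Nat.prime_of_mem_primeFactors hp.1
      have hpW : ¬ p ∣ W := fun h => by
        have := hWz p hpp h
        omega
      have h7 := card_per p hpp.pos (fun K => (p : ℤ) ∣ F ((W * (K + t q.1) + b : ℕ) : ℤ))
        (fun K => cond_per (hS.per p hpp) W b (t q.1) K) g (by
          have := card_shift hpp (hS.per p hpp) W b (t q.1) hpW
          have h8 := (hS.root p hpp).1
          rw [← this] at h8
          convert h8) M₀ L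
      refine le_trans (le_of_eq ?_) (h7.trans ?_)
      · congr!
      · apply Nat.mul_le_mul_left
        have : L / p ≤ L / z ∨ z = 0 := by
          rcases Nat.eq_zero_or_pos z with h | h
          · exact Or.inr h
          · exact Or.inl (Nat.div_le_div_left hp.2.le h)
        rcases this with h | h
        · omega
        · exfalso
          have := hE (E + 1) (by rw [h, zero_pow (by omega)]; exact Nat.zero_le _)
          omega
    refine (sum_le_sum h6).trans ?_
    rw [sum_const, smul_eq_mul]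
    apply Nat.mul_le_mul_right
    apply hE
    calc z ^ ((Δ (hh q)).primeFactors.filter (fun p => z < p)).card =
          ∏ p ∈ (Δ (hh q)).primeFactors.filter (fun p => z < p), z := by rw [prod_const]
      _ ≤ ∏ p ∈ (Δ (hh q)).primeFactors.filter (fun p => z < p), p :=
          prod_le_prod' fun p hp => (mem_filter.1 hp).2.le
      _ ≤ Δ (hh q) := by
          apply Nat.le_of_dvd h4
          exact (prod_dvd_prod_of_subset _ _ (fun p => p) (filter_subset _ _)).trans
            (Nat.prod_primeFactors_dvd _)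
      _ ≤ H ^ g := h5
  refine (sum_le_sum hone).trans ?_
  rw [sum_const, smul_eq_mul]
  apply Nat.mul_le_mul_right
  rw [offDiag_card, card_univ, Fintype.card_fin, pow_two]
  exact Nat.sub_le _ _

end Pool.Agent.H534.RT
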