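import Pool.Agent.H534.UT.StrC

/-!
# Strings of primes with rough values of an arbitrary finite family of polynomials: the dense sets
-/

set_option autoImplicit false
set_option maxHeartbeats 4000000

open Finset Filter Polynomial

namespace Pool.Agent.H534.RT

open Pool.Agent.H534.RS
open Pool.Agent.W123.RU
open Pool.Agent.Y677.RSZ (rt Sys rhoT per_mod ev_log V ne_zero_ev)
open Pool.Agent.TH423.SH (PS)
open Pool.Agent.W23.DC
open Pool.Agent.Y882
open Pool.Agent.Y882.PX
open Pool.Agent.Y882.KW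
open Pool.Agent.R498.MT
open Pool.Agent.R498.MP

variable {J : Type} [Fintype J]

/-- the polynomials `X + s`, `F_j (X + s)` -/
noncomputable def fG {J : Type} (F : J → ℤ[X]) (s : ℕ) : Option J → ℤ[X]
  | none => X + C (s : ℤ)
  | some j => (F j).comp (X + C (s : ℤ))

lemma fG_none {J : Type} (F : J → ℤ[X]) (s : ℕ) (n : ℤ) : (fG F s none).eval n = n + s := by
  show (X + C (s : ℤ)).eval n = n + s
  simp

lemma fG_some {J : Type} (F : J → ℤ[X]) (s : ℕ) (j : J) (n : ℤ) :
    (fG F s (some j)).eval n = (F j).eval (n + s) := by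
  show ((F j).comp (X + C (s : ℤ))).eval n = _
  simp [eval_comp]

/-- the families of polynomials: irreducible, positive leading coefficients, without integer zeros, no two
of them translates of one another, and no local obstruction together with `X` -/
structure Fam {J : Type} (F : J → ℤ[X]) : Prop where
  irr : ∀ j, Irreducible (F j)
  deg : ∀ j, 0 < (F j).natDegree
  lead : ∀ j, 0 < (F j).leadingCoeff
  nr : ∀ j (n : ℤ), (F j).eval n ≠ 0
  tr : ∀ i j, i ≠ j → ∀ s : ℤ, (F i).comp (X + C s) ≠ F j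
  adm : ∀ p : ℕ, p.Prime → ∃ n : ℤ, ¬ (p : ℤ) ∣ n ∧ ∀ j, ¬ (p : ℤ) ∣ (F j).eval n

lemma comp_irr (f : ℤ[X]) (s : ℤ) (h : Irreducible f) : Irreducible (f.comp (X + C s)) := by
  have e : f.comp (X + C s) = algEquivAevalXAddC s f := by
    simp [algEquivAevalXAddC, aeval_def, comp, eval₂_eq_eval_map]
  rw [e]
  exact (MulEquiv.irreducible_iff (algEquivAevalXAddC s)).2 h

lemma comp_comp' (f : ℤ[X]) (s t : ℤ) : (f.comp (X + C s)).comp (X + C t) = f.comp (X + C (t + s)) := by
  rw [comp_assoc]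
  congr 1
  simp [add_assoc]

lemma no_period (f : ℤ[X]) (hd : 0 < f.natDegree) (s : ℤ) (hs : s ≠ 0) : f.comp (X + C s) ≠ f := by
  intro h
  have hk : ∀ k : ℕ, f.eval ((k : ℤ) * s) = f.eval 0 := by
    intro k
    induction k with
    | zero => simp
    | succ k ih =>
      have h1 : (f.comp (X + C s)).eval ((k : ℤ) * s) = f.eval ((((k + 1 : ℕ)) : ℤ) * s) := by
        rw [eval_comp]
        congr 1
        simp
        ring
      rw [← h1, h, ih]
  have h2 : f = C (f.eval 0) := by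
    apply Polynomial.eq_of_infinite_eval_eq
    apply Set.Infinite.mono (s := Set.range (fun k : ℕ => (k : ℤ) * s))
    · rintro _ ⟨k, rfl⟩
      show f.eval ((k : ℤ) * s) = (C (f.eval 0)).eval _
      rw [hk, eval_C]
    · apply Set.infinite_range_of_injective
      intro a b hab
      have h3 := mul_right_cancel₀ hs hab
      exact_mod_cast h3
  rw [h2, natDegree_C] at hd
  omega

lemma sysG (F : J → ℤ[X]) (hFam : Fam F) {n : ℕ} (s : Fin n → ℕ) (hs : Function.Injective s)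
    (hadm : ∀ p : ℕ, p.Prime → ∃ m : ℕ, ∀ j : Option J × Fin n, ¬ (p : ℤ) ∣ (fG F (s j.2) j.1).eval (m : ℤ)) :
    Poly.Sys (fun j : Option J × Fin n => fG F (s j.2) j.1) where
  irr := fun j => by
    obtain ⟨b, i⟩ := j
    cases b with
    | none =>
      show Irreducible (X + C ((s i : ℕ) : ℤ))
      have h1 := irreducible_X_sub_C (-((s i : ℕ) : ℤ))
      rwa [map_neg, sub_neg_eq_add] at h1
    | some j => exact comp_irr _ _ (hFam.irr j)
  deg := fun j => by
    obtain ⟨b, i⟩ := j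
    cases b with
    | none =>
      show 0 < (X + C ((s i : ℕ) : ℤ)).natDegree
      rw [natDegree_X_add_C]
      exact one_pos
    | some j =>
      show 0 < ((F j).comp (X + C ((s i : ℕ) : ℤ))).natDegree
      rw [natDegree_comp, natDegree_X_add_C, mul_one]
      exact hFam.deg j
  lead := fun j => by
    obtain ⟨b, i⟩ := j
    cases b with
    | none =>
      show 0 < (X + C ((s i : ℕ) : ℤ)).leadingCoeff
      rw [leadingCoeff_X_add_C]
      exact one_pos
    | some j =>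
      show 0 < ((F j).comp (X + C ((s i : ℕ) : ℤ))).leadingCoeff
      rw [leadingCoeff_comp (by rw [natDegree_X_add_C]; exact one_ne_zero), leadingCoeff_X_add_C, one_pow,
        mul_one]
      exact hFam.lead j
  inj := fun j j' hjj => by
    obtain ⟨b, i⟩ := j
    obtain ⟨b', i'⟩ := j'
    simp only at hjj
    have hxs : ∀ (j : J) (i i' : Fin n), fG F (s i) (some j) ≠ fG F (s i') none := by
      intro j i i' hh
      have h1 := congrArg (fun P : ℤ[X] => P.eval (-((s i' : ℕ) : ℤ))) hh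
      simp only [fG_some, fG_none, neg_add_cancel] at h1
      exact hFam.nr j _ h1
    cases b with
    | none =>
      cases b' with
      | none =>
        have h1 := congrArg (fun P : ℤ[X] => P.eval 0) hjj
        simp only [fG_none] at h1
        have h2 : ((s i : ℕ) : ℤ) = (s i' : ℕ) := by simpa using h1
        have h3 : s i = s i' := by exact_mod_cast h2
        rw [hs h3]
      | some j' => exact absurd hjj.symm (hxs j' i' i)
    | some j =>
      cases b' with
      | none => exact absurd hjj (hxs j i i')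
      | some j' =>
        have h1 : (F j).comp (X + C (-((s i' : ℕ) : ℤ) + ((s i : ℕ) : ℤ))) = F j' := by
          rw [← comp_comp']
          have h2 : (F j).comp (X + C ((s i : ℕ) : ℤ)) = (F j').comp (X + C ((s i' : ℕ) : ℤ)) := hjj
          rw [h2, comp_comp', neg_add_cancel]
          simp
        by_cases hj : j = j'
        · subst hj
          by_cases hi : s i = s i'
          · rw [hs hi]
          · exfalso
            refine no_period (F j) (hFam.deg j) _ ?_ h1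
            intro h3
            apply hi
            have : ((s i : ℕ) : ℤ) = (s i' : ℕ) := by linarith
            exact_mod_cast this
        · exact absurd h1 (hFam.tr j j' hj _)
  adm := hadm

/-- **Dense sets of strings of primes with rough values.** -/
theorem pstrA (F : J → ℤ[X]) (hFam : Fam F) (m : ℕ) : ∃ (K₀ : ℕ) (ε₁ : ℝ), 0 < ε₁ ∧ ε₁ ≤ 1 / 24 ∧
    ∀ S : Finset ℕ, K₀ ≤ S.card →
    ∃ (n₁ : ℕ) (s : Fin n₁ → ℕ) (r : ℕ) (κ : ℝ), 0 < n₁ ∧
    Poly.Sys (fun j : Option J × Fin n₁ => fG F (s j.2) j.1) ∧ 0 < κ ∧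
    ∀ᶠ N : ℕ in atTop, ∃ H ⊆ S, m ≤ H.card ∧ ∃ (Y : ℕ) (A : Finset ℕ), Y ≤ N ^ 2 ∧
      A ⊆ Ioc Y (Y + N) ∧
      (∀ n ∈ A, ∀ j : Option J × Fin n₁, ∀ p : ℕ, p.Prime → (p : ℝ) ≤ (N : ℝ) ^ (ε₁ / 2) →
        ¬ (p : ℤ) ∣ (fG F (s j.2) j.1).eval (n : ℤ)) ∧
      κ * (N / Real.log N ^ ((Fintype.card J + 1) * n₁)) ≤ A.card ∧
      ∀ n ∈ A, N + r < n ∧ n - r + S.sup id ≤ 2 * N ∧
        (∀ y ≤ S.sup id, (n - r + y).Prime ↔ y ∈ H) ∧
        ∀ y ∈ H, ∀ j, ∀ p : ℕ, p.Prime → (p : ℤ) ∣ (F j).eval ((n - r + y : ℕ) : ℤ) → (N : ℝ) ^ ε₁ ≤ p := by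
  classical
  obtain ⟨P, hPd⟩ : ∃ P : ℤ[X], P = X * ∏ j, F j := ⟨_, rfl⟩
  have hPev : ∀ n : ℤ, P.eval n = n * ∏ j, (F j).eval n := by
    intro n
    rw [hPd, eval_mul, eval_X, eval_prod]
  have hPne : ∀ n : ℤ, n ≠ 0 → P.eval n ≠ 0 := by
    intro n hn h1
    rw [hPev] at h1
    rcases mul_eq_zero.1 h1 with h2 | h2
    · exact hn h2
    · obtain ⟨j, -, hj⟩ := Finset.prod_eq_zero_iff.1 h2
      exact hFam.nr j n hj
  have hP : P ≠ 0 := by
    intro h1
    exact hPne 1 one_ne_zero (by rw [h1]; simp)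
  have hPadm : ∀ p : ℕ, p.Prime → ∃ n : ℤ, ¬ (p : ℤ) ∣ P.eval n := by
    intro p hp
    obtain ⟨n, hn, hnj⟩ := hFam.adm p hp
    refine ⟨n, fun hd => ?_⟩
    have hpp : Prime (p : ℤ) := Nat.prime_iff_prime_int.1 hp
    rw [hPev] at hd
    rcases hpp.dvd_or_dvd hd with h1 | h1
    · exact hn h1
    · obtain ⟨j, -, hj⟩ := (hpp.dvd_finsetProd_iff _).1 h1
      exact hnj j hj
  obtain ⟨g₀, hg₀⟩ := Pool.Agent.Y677.RSZ.poly_all P hP hPadm
  obtain ⟨g, hg⟩ : ∃ g : ℕ, g = g₀ + 1 := ⟨_, rfl⟩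
  have hg1 : 1 ≤ g := by omega
  have hF : Sys g (fun n => P.eval n) := Pool.Agent.Y677.RSZ.Sys.mono hg₀ (by omega)
  have hFid : ∀ p : ℕ, p.Prime → ∀ n : ℤ, (p : ℤ) ∣ n → (p : ℤ) ∣ P.eval n := by
    intro p _ n hd
    rw [hPev]
    exact hd.mul_right _
  obtain ⟨k, W, hW0, hWsq, hWp, hgW, ε₁, c, hε, hε24, hc, hcore⟩ :=
    coreP (fun n => P.eval n) g hF hFid m
  have hW2 : 2 ≤ W := by
    have h1 : 2 ∣ W := hWp 2 Nat.prime_two (by
      have : 1 ≤ g * 2 ^ k := Nat.mul_pos hg1 (by positivity)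
      omega)
    exact Nat.le_of_dvd hW0 h1
  refine ⟨W * 2 ^ k, ε₁, hε, hε24, ?_⟩
  intro HH hHH
  obtain ⟨E, hEd⟩ : ∃ E : Finset ℕ, E = Finset.range (HH.sup id + 1) := ⟨_, rfl⟩
  have hEH : ∀ h ∈ HH, ∀ y ∈ E, y ≠ h → P.eval ((h : ℤ) - y) ≠ 0 := by
    intro t _ y _ hyt
    apply hPne
    intro h2
    apply hyt
    have : (t : ℤ) = y := by linarith
    exact_mod_cast this.symm
  obtain ⟨r, t, hrW, ht, hmem⟩ := shifts W (2 ^ k) hW0 HH hHH
  obtain ⟨b₁, hb₁W, hb₁⟩ := exb' hF W hW0 hWsq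
  obtain ⟨b, hbd⟩ : ∃ b, b = W + b₁ := ⟨_, rfl⟩
  have hb : ∀ p : ℕ, p.Prime → p ∣ W → ¬ (p : ℤ) ∣ (fun n : ℤ => P.eval n) b := by
    intro p hp hpW h
    apply hb₁ p hp hpW
    refine (per_mod (F := fun n => P.eval n) hF.per hp b b₁ ?_).1 h
    rw [hbd]
    have : W ≡ 0 [MOD p] := (Nat.modEq_zero_iff_dvd).2 hpW
    simpa using this.add_right b₁
  obtain ⟨⟨Y₀, hcore1⟩, hcore2⟩ := hcore t ht b hb
  obtain ⟨g', hS⟩ := PP_sys P hP g hF W b t hWp hb
  -- the system
  have hsinj : Function.Injective (fun i => W * t i) := fun i j h =>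
    ht (Nat.eq_of_mul_eq_mul_left hW0 h)
  have hPP : ∀ x : ℤ, (Pool.Agent.R498.MT.PP P W t).eval x =
      ∏ j : Option J × Fin (2 ^ k), (fG F (W * t j.2) j.1).eval x := by
    intro x
    rw [PP_eval, Fintype.prod_prod_type, Fintype.prod_option, Finset.prod_comm (s := (univ : Finset J)),
      ← Finset.prod_mul_distrib]
    refine prod_congr rfl fun i _ => ?_
    rw [hPev, fG_none]
    congr 1
    exact prod_congr rfl fun j _ => (fG_some F (W * t i) j x).symm
  have hsys : Poly.Sys (fun j : Option J × Fin (2 ^ k) => fG F (W * t j.2) j.1) := by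
    refine sysG F hFam (fun i => W * t i) hsinj (fun p hp => ?_)
    have h1 := (hS.root p hp).2
    have h2 : ∃ x ∈ range p, ¬ (p : ℤ) ∣ (Pool.Agent.R498.MT.PP P W t).eval (x : ℤ) := by
      by_contra hcon
      push Not at hcon
      unfold rt at h1
      rw [filter_true_of_mem hcon, card_range] at h1
      omega
    obtain ⟨x, -, hx⟩ := h2
    refine ⟨x, fun j hd => hx ?_⟩
    rw [hPP]
    exact hd.trans (Finset.dvd_prod_of_mem _ (mem_univ j))
  obtain ⟨v, Cv, hv, hCv, hV⟩ := Poly.V_bounds (fun j : Option J × Fin (2 ^ k) => fG F (W * t j.2) j.1) hsys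
  have hcard : Fintype.card (Option J × Fin (2 ^ k)) = (Fintype.card J + 1) * 2 ^ k := by
    rw [Fintype.card_prod, Fintype.card_option, Fintype.card_fin]
  rw [hcard] at hV
  have hW0r : (0 : ℝ) < W := by exact_mod_cast hW0
  obtain ⟨κ, hκ⟩ : ∃ κ : ℝ, κ = c / (2 * 2 ^ 2 ^ k) * (v / (4 * W)) := ⟨_, rfl⟩
  have hκ0 : 0 < κ := by rw [hκ]; positivity
  -- the other primes
  obtain ⟨E', hE'⟩ : ∃ E', E' = E.filter (fun y => ∀ i, W * t i + r ≠ y) := ⟨_, rfl⟩
  have hdisc : ∀ᶠ N : ℕ in atTop, ∀ y ∈ E', ∀ M L z : ℕ, Win W N M L → (z : ℝ) < (N : ℝ) ^ ε₁ →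
        0 < Vp (fun n => P.eval n) W b z t →
        1 ≤ Real.log N ^ (2 * (g * 2 ^ k) + 1) * Vp (fun n => P.eval n) W b z t →
        ∀ s : Finset ℕ,
        (∀ K ∈ s, K ∈ Ioc M (M + L) ∧ (W * K + (b - r + y)).Prime ∧
          ∀ p ∈ PS W z, ∀ i, ¬ (p : ℤ) ∣ P.eval ((W * (K + t i) + b : ℕ) : ℤ)) →
        (s.card : ℝ) ≤ c / (2 * (E'.card + 1)) * (L * Vp (fun n => P.eval n) W b z t) := by
    rw [Finset.eventually_all]
    intro y hy
    rw [hE', mem_filter] at hy
    obtain ⟨Y₁, hY₁⟩ := hcore2 (b - r + y) (by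
      intro j
      have e : ((W * t j + b : ℕ) : ℤ) - ((b - r + y : ℕ) : ℤ) = ((W * t j + r : ℕ) : ℤ) - y := by
        have : r ≤ b := by omega
        push_cast [this]
        ring
      show P.eval _ ≠ 0
      rw [e]
      exact hEH _ (hmem j) y hy.1 (fun h => hy.2 j h.symm)) (c / (2 * (E'.card + 1)))
      (by positivity)
    filter_upwards [eventually_ge_atTop Y₁] with N hN M L z h1 h2 h3 h4 s hs
    exact hY₁ N hN M L z h1 h2 h3 h4 s hs
  refine ⟨2 ^ k, fun i => W * t i, r, κ, by positivity, hsys, hκ0, ?_⟩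
  filter_upwards [hdisc, numsE W r b Y₀ 0 0 0 (HH.sup id) hW2 hrW, eventually_ge_atTop (4 * W),
    eventually_ge_atTop 3] with N hN1 hN2 hN4 hN3
  obtain ⟨n1, n2, n3, n4, n5, n6, n7, n8, n9, n10⟩ := hN2
  obtain ⟨M, hM⟩ : ∃ M : ℕ, M = (N + r) / W := ⟨_, rfl⟩
  obtain ⟨L, hL⟩ : ∃ L : ℕ, L = N / (2 * W) := ⟨_, rfl⟩
  rw [← hM, ← hL] at n5
  rw [← hL] at n6 n7 n8 n9
  have hNr : (16 : ℝ) ≤ N := by exact_mod_cast n2
  have hN0 : (0 : ℝ) < N := by linarith
  have hN1r : (1 : ℝ) ≤ N := by linarith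
  have hlogN : 0 < Real.log (N : ℝ) := Real.log_pos (by linarith)
  obtain ⟨z, hz⟩ : ∃ z : ℕ, z + 1 = ⌈(N : ℝ) ^ ε₁⌉₊ := by
    have : 1 ≤ ⌈(N : ℝ) ^ ε₁⌉₊ := Nat.ceil_pos.2 (by positivity)
    exact ⟨⌈(N : ℝ) ^ ε₁⌉₊ - 1, by omega⟩
  have hz1 : (z : ℝ) < (N : ℝ) ^ ε₁ := by
    have h1 := Nat.ceil_lt_add_one (show 0 ≤ (N : ℝ) ^ ε₁ by positivity)
    rw [← hz] at h1
    push_cast at h1
    linarith
  have hz2 : (N : ℝ) ^ ε₁ ≤ z + 1 := by
    have h1 := Nat.le_ceil ((N : ℝ) ^ ε₁)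
    rw [← hz] at h1
    push_cast at h1
    exact h1
  obtain ⟨hgd, hV0, hV1⟩ := hcore1 N n1 M L z n5 hz1 hz2
  have hWL1 : 1 ≤ W * L := by
    have h1 : (1 : ℝ) ≤ ((W * L : ℕ) : ℝ) := le_trans (Real.one_le_rpow hN1r (by norm_num)) n7
    exact_mod_cast h1
  have hL1 : 1 ≤ L := by
    rcases Nat.eq_zero_or_pos L with h | h
    · rw [h, mul_zero] at hWL1
      omega
    · exact h
  have hLr : (0 : ℝ) < L := by exact_mod_cast hL1
  obtain ⟨Hs, A, hHs, hA1, hA2⟩ := manyP (fun n => P.eval n) W b M L z N k m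
    (2 * (g * 2 ^ k) + 1) ε₁ c (Vp (fun n => P.eval n) W b z t) t E' (fun y => b - r + y) hc hV0
    hLr hz1 hgd (fun y hy s hs => hN1 y hy M L z n5 hz1 hV0 hV1 s hs)
  have hWM : W * M ≤ N + r := by rw [hM]; exact Nat.mul_div_le _ _
  have hWM1 : N + r < W * (M + 1) := by
    rw [hM]
    exact Nat.lt_mul_div_succ (N + r) hW0
  have hWM2 : W * (M + 1) = W * M + W := by ring
  have hWML : W * (M + L) = W * M + W * L := by ring
  have hbds : ∀ K ∈ Ioc M (M + L), N + r < W * K ∧ W * K + b ≤ N + r + W * L + b := by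
    intro K hK
    rw [mem_Ioc] at hK
    have h2 : W * (M + 1) ≤ W * K := Nat.mul_le_mul_left _ (by omega)
    have h3 : W * K ≤ W * (M + L) := Nat.mul_le_mul_left _ hK.2
    exact ⟨by omega, by omega⟩
  have hLW : (N : ℝ) / (4 * W) ≤ L := by
    rw [div_le_iff₀ (by positivity)]
    have h1 : N < 2 * W * (L + 1) := by
      rw [hL]
      exact Nat.lt_mul_div_succ N (by omega)
    have h2 : N ≤ 4 * W * L := by nlinarith
    have h3 : (N : ℝ) ≤ ((4 * W * L : ℕ) : ℝ) := by exact_mod_cast h2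
    push_cast at h3
    linarith
  refine ⟨Hs.image (fun i => W * t i + r), ?_, ?_, W * M + b, A.image (fun K => W * K + b), ?_, ?_, ?_, ?_, ?_⟩
  · intro y hy
    rw [mem_image] at hy
    obtain ⟨i, _, rfl⟩ := hy
    exact hmem i
  · rw [card_image_of_injective _ (fun i j hij => by
      have h1 : W * t i + r = W * t j + r := hij
      have h2 : W * t i = W * t j := by omega
      exact ht (Nat.eq_of_mul_eq_mul_left hW0 h2))]
    exact hHs.le
  · omega
  · intro x hx
    rw [mem_image] at hx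
    obtain ⟨K, hK, rfl⟩ := hx
    have h1 := (hA2 K hK).1
    rw [mem_Ioc] at h1 ⊢
    have h2 : W * (M + 1) ≤ W * K := Nat.mul_le_mul_left _ (by omega)
    have h3 : W * K ≤ W * (M + L) := Nat.mul_le_mul_left _ h1.2
    constructor <;> omega
  · intro x hx j p hp hpH hdvd
    rw [mem_image] at hx
    obtain ⟨K, hK, rfl⟩ := hx
    refine (hA2 K hK).2.1 p hp ?_ j.2 ?_
    · refine hpH.trans_lt ?_
      exact Real.rpow_lt_rpow_of_exponent_lt (by linarith) (by linarith)
    · show (p : ℤ) ∣ P.eval ((W * (K + t j.2) + b : ℕ) : ℤ)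
      have e : (((W * (K + t j.2) + b : ℕ) : ℤ)) = ((W * K + b : ℕ) : ℤ) + ((W * t j.2 : ℕ) : ℤ) := by
        push_cast
        ring
      rw [hPev, e]
      cases hj : j.1 with
      | none =>
        rw [hj, fG_none] at hdvd
        exact hdvd.mul_right _
      | some j₁ =>
        rw [hj, fG_some] at hdvd
        exact (hdvd.trans (Finset.dvd_prod_of_mem (fun j => (F j).eval _) (mem_univ j₁))).mul_left _
  · rw [card_image_of_injective _ (fun K K' hKK => by
      have h1 : W * K + b = W * K' + b := hKK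
      have h2 : W * K = W * K' := by omega
      exact Nat.eq_of_mul_eq_mul_left hW0 h2)]
    refine le_trans ?_ hA1
    have hzN : z ≤ N := by
      have h1 : (z : ℝ) ≤ N := by
        refine hz1.le.trans ?_
        calc (N : ℝ) ^ ε₁ ≤ (N : ℝ) ^ (1 : ℝ) :=
              Real.rpow_le_rpow_of_exponent_le hN1r (by linarith)
          _ = N := Real.rpow_one _
      exact_mod_cast h1
    have h1 := PP_V P g hF W b z N t hzN
    have h2 : V (fun n => (Pool.Agent.R498.MT.PP P W t).eval n) 1 N =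
        Pool.Agent.W123.RP.Vq (Poly.Q (fun j : Option J × Fin (2 ^ k) => fG F (W * t j.2) j.1)) N := by
      rw [← Pool.Agent.Y677.RSZ.V_eq]
      unfold V
      refine prod_congr rfl fun p hp => ?_
      have e : rt (fun n => (Pool.Agent.R498.MT.PP P W t).eval n) p =
          rt (fun n => (∏ j : Option J × Fin (2 ^ k), fG F (W * t j.2) j.1).eval n) p := by
        unfold rt
        congr 1
        apply filter_congr
        intro x _
        show (p : ℤ) ∣ (Pool.Agent.R498.MT.PP P W t).eval (x : ℤ) ↔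
          (p : ℤ) ∣ (∏ j : Option J × Fin (2 ^ k), fG F (W * t j.2) j.1).eval (x : ℤ)
        rw [hPP, eval_prod]
      rw [e]
    rw [h2] at h1
    have h3 := (hV N hN3).1.trans h1
    calc κ * (N / Real.log N ^ ((Fintype.card J + 1) * 2 ^ k)) =
          c / (2 * 2 ^ 2 ^ k) * ((N / (4 * W)) * (v / Real.log N ^ ((Fintype.card J + 1) * 2 ^ k))) := by
          rw [hκ]
          field_simp
      _ ≤ c / (2 * 2 ^ 2 ^ k) * (L * Vp (fun n => P.eval n) W b z t) := by gcongr
  · intro x hx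
    rw [mem_image] at hx
    obtain ⟨K, hK, rfl⟩ := hx
    obtain ⟨hK1', hK2', hK3', hK4'⟩ := hA2 K hK
    have hbK := hbds K hK1'
    have e : ∀ i, W * K + b - r + (W * t i + r) = W * (K + t i) + b := by
      intro i
      have h1 : W * (K + t i) = W * K + W * t i := by ring
      omega
    refine ⟨by omega, by omega, ?_, ?_⟩
    · intro y hy
      constructor
      · intro hpr
        by_cases hyE : y ∈ E'
        · exfalso
          have h1 := hK4' y hyE
          have e2 : W * K + b - r + y = W * K + (b - r + y) := by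
            have : r ≤ b := by omega
            omega
          rw [e2] at hpr
          exact h1 hpr
        · rw [hE', mem_filter] at hyE
          push Not at hyE
          obtain ⟨i, hi⟩ := hyE (by rw [hEd, Finset.mem_range]; omega)
          rw [← hi, e i] at hpr
          rw [mem_image]
          exact ⟨i, (hK3' i).1 hpr, hi⟩
      · intro hyH
        rw [mem_image] at hyH
        obtain ⟨i, hi, rfl⟩ := hyH
        rw [e i]
        exact (hK3' i).2 hi
    · intro y hy j p hp hpd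
      rw [mem_image] at hy
      obtain ⟨i, hi, rfl⟩ := hy
      rw [e i] at hpd
      by_contra hcon
      push Not at hcon
      refine hK2' p hp hcon i ?_
      show (p : ℤ) ∣ P.eval ((W * (K + t i) + b : ℕ) : ℤ)
      rw [hPev]
      apply Dvd.dvd.mul_left
      exact hpd.trans (Finset.dvd_prod_of_mem (fun j => (F j).eval _) (mem_univ j))

end Pool.Agent.H534.RT
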