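import Pool.Agent.H534.RT.Gen
import Pool.Graph.R_seed8.H312R2.TwoPrimes

/-!
# Prime tuples, uniformly in the shifts
-/

set_option autoImplicit false

open Finset Filter Polynomial

namespace Pool.Agent.H534.RT

open Pool.Agent.H534.RS hiding majW classes engP
open Pool.Agent.W123.RP Pool.Agent.H373R2.T7 Pool.Agent.W123.RU Pool.Agent.W123.RU.Poly
open Pool.Agent.Y879.GL (US us_adm us_perB lf lf_eval us_lf lf_assoc)

theorem WW_big (ε : ℝ) (hε : 0 < ε) : ∀ᶠ H : ℕ in atTop, (H : ℝ) ^ (ε / 2) < WW ε H := by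
  obtain ⟨n0, hn0⟩ := Pool.Agent.H312R2.theta_lower
  have hNr : Tendsto (fun H : ℕ => (H : ℝ)) atTop atTop := tendsto_natCast_atTop_atTop
  have hl : Tendsto (fun H : ℕ => Real.log (H : ℝ)) atTop atTop := Real.tendsto_log_atTop.comp hNr
  filter_upwards [hl.eventually_ge_atTop ((n0 + 10) / ε), eventually_ge_atTop 2] with H h1 h2
  rw [div_le_iff₀ hε] at h1
  have hH0 : (0 : ℝ) < H := by exact_mod_cast (by omega : 0 < H)
  have hn00 : (0 : ℝ) ≤ n0 := Nat.cast_nonneg _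
  have h3 : n0 ≤ ⌊ε * Real.log H⌋₊ := Nat.le_floor (by linarith)
  have h4 := hn0 _ h3
  rw [Chebyshev.theta_eq_log_primorial, Nat.floor_natCast] at h4
  have h5 : ε * Real.log H < ⌊ε * Real.log H⌋₊ + 1 := Nat.lt_floor_add_one _
  have hW0 : (0 : ℝ) < WW ε H := by exact_mod_cast WW_pos ε H
  have h6 : ε / 2 * Real.log H < Real.log (WW ε H) := by
    have e : (WW ε H : ℝ) = (primorial ⌊ε * Real.log H⌋₊ : ℝ) := rfl
    rw [e]
    linarith
  rw [Real.rpow_def_of_pos hH0, ← Real.exp_log hW0]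
  apply Real.exp_lt_exp.2
  linarith

theorem WW_bigger (ε : ℝ) (hε : 0 < ε) (K : ℕ) : ∀ᶠ H : ℕ in atTop, (H : ℝ) ^ (ε / 2) + K < WW ε H := by
  obtain ⟨n0, hn0⟩ := Pool.Agent.H312R2.theta_lower
  have hNr : Tendsto (fun H : ℕ => (H : ℝ)) atTop atTop := tendsto_natCast_atTop_atTop
  have hl : Tendsto (fun H : ℕ => Real.log (H : ℝ)) atTop atTop := Real.tendsto_log_atTop.comp hNr
  have hp : Tendsto (fun H : ℕ => (H : ℝ) ^ (ε / 2)) atTop atTop := (tendsto_rpow_atTop (by positivity)).comp hNr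
  filter_upwards [hl.eventually_ge_atTop ((n0 + 20) / ε), eventually_ge_atTop 2, hp.eventually_ge_atTop K] with H h1 h2 hK
  rw [div_le_iff₀ hε] at h1
  have hH0 : (0 : ℝ) < H := by exact_mod_cast (by omega : 0 < H)
  have hn00 : (0 : ℝ) ≤ n0 := Nat.cast_nonneg _
  have h3 : n0 ≤ ⌊ε * Real.log H⌋₊ := Nat.le_floor (by linarith)
  have h4 := hn0 _ h3
  rw [Chebyshev.theta_eq_log_primorial, Nat.floor_natCast] at h4
  have h5 : ε * Real.log H < ⌊ε * Real.log H⌋₊ + 1 := Nat.lt_floor_add_one _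
  have hW0 : (0 : ℝ) < WW ε H := by exact_mod_cast WW_pos ε H
  have h6 : ε / 2 * Real.log H + 1 < Real.log (WW ε H) := by
    have e : (WW ε H : ℝ) = (primorial ⌊ε * Real.log H⌋₊ : ℝ) := rfl
    rw [e]
    linarith
  have h7 : 2 * (H : ℝ) ^ (ε / 2) < WW ε H := by
    rw [Real.rpow_def_of_pos hH0, ← Real.exp_log hW0]
    have h8 : Real.exp 1 * Real.exp (Real.log H * (ε / 2)) < Real.exp (Real.log (WW ε H)) := by
      rw [← Real.exp_add]
      apply Real.exp_lt_exp.2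
      linarith
    have h9 := Real.exp_one_gt_d9
    have h10 := Real.exp_pos (Real.log H * (ε / 2))
    nlinarith
  linarith

/-- few prime factors -/
theorem len_ev3 (r : ℕ) (hr : 1 ≤ r) : ∀ᶠ x : ℕ in atTop, ∀ n : ℕ, 0 < n → n ≤ 3 * x →
    (∀ q : ℕ, q.Prime → q ∣ n → (x : ℝ) ^ (1 / (r : ℝ)) < q) → n.primeFactorsList.length ≤ r := by
  have hr0 : (0 : ℝ) < r := by exact_mod_cast (by omega : 0 < r)
  have hp1 : Tendsto (fun X : ℕ => (X : ℝ) ^ (1 / (r : ℝ))) atTop atTop :=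
    (tendsto_rpow_atTop (by positivity)).comp tendsto_natCast_atTop_atTop
  filter_upwards [hp1.eventually_ge_atTop 3] with x hx n hn hnE h
  have hx0 : (0 : ℝ) ≤ x := Nat.cast_nonneg _
  apply Pool.Agent.W123.RU.length_le n r (by omega) _ h _ (by linarith)
  have e : ((x : ℝ) ^ (1 / (r : ℝ))) ^ r = x := by
    rw [← Real.rpow_natCast ((x : ℝ) ^ (1 / (r : ℝ))) r, ← Real.rpow_mul hx0, one_div,
      inv_mul_cancel₀ hr0.ne', Real.rpow_one]
  have h1 : (n : ℝ) ≤ 3 * x := by exact_mod_cast hnE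
  rw [pow_succ, e]
  nlinarith

/-- the forms `n`, `n + h i` -/
noncomputable def tf {s : ℕ} (h : Fin s → ℕ) : Fin (s + 1) → ℤ[X] := fun i => lf 1 ((Fin.cons 0 (fun j => (h j : ℤ)) : Fin (s + 1) → ℤ) i)

/-- no prime divides all the products of the `n`, `n + h i` -/
def TAdm {s : ℕ} (h : Fin s → ℕ) : Prop := ∀ p : ℕ, p.Prime → ∃ n : ℕ, ¬ p ∣ n ∧ ∀ i, ¬ p ∣ n + h i

/-- the bad classes -/
def TB {s : ℕ} (h : Fin s → ℕ) (p n : ℕ) : Prop := p ∣ n ∨ ∃ i, p ∣ n + h i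

lemma tf_dvd {s : ℕ} (h : Fin s → ℕ) (p n : ℕ) : (∃ i, (p : ℤ) ∣ (tf h i).eval (n : ℤ)) ↔ TB h p n := by
  unfold TB tf
  rw [Fin.exists_fin_succ]
  simp only [lf_eval, one_mul, Fin.cons_zero, Fin.cons_succ, add_zero]
  constructor
  · rintro (h1 | ⟨i, h1⟩)
    · left; exact_mod_cast h1
    · right; exact ⟨i, by exact_mod_cast h1⟩
  · rintro (h1 | ⟨i, h1⟩)
    · left; exact_mod_cast h1
    · right; exact ⟨i, by exact_mod_cast h1⟩

lemma tf_Q {s : ℕ} (h : Fin s → ℕ) : Poly.Q (tf h) = TB h := by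
  funext p n
  exact propext (tf_dvd h p n)

lemma tf_us {s : ℕ} (h : Fin s → ℕ) (M : ℝ) (hM : 1 ≤ M) (hh : ∀ i, (h i : ℝ) ≤ M) (hadm : TAdm h) :
    US (s + 1) 1 M 0 (tf h) := by
  have e : tf h = fun i => lf ((fun _ => 1 : Fin (s + 1) → ℤ) i) ((Fin.cons 0 (fun j => (h j : ℤ)) : Fin (s + 1) → ℤ) i) := rfl
  rw [e]
  apply us_lf (s + 1) (fun _ => 1) (Fin.cons 0 (fun j => (h j : ℤ))) M 0
  · intro i; exact one_ne_zero
  · intro i; exact isCoprime_one_left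
  · intro i
    simpa using hM
  · intro i
    refine Fin.cases ?_ (fun j => ?_) i
    · simp; linarith
    · simpa using hh j
  · intro p hp
    obtain ⟨m, h1, h2⟩ := hadm p hp
    refine ⟨m, fun i => ?_⟩
    refine Fin.cases ?_ (fun j => ?_) i
    · rw [one_mul, Fin.cons_zero, add_zero]
      exact_mod_cast h1
    · rw [one_mul, Fin.cons_succ]
      intro hd
      exact h2 j (by exact_mod_cast hd)
  · intro i j t ht1 ht2
    have : (1 : ℝ) ≤ t := by exact_mod_cast ht1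
    linarith

lemma tf_nt {s : ℕ} (h : Fin s → ℕ) (W H : ℕ) (hW : ∀ i, h i < W) (hW0 : 0 < W) : NT W H (tf h) := by
  intro i j t ht1 htH htW hass
  have h1 := lf_assoc _ _ _ _ _ hass
  have hWt : W ≤ t := Nat.le_of_dvd (by omega) htW
  have hup : ∀ i : Fin (s + 1), (Fin.cons 0 (fun j => (h j : ℤ)) : Fin (s + 1) → ℤ) i < W := by
    intro i
    refine Fin.cases ?_ (fun j => ?_) i
    · rw [Fin.cons_zero]; exact_mod_cast hW0
    · rw [Fin.cons_succ]; exact_mod_cast hW j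
  have hlo : ∀ i : Fin (s + 1), 0 ≤ (Fin.cons 0 (fun j => (h j : ℤ)) : Fin (s + 1) → ℤ) i := by
    intro i
    refine Fin.cases ?_ (fun j => ?_) i
    · rw [Fin.cons_zero]
    · rw [Fin.cons_succ]; exact Nat.cast_nonneg _
  have h2 := hup i
  have h3 := hlo j
  have hWt' : (W : ℤ) ≤ t := by exact_mod_cast hWt
  rcases h1 with ⟨-, h4⟩ | ⟨h4, -⟩
  · linarith
  · omega

open Classical in
/-- the sieve density -/
noncomputable def TV {s : ℕ} (h : Fin s → ℕ) (z : ℕ) : ℝ :=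
  ∏ p ∈ (Icc 1 z).filter Nat.Prime, (1 - (((range p).filter (fun n => p ∣ n ∨ ∃ i, p ∣ n + h i)).card : ℝ) / p)

lemma TV_eq {s : ℕ} (h : Fin s → ℕ) (z : ℕ) : Vq (TB h) z = TV h z := by
  unfold Vq TV pz
  apply prod_congr rfl
  intro p _
  have e : nuB (TB h) p = ((range p).filter (fun n => p ∣ n ∨ ∃ i, p ∣ n + h i)).card := by
    unfold nuB TB
    apply congrArg
    ext n
    simp only [mem_filter]
  rw [e]

open Classical in
/-- **Tuples: dense sets.** -/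
theorem tupA (s E k : ℕ) (δ η κ : ℝ) (hk : 1 ≤ k) (hE : 1 ≤ E) (hδ : 0 < δ) (hδ1 : δ ≤ 1) (hη : 0 < η) (hκ : 0 < κ) :
    ∃ c : ℝ, 0 < c ∧ ∃ H₀ : ℕ, ∀ (H Y : ℕ) (h : Fin s → ℕ) (A : Finset ℕ), H₀ ≤ H → TAdm h →
    (∀ i, (h i : ℝ) ≤ (H : ℝ) ^ (δ / 16)) → Y ≤ H ^ E → A ⊆ Ioc Y (Y + H) →
    (∀ n ∈ A, ∀ p : ℕ, p.Prime → (p : ℝ) ≤ (H : ℝ) ^ η → ¬ p ∣ n ∧ ∀ i, ¬ p ∣ n + h i) →
    κ * (H * TV h H) ≤ A.card →
    ∀ b : Fin k → ℕ, Function.Injective b → (∀ i, 1 ≤ b i) → (∀ i, (b i : ℝ) ≤ (H : ℝ) ^ (1 - δ)) →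
    c * (H : ℝ) ^ (δ / 8) ≤ (((Icc 1 ⌊(H : ℝ) ^ (δ / 8)⌋₊).filter (fun d =>
      c * (H * (TV h H ^ (k + 1) / TV h ⌊δ / 8 * Real.log H⌋₊ ^ k)) ≤
        ((A.filter (fun n => ∀ i, n + WW (δ / 8) H * d * b i ∈ A)).card : ℝ))).card : ℝ) := by
  obtain ⟨c, hc, H₀, hm⟩ := genA (s + 1) 1 E k δ η κ hk hE hδ hδ1 hη hκ
  obtain ⟨H₁, hH₁⟩ := eventually_atTop.1 (WW_big (δ / 8) (by positivity))
  refine ⟨c, hc, max (max H₀ H₁) 1, fun H Y h A hH hadm hh hY hA hAr hAc b hb hb1 hb2 => ?_⟩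
  have hH0 : H₀ ≤ H := ((le_max_left _ _).trans (le_max_left _ _)).trans hH
  have hH1 : H₁ ≤ H := ((le_max_right _ _).trans (le_max_left _ _)).trans hH
  have hHone : 1 ≤ H := (le_max_right _ _).trans hH
  have hHr : (1 : ℝ) ≤ H := by exact_mod_cast hHone
  have hW : ∀ i, h i < WW (δ / 8) H := by
    intro i
    have h1 := hH₁ H hH1
    rw [show δ / 8 / 2 = δ / 16 by ring] at h1
    exact_mod_cast (hh i).trans_lt h1
  have h2 := hm H Y (tf h) A hH0 (tf_us h _ (one_le_pow₀ hHr) (fun i => (hh i).trans (by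
      rw [← Real.rpow_natCast]
      apply Real.rpow_le_rpow_of_exponent_le hHr
      have : (1 : ℝ) ≤ E := by exact_mod_cast hE
      linarith)) hadm) (tf_nt h _ H hW (WW_pos _ _)) hY
    (fun n hn i => by
      have hn1 := (mem_Ioc.1 hn).1
      unfold tf
      rw [lf_eval, one_mul]
      refine Fin.cases ?_ (fun j => ?_) i
      · rw [Fin.cons_zero]; omega
      · rw [Fin.cons_succ]; omega) hA
    (fun n hn i p hp hpH hd => by
      obtain ⟨h3, h4⟩ := hAr n hn p hp hpH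
      rcases (tf_dvd h p n).1 ⟨i, hd⟩ with h5 | ⟨j, h5⟩
      · exact h3 h5
      · exact h4 j h5)
    (by rw [tf_Q, TV_eq]; exact hAc) b hb hb1 hb2
  rw [tf_Q, TV_eq, TV_eq] at h2
  exact h2

open Classical in
/-- the primes `p` of `(x, 2 x]` with `p + h i` free of primes up to `x ^ (1 / r)` -/
noncomputable def TP {s : ℕ} (h : Fin s → ℕ) (x r : ℕ) : Finset ℕ :=
  (Ioc x (2 * x)).filter (fun p => p.Prime ∧ ∀ i, ∀ q : ℕ, q.Prime → q ∣ p + h i → (x : ℝ) ^ (1 / (r : ℝ)) < q)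

open Classical in
/-- **Tuples: a prime and almost primes.** -/
theorem tupB (s : ℕ) : ∃ r₀ : ℕ, 2 ≤ r₀ ∧ ∀ r : ℕ, r₀ ≤ r → ∀ (k : ℕ) (δ : ℝ), 1 ≤ k → 0 < δ → δ ≤ 1 →
    ∃ c : ℝ, 0 < c ∧ ∀ᶠ x : ℕ in atTop, ∀ h : Fin s → ℕ, TAdm h → (∀ i, (h i : ℝ) ≤ (x : ℝ) ^ (δ / 16)) →
    ∀ b : Fin k → ℕ, Function.Injective b → (∀ i, 1 ≤ b i) → (∀ i, (b i : ℝ) ≤ (x : ℝ) ^ (1 - δ)) →
    c * (x : ℝ) ^ (δ / 8) ≤ (((Icc 1 ⌊(x : ℝ) ^ (δ / 8)⌋₊).filter (fun d =>
      c * (x * (TV h x ^ (k + 1) / TV h ⌊δ / 8 * Real.log x⌋₊ ^ k)) ≤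
        (((TP h x r).filter (fun n => ∀ i, n + WW (δ / 8) x * d * b i ∈ TP h x r)).card : ℝ))).card : ℝ) := by
  obtain ⟨r₀, hr₀, hm⟩ := genP (s + 1) 1 1
  refine ⟨r₀, hr₀, fun r hr k δ hk hδ hδ1 => ?_⟩
  obtain ⟨κ, hκ, hκx⟩ := hm r hr
  have hr0 : (0 : ℝ) < r := by exact_mod_cast (by omega : 0 < r)
  obtain ⟨c, hc, H₀, hA⟩ := tupA s 1 k δ (1 / r) κ hk le_rfl hδ hδ1 (by positivity) hκ
  refine ⟨c, hc, ?_⟩
  filter_upwards [hκx, eventually_ge_atTop (max H₀ 1)] with x h1 h2 h hadm hh b hb hb1 hb2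
  have hx1 : 1 ≤ x := (le_max_right _ _).trans h2
  have hxr : (1 : ℝ) ≤ x := by exact_mod_cast hx1
  have h7 : (x : ℝ) ^ (1 / (r : ℝ)) ≤ x := by
    nth_rewrite 2 [← Real.rpow_one (x : ℝ)]
    apply Real.rpow_le_rpow_of_exponent_le hxr
    rw [div_le_one hr0]
    have : 1 ≤ r := by omega
    exact_mod_cast this
  refine hA x x h (TP h x r) ((le_max_left _ _).trans h2) hadm hh (by rw [pow_one]) ?_ ?_ ?_ b hb hb1 hb2
  · rw [← two_mul]
    exact filter_subset _ _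
  · intro m hm p hp hpx
    unfold TP at hm
    rw [mem_filter, mem_Ioc] at hm
    obtain ⟨⟨hm1, hm2⟩, h3, h4⟩ := hm
    constructor
    · intro hd
      have h5 := (Nat.prime_dvd_prime_iff_eq hp h3).1 hd
      have h6 : (x : ℝ) < p := by
        rw [h5]
        exact_mod_cast hm1
      linarith
    · intro i hd
      have := h4 i p hp hd
      linarith
  · have h8 := h1 (tf h) (tf_us h _ (one_le_pow₀ hxr) (fun i => (hh i).trans (by
      rw [pow_one]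
      nth_rewrite 2 [← Real.rpow_one (x : ℝ)]
      apply Real.rpow_le_rpow_of_exponent_le hxr
      linarith)) hadm) ⟨0, fun n => by
        unfold tf
        rw [lf_eval, Fin.cons_zero]
        simp⟩
    rw [tf_Q, TV_eq] at h8
    refine h8.trans ?_
    apply Nat.cast_le.2
    unfold TP
    apply card_le_card
    intro p hp
    rw [mem_filter] at hp ⊢
    refine ⟨hp.1, hp.2.1, fun i q hq hd => ?_⟩
    by_contra hcon
    rw [not_lt] at hcon
    obtain ⟨j, hj⟩ := (tf_dvd h q p).2 (Or.inr ⟨i, hd⟩)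
    exact hp.2.2 j q hq hcon hj

open Classical in
/-- **Tuples: strings of primes.** -/
theorem tupC (m s : ℕ) : ∃ η : ℝ, 0 < η ∧ ∃ B K : ℕ, ∀ (k C₀ : ℕ) (δ : ℝ), 1 ≤ k → 0 < δ → δ ≤ 1 →
    ∃ c : ℝ, 0 < c ∧ ∃ x₀ : ℕ, ∀ x : ℕ, x₀ ≤ x → ∀ (h : Fin s → ℕ) (L : ℕ), TAdm h → Function.Injective h →
      (∀ i, 1 ≤ h i) → (∀ i, (h i : ℝ) ≤ (x : ℝ) ^ (δ / 16)) →
      K ≤ L → (L : ℝ) ≤ Real.log x / Real.log (Real.log x) ^ 2 → (L ≤ C₀ ∨ ∀ i, h i ≤ C₀ ∨ L < h i) →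
      ∃ P : Finset ℕ, P ⊆ Icc 1 K ∧ m ≤ P.card ∧
      ∀ b : Fin k → ℕ, Function.Injective b → (∀ i, 1 ≤ b i) → (∀ i, (b i : ℝ) ≤ (x : ℝ) ^ (1 - δ)) →
      c * (x : ℝ) ^ (δ / 8) ≤ (((Icc 1 ⌊(x : ℝ) ^ (δ / 8)⌋₊).filter (fun d =>
        c * (x / Real.log x ^ (B * (k + 1))) ≤
        (((Ioc (x / 2) (x / 2 + x)).filter (fun n => ∀ u : ℕ, (u = 0 ∨ ∃ i, u = b i) →
          n + WW (δ / 8) x * d * u ≤ x / 2 + x ∧
          (∀ t : ℕ, 1 ≤ t → t ≤ L → ((n + WW (δ / 8) x * d * u + t).Prime ↔ t ∈ P)) ∧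
          ∀ t ∈ P, (n + WW (δ / 8) x * d * u + t).Prime ∧
            ∀ i, ∀ q : ℕ, q.Prime → q ∣ n + WW (δ / 8) x * d * u + t + h i → (x : ℝ) ^ η < q)).card : ℝ))).card : ℝ) := by
  obtain ⟨η, hη, B, K, hcl⟩ := cluV m s
  refine ⟨η, hη, B, K, fun k C₀ δ hk hδ hδ1 => ?_⟩
  obtain ⟨c, hc, x₀, h1⟩ := hcl k 1 C₀ (δ / 8) hk (by positivity) (by linarith)
  have hxr0 : Tendsto (fun X : ℕ => (X : ℝ)) atTop atTop := tendsto_natCast_atTop_atTop
  obtain ⟨x₁, hx₁⟩ := eventually_atTop.1 ((WW_big (δ / 8) (by positivity)).and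
    ((((tendsto_rpow_atTop (show (0 : ℝ) < δ / 16 by positivity)).comp hxr0).eventually_ge_atTop 1).and
      (((tendsto_rpow_atTop (show (0 : ℝ) < δ / 16 by positivity)).comp hxr0).eventually_gt_atTop (K + 1))))
  obtain ⟨x₂, hx₂⟩ := eventually_atTop.1 (WW_bigger (δ / 8) (by positivity) K)
  refine ⟨c, hc, max (max x₀ x₁) (max x₂ (2 * K + 2)), fun x hx h L hadm hinj hpos hhx hKL hL hLC => ?_⟩
  have hx0 : x₀ ≤ x := ((le_max_left _ _).trans (le_max_left _ _)).trans hx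
  have hx1 : x₁ ≤ x := ((le_max_right _ _).trans (le_max_left _ _)).trans hx
  have hx2 : x₂ ≤ x := ((le_max_left _ _).trans (le_max_right _ _)).trans hx
  have hxK : 2 * K + 2 ≤ x := ((le_max_right _ _).trans (le_max_right _ _)).trans hx
  have hxr : (1 : ℝ) < x := by exact_mod_cast (by omega : 1 < x)
  have hbig := hx₂ x hx2
  rw [show δ / 8 / 2 = δ / 16 by ring] at hbig
  have hW : ∀ i, h i + K < WW (δ / 8) x := by
    intro i
    have h3 := hhx i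
    have h4 : (h i : ℝ) + K < WW (δ / 8) x := by linarith
    exact_mod_cast h4
  obtain ⟨bb, hbb⟩ : ∃ bb : ℕ → ℤ, bb = fun l => if hl : l < s then (h ⟨l, hl⟩ : ℤ) else 0 := ⟨_, rfl⟩
  have hbl : ∀ l (hl : l < s), bb l = h ⟨l, hl⟩ := fun l hl => by rw [hbb]; simp [hl]
  have hbs : bb s = 0 := by rw [hbb]; simp
  have hcase : ∀ l ≤ s, (∃ hl : l < s, bb l = h ⟨l, hl⟩) ∨ (l = s ∧ bb l = 0) := by
    intro l hl
    rcases Nat.lt_or_ge l s with h3 | h3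
    · exact Or.inl ⟨h3, hbl l h3⟩
    · have : l = s := le_antisymm hl h3
      exact Or.inr ⟨this, by rw [this]; exact hbs⟩
  have hb0 : ∀ l ≤ s, 0 ≤ bb l := by
    intro l hl
    rcases hcase l hl with ⟨h3, h4⟩ | ⟨-, h4⟩
    · rw [h4]; exact Nat.cast_nonneg _
    · rw [h4]
  have hbW : ∀ l ≤ s, bb l + K < WW (δ / 8) x := by
    intro l hl
    rcases hcase l hl with ⟨h3, h4⟩ | ⟨-, h4⟩
    · rw [h4]; exact_mod_cast hW _
    · rw [h4]
      have h5 : (K : ℝ) < WW (δ / 8) x := by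
        have : (0 : ℝ) < (x : ℝ) ^ (δ / 16) := by positivity
        linarith
      have h6 : K < WW (δ / 8) x := by exact_mod_cast h5
      omega
  have hsys : Pool.Agent.Y848.UG.Sys s (fun _ => 1) bb := by
    refine ⟨rfl, hbs, fun l _ => le_rfl, ?_, ?_⟩
    · rintro l hl l' hl' hne ⟨-, he⟩
      rcases hcase l hl with ⟨h3, h4⟩ | ⟨h3, h4⟩ <;> rcases hcase l' hl' with ⟨h5, h6⟩ | ⟨h5, h6⟩
      · rw [h4, h6] at he
        have h7 : h ⟨l, h3⟩ = h ⟨l', h5⟩ := by exact_mod_cast he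
        have h8 := hinj h7
        rw [Fin.mk.injEq] at h8
        exact hne h8
      · rw [h4, h6] at he
        have := hpos ⟨l, h3⟩
        omega
      · rw [h4, h6] at he
        have := hpos ⟨l', h5⟩
        omega
      · omega
    · intro p hp
      obtain ⟨n, h3, h4⟩ := hadm p hp
      refine ⟨n, fun l hl hd => ?_⟩
      rcases hcase l hl with ⟨h5, h6⟩ | ⟨h5, h6⟩
      · rw [h6] at hd
        apply h4 ⟨l, h5⟩
        have : (p : ℤ) ∣ ((n + h ⟨l, h5⟩ : ℕ) : ℤ) := by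
          push_cast at hd ⊢
          rwa [one_mul] at hd
        exact Int.natCast_dvd_natCast.1 this
      · rw [h6] at hd
        apply h3
        have : (p : ℤ) ∣ (n : ℤ) := by
          push_cast at hd
          rwa [one_mul, add_zero] at hd
        exact Int.natCast_dvd_natCast.1 this
  obtain ⟨P, S, hP1, hP2, hS1, hS2, hsh⟩ := h1 x hx0 (fun _ => 1) bb L hsys
    (fun l _ => by
      push_cast
      rw [pow_one]
      exact hxr.le)
    (fun l hl => by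
      rw [pow_one]
      rcases hcase l hl with ⟨h3, h4⟩ | ⟨h3, h4⟩
      · rw [h4]
        push_cast
        rw [Nat.abs_cast]
        refine (hhx _).trans ?_
        nth_rewrite 2 [← Real.rpow_one (x : ℝ)]
        apply Real.rpow_le_rpow_of_exponent_le hxr.le
        linarith
      · rw [h4]
        simp)
    hKL hL
    (by
      rcases hLC with h3 | h3
      · exact Or.inl h3
      · right
        intro l hl _
        rw [hbl l hl]
        rcases h3 ⟨l, hl⟩ with h4 | h4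
        · left; exact_mod_cast h4
        · right; exact_mod_cast h4)
    (fun l hl n hn1 hn2 => by
      have := hb0 l hl
      push_cast
      omega)
    (fun l hl l' hl' hne u t ht1 htx htW hut htu => by
      have h3 := hb0 l hl
      have h4 := hb0 l' hl'
      have h5 := hbW l hl
      have h6 := Nat.le_of_dvd (by omega) htW
      push_cast
      omega)
  refine ⟨P, hP1, hP2, fun b hb hb1 hb2 => ?_⟩
  obtain ⟨D', hD1, hD2⟩ := hsh b hb hb1 (fun l => by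
      refine (hb2 l).trans ?_
      rw [le_div_iff₀ (by positivity), ← Real.rpow_natCast ((x : ℝ) ^ (δ / 8)), ← Real.rpow_mul (by linarith),
        ← Real.rpow_add (by linarith)]
      nth_rewrite 2 [← Real.rpow_one (x : ℝ)]
      apply Real.rpow_le_rpow_of_exponent_le hxr.le
      push_cast
      linarith)
  refine toFil _ D' hD1 le_rfl (fun e he => ?_)
  obtain ⟨h3, h4, h5⟩ := hD2 e he
  refine ⟨h3, h4, h5.trans ?_⟩
  apply Nat.cast_le.2
  apply card_le_card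
  intro n hn
  unfold solN at hn
  rw [mem_filter] at hn ⊢
  refine ⟨hS1 hn.1, fun u hu => ?_⟩
  have hmem : n + WW (δ / 8) x * e * u ∈ S := by
    rcases hu with rfl | ⟨i, rfl⟩
    · simpa using hn.1
    · have := hn.2 i
      rwa [mul_right_comm] at this
  have h6 := mem_Ioc.1 (hS1 hmem)
  obtain ⟨h7, h8⟩ := hS2 _ hmem
  refine ⟨h6.2, h7, fun t ht => ?_⟩
  obtain ⟨h9, h10⟩ := h8 t ht
  refine ⟨h9, fun i q hq hd => ?_⟩
  apply h10 i i.2 q hq
  rw [hbl i i.2]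
  have h13 : (q : ℤ) ∣ ((n + WW (δ / 8) x * e * u + t + h i : ℕ) : ℤ) := Int.natCast_dvd_natCast.2 hd
  push_cast at h13 ⊢
  rwa [one_mul]

end Pool.Agent.H534.RT
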