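import Pool.Agent.H534.RT.Eng
import Pool.Agent.H534.UT.Poly
import Pool.Graph.R_seed8.Y879.GL.UnifPoly

/-!
# Uniform systems of polynomials: constellations of every shape, uniformly in the coefficients
-/

set_option autoImplicit false

open Finset Filter Polynomial

namespace Pool.Agent.H534.RT

open Pool.Agent.H534.RS hiding majW classes engP
open Pool.Agent.Y677.RSZ hiding Sys V_pos fac_pos V_lower
open Pool.Agent.W123.RP Pool.Agent.H373R2.T7 Pool.Agent.W123.RU Pool.Agent.W123.RU.Poly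
open Pool.Agent.TH423.SH (PS)
open Pool.Agent.Y879.GL (US us_perB us_adm RR RR_dvd res_ne_zero irr_shift deg_shift res_bound coeff_shift)

/-- no two of the polynomials are translates of each other by a multiple of `W` up to `H` -/
def NT {k : ℕ} (W H : ℕ) (f : Fin k → ℤ[X]) : Prop :=
  ∀ i j, ∀ t : ℕ, 1 ≤ t → t ≤ H → W ∣ t → ¬ Associated (f i) ((f j).comp (X + C (t : ℤ)))

variable {k D : ℕ} {H : ℝ} {f : Fin k → ℤ[X]}

lemma RR_pos' (h : US k D H 0 f) (t : ℕ) (ht : ∀ i j, ¬ Associated (f i) ((f j).comp (X + C (t : ℤ)))) :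
    0 < RR f t := by
  unfold RR
  apply Finset.prod_pos
  intro i _
  apply Finset.prod_pos
  intro j _
  rw [Int.natAbs_pos]
  exact res_ne_zero _ _ (h.irr i) (irr_shift _ (h.irr j) _) (h.deg i)
    (by rw [deg_shift]; exact h.deg j) (ht i j)

lemma RR_le' (h : US k D H 0 f) (hH : 1 ≤ H) (U : ℝ) (t : ℕ) (ht : 1 ≤ t) (htU : (t : ℝ) ≤ U) :
    (RR f t : ℝ) ≤ (((2 * D).factorial : ℝ) * ((D + 1) * (H * (U ^ D * 2 ^ D))) ^ (2 * D)) ^ (k * k) := by
  have hU1 : (1 : ℝ) ≤ U := le_trans (by exact_mod_cast ht) htU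
  obtain ⟨a, ha⟩ : ∃ a : ℤ, a = ⌊H⌋ := ⟨_, rfl⟩
  have haH : (a : ℝ) ≤ H := by rw [ha]; exact Int.floor_le H
  have ha1 : 1 ≤ a := by
    rw [ha]
    exact Int.le_floor.2 (by exact_mod_cast hH)
  have hco : ∀ i n, |(f i).coeff n| ≤ a := by
    intro i n
    rw [ha]
    apply Int.le_floor.2
    push_cast
    exact h.hgt i n
  obtain ⟨b, hb⟩ : ∃ b : ℤ, b = (D + 1) * (a * (t ^ D * 2 ^ D)) := ⟨_, rfl⟩
  have ht' : (1 : ℤ) ≤ t := by exact_mod_cast ht
  have hfac1 : (1 : ℤ) ≤ (D + 1) * (t ^ D * 2 ^ D) := by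
    have h1 : (1 : ℤ) ≤ (t : ℤ) ^ D := one_le_pow₀ ht'
    have h2 : (1 : ℤ) ≤ (2 : ℤ) ^ D := one_le_pow₀ (by norm_num)
    have h3 : (1 : ℤ) ≤ (D : ℤ) + 1 := by omega
    have h4 : (1 : ℤ) ≤ (t : ℤ) ^ D * 2 ^ D := one_le_mul_of_one_le_of_one_le h1 h2
    exact one_le_mul_of_one_le_of_one_le h3 h4
  have hab : a ≤ b := by
    rw [hb]
    calc a = a * 1 := (mul_one a).symm
      _ ≤ a * ((D + 1) * (t ^ D * 2 ^ D)) := mul_le_mul_of_nonneg_left hfac1 (by omega)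
      _ = _ := by ring
  have hb1 : 1 ≤ b := by omega
  have hbR : (b : ℝ) ≤ (D + 1) * (H * (U ^ D * 2 ^ D)) := by
    rw [hb]
    push_cast
    have h0 : (0 : ℝ) ≤ a := by exact_mod_cast (by omega : (0 : ℤ) ≤ a)
    gcongr
  have hres : ∀ i j, ((resultant (f i) ((f j).comp (X + C (t : ℤ)))).natAbs : ℝ) ≤
      ((2 * D).factorial : ℝ) * ((D + 1) * (H * (U ^ D * 2 ^ D))) ^ (2 * D) := by
    intro i j
    have h1 := res_bound (f i) ((f j).comp (X + C (t : ℤ))) (f i).natDegree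
      ((f j).comp (X + C (t : ℤ))).natDegree b (fun n => (hco i n).trans hab)
      (fun n => by
        rw [hb]
        exact coeff_shift (f j) D (h.degD j) a (hco j) t ht n)
    rw [deg_shift] at h1
    have hdeg : (f i).natDegree + (f j).natDegree ≤ 2 * D := by
      have := h.degD i
      have := h.degD j
      omega
    have h2 : ((f i).natDegree + (f j).natDegree).factorial * b ^ ((f i).natDegree + (f j).natDegree) ≤
        ((2 * D).factorial : ℤ) * b ^ (2 * D) := by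
      apply mul_le_mul
      · exact_mod_cast Nat.factorial_le hdeg
      · exact pow_le_pow_right₀ hb1 hdeg
      · positivity
      · positivity
    have h3 := h1.trans h2
    have h4 : ((resultant (f i) ((f j).comp (X + C (t : ℤ)))).natAbs : ℝ) =
        ((|resultant (f i) ((f j).comp (X + C (t : ℤ))) (f i).natDegree (f j).natDegree| : ℤ) : ℝ) := by
      rw [deg_shift, Nat.cast_natAbs]
    rw [h4]
    have h5 : ((|resultant (f i) ((f j).comp (X + C (t : ℤ))) (f i).natDegree (f j).natDegree| : ℤ) : ℝ) ≤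
        (((2 * D).factorial : ℤ) * b ^ (2 * D) : ℤ) := by exact_mod_cast h3
    refine h5.trans ?_
    push_cast
    have hb0 : (0 : ℝ) ≤ b := by exact_mod_cast (by omega : (0 : ℤ) ≤ b)
    gcongr
  unfold RR
  push_cast
  calc ∏ i, ∏ j, ((resultant (f i) ((f j).comp (X + C (t : ℤ)))).natAbs : ℝ)
      ≤ ∏ _i : Fin k, ∏ _j : Fin k,
        (((2 * D).factorial : ℝ) * ((D + 1) * (H * (U ^ D * 2 ^ D))) ^ (2 * D)) := by
        apply Finset.prod_le_prod
        · intro i _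
          exact Finset.prod_nonneg fun j _ => Nat.cast_nonneg _
        · intro i _
          apply Finset.prod_le_prod
          · intro j _
            exact Nat.cast_nonneg _
          · intro j _
            exact hres i j
    _ = _ := by
        rw [Finset.prod_const, Finset.prod_const, Finset.card_univ, Fintype.card_fin, ← pow_mul]

/-- a system is periodic with few roots -/
theorem sys0_of_us (h : US k D H 0 f) : Sys0 (k * D + 1) (fun n => (∏ i, f i).eval n) := by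
  classical
  refine ⟨fun p _ n => ?_, fun p hp => ?_⟩
  · have := Polynomial.sub_dvd_eval_sub (n + p) n (∏ i, f i)
    simpa using this
  · have e2 : rt (fun n => (∏ i, f i).eval n) p = nuB (Poly.Q f) p := by
      unfold rt nuB
      congr 1
      apply filter_congr
      intro r _
      exact prod_dvd_iff f p hp r
    rw [e2]
    exact ⟨(us_perB h).few p hp, us_adm h p hp⟩

/-- collisions of a system -/
theorem coll_of_us (h : US k D H 0 f) (t p : ℕ) (hp : p.Prime) (n : ℤ) (h1 : (p : ℤ) ∣ (∏ i, f i).eval n)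
    (h2 : (p : ℤ) ∣ (∏ i, f i).eval (n + t)) : p ∣ RR f t := by
  classical
  apply RR_dvd h t p
  obtain ⟨i, hi⟩ := (prod_dvd_iff f p hp n).1 h1
  obtain ⟨j, hj⟩ := (prod_dvd_iff f p hp (n + t)).1 h2
  have hp0 : (0 : ℤ) < p := by exact_mod_cast hp.pos
  have hm0 : 0 ≤ n % p := Int.emod_nonneg _ hp0.ne'
  have hmn : (((n % p).toNat : ℕ) : ℤ) = n % p := Int.toNat_of_nonneg hm0
  have hdiv : (p : ℤ) ∣ n - n % p := ⟨n / p, by have := Int.mul_ediv_add_emod n p; linarith⟩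
  refine ⟨(n % p).toNat, ⟨i, ?_⟩, ⟨j, ?_⟩⟩
  · rw [hmn]
    have h3 : (p : ℤ) ∣ (f i).eval n - (f i).eval (n % p) :=
      hdiv.trans (Polynomial.sub_dvd_eval_sub n (n % p) (f i))
    have := dvd_sub hi h3
    simpa using this
  · push_cast
    rw [hmn]
    have h3 : (p : ℤ) ∣ (f j).eval (n + t) - (f j).eval (n % p + t) := by
      have h4 := Polynomial.sub_dvd_eval_sub (n + t) (n % p + t) (f j)
      have h5 : n + t - (n % p + t) = n - n % p := by ring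
      rw [h5] at h4
      exact hdiv.trans h4
    have := dvd_sub hj h3
    simpa using this

/-- the size of the values -/
theorem val_le (h : US k D H 0 f) (hH : 0 ≤ H) (i : Fin k) (n : ℤ) (N : ℝ) (hN : 1 ≤ N) (hn : |(n : ℝ)| ≤ N) :
    |(((f i).eval n : ℤ) : ℝ)| ≤ (D + 1) * (H * N ^ D) := by
  rw [eval_eq_sum_range]
  push_cast
  refine (abs_sum_le_sum_abs _ _).trans ?_
  have h1 : ∀ m ∈ range ((f i).natDegree + 1), |(((f i).coeff m : ℤ) : ℝ) * (n : ℝ) ^ m| ≤ H * N ^ D := by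
    intro m hm
    rw [mem_range] at hm
    rw [abs_mul, abs_pow]
    have h2 := h.hgt i m
    have h3 : |(n : ℝ)| ^ m ≤ N ^ D :=
      (pow_le_pow_left₀ (abs_nonneg _) hn m).trans (pow_le_pow_right₀ hN (by have := h.degD i; omega))
    exact mul_le_mul h2 h3 (by positivity) hH
  refine (sum_le_sum h1).trans ?_
  rw [sum_const, card_range, nsmul_eq_mul]
  have h4 : (((f i).natDegree + 1 : ℕ) : ℝ) ≤ D + 1 := by
    have := h.degD i
    exact_mod_cast (by omega : (f i).natDegree + 1 ≤ D + 1)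
  exact mul_le_mul_of_nonneg_right h4 (by positivity)

/-- the exponent -/
def gE (k D E : ℕ) : ℕ := k * D + 1 + ((2 * D * (E + D + 1) + 1) * (k * k) + k * (1 + E + (E + 1) * D))

/-- the system conditions -/
theorem sysU_of_us {k : ℕ} (D E H W : ℕ) (hH : (2 * D).factorial + (D + 1) * 2 ^ D + 1 ≤ H) (f : Fin k → ℤ[X])
    (h : US k D ((H : ℝ) ^ E) 0 f) (hW : NT W H f) : SysU (gE k D E) H W (fun n => (∏ i, f i).eval n) := by
  have hHr : (((2 * D).factorial + (D + 1) * 2 ^ D + 1 : ℕ) : ℝ) ≤ H := by exact_mod_cast hH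
  push_cast at hHr
  have hf0 : (0 : ℝ) ≤ ((2 * D).factorial : ℝ) := Nat.cast_nonneg _
  have hd0 : (0 : ℝ) ≤ ((D : ℝ) + 1) * 2 ^ D := by positivity
  have hX1 : (1 : ℝ) ≤ H := by linarith
  have hX0 : (0 : ℝ) < H := by linarith
  refine ⟨(sys0_of_us h).mono (by unfold gE; omega), fun t => RR f t, fun t ht1 htH htW =>
    ⟨RR_pos' h t (fun i j => hW i j t ht1 htH htW), ?_, fun p hp n h1 h2 => coll_of_us h t p hp n h1 h2⟩⟩
  have h1 := RR_le' h (one_le_pow₀ hX1) (H : ℝ) t ht1 (by exact_mod_cast htH)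
  have h2 : ((D : ℝ) + 1) * ((H : ℝ) ^ E * ((H : ℝ) ^ D * 2 ^ D)) ≤ (H : ℝ) ^ (E + D + 1) := by
    calc ((D : ℝ) + 1) * ((H : ℝ) ^ E * ((H : ℝ) ^ D * 2 ^ D)) =
          (((D : ℝ) + 1) * 2 ^ D) * ((H : ℝ) ^ E * (H : ℝ) ^ D) := by ring
      _ ≤ H * ((H : ℝ) ^ E * (H : ℝ) ^ D) := by
          apply mul_le_mul_of_nonneg_right (by linarith) (by positivity)
      _ = _ := by ring
  have h3 : ((2 * D).factorial : ℝ) * (((D : ℝ) + 1) * ((H : ℝ) ^ E * ((H : ℝ) ^ D * 2 ^ D))) ^ (2 * D) ≤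
      (H : ℝ) ^ (2 * D * (E + D + 1) + 1) := by
    calc _ ≤ (H : ℝ) * ((H : ℝ) ^ (E + D + 1)) ^ (2 * D) := by
          apply mul_le_mul (by linarith) _ (by positivity) hX0.le
          exact pow_le_pow_left₀ (by positivity) h2 _
      _ = _ := by
          rw [← pow_mul, pow_succ' (H : ℝ) (2 * D * (E + D + 1))]
          congr 2
          ring
  have h4 : (RR f t : ℝ) ≤ (H : ℝ) ^ gE k D E := by
    refine h1.trans ?_
    calc _ ≤ ((H : ℝ) ^ (2 * D * (E + D + 1) + 1)) ^ (k * k) := pow_le_pow_left₀ (by positivity) h3 _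
      _ = (H : ℝ) ^ ((2 * D * (E + D + 1) + 1) * (k * k)) := by rw [← pow_mul]
      _ ≤ _ := by
          apply pow_le_pow_right₀ hX1
          unfold gE
          omega
  exact_mod_cast h4

/-- the size of the values -/
theorem size_of_us {k : ℕ} (D E H : ℕ) (hE : 1 ≤ E) (hH : (2 * D).factorial + (D + 1) * 2 ^ D + 1 ≤ H) (f : Fin k → ℤ[X])
    (h : US k D ((H : ℝ) ^ E) 0 f) (n : ℤ) (hn : |(n : ℝ)| ≤ (H : ℝ) ^ E + H) :
    |(∏ i, f i).eval n| ≤ (H : ℤ) ^ gE k D E := by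
  have hHr : (((2 * D).factorial + (D + 1) * 2 ^ D + 1 : ℕ) : ℝ) ≤ H := by exact_mod_cast hH
  push_cast at hHr
  have hf0 : (0 : ℝ) ≤ ((2 * D).factorial : ℝ) := Nat.cast_nonneg _
  have hf1 : (1 : ℝ) ≤ ((2 * D).factorial : ℝ) := by exact_mod_cast Nat.one_le_iff_ne_zero.2 (Nat.factorial_ne_zero _)
  have h2D : (1 : ℝ) ≤ (2 : ℝ) ^ D := one_le_pow₀ (by norm_num)
  have hDD : (D : ℝ) + 1 ≤ ((D : ℝ) + 1) * 2 ^ D := by
    have : (0 : ℝ) ≤ (D : ℝ) + 1 := by positivity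
    nlinarith
  have hD0 : (0 : ℝ) ≤ D := Nat.cast_nonneg D
  have hX2 : (2 : ℝ) ≤ H := by linarith
  have hX1 : (1 : ℝ) ≤ H := by linarith
  have hX0 : (0 : ℝ) < H := by linarith
  have hDH : (D : ℝ) + 1 ≤ H := by linarith
  have hN : (H : ℝ) ^ E + H ≤ (H : ℝ) ^ (E + 1) := by
    have e1 : (H : ℝ) ≤ (H : ℝ) ^ E := le_self_pow₀ hX1 (by omega)
    calc (H : ℝ) ^ E + H ≤ (H : ℝ) ^ E * 2 := by linarith
      _ ≤ (H : ℝ) ^ E * H := by gcongr
      _ = _ := by ring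
  have hv : ∀ i, |(((f i).eval n : ℤ) : ℝ)| ≤ (H : ℝ) ^ (1 + E + (E + 1) * D) := by
    intro i
    have h1 := val_le h (by positivity) i n ((H : ℝ) ^ (E + 1)) (one_le_pow₀ hX1) (hn.trans hN)
    refine h1.trans ?_
    calc ((D : ℝ) + 1) * ((H : ℝ) ^ E * ((H : ℝ) ^ (E + 1)) ^ D) ≤ H * ((H : ℝ) ^ E * ((H : ℝ) ^ (E + 1)) ^ D) := by
          gcongr
      _ = _ := by rw [← pow_mul]; ring
  have hp : |(((∏ i, f i).eval n : ℤ) : ℝ)| ≤ (H : ℝ) ^ gE k D E := by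
    rw [eval_prod]
    push_cast
    rw [abs_prod]
    calc ∏ i, |(((f i).eval n : ℤ) : ℝ)| ≤ ∏ _i : Fin k, (H : ℝ) ^ (1 + E + (E + 1) * D) :=
          prod_le_prod (fun i _ => abs_nonneg _) (fun i _ => hv i)
      _ = (H : ℝ) ^ (k * (1 + E + (E + 1) * D)) := by
          rw [prod_const, card_univ, Fintype.card_fin, ← pow_mul]
          congr 1
          ring
      _ ≤ _ := by
          apply pow_le_pow_right₀ hX1
          unfold gE
          omega
  exact_mod_cast hp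

open Classical in
/-- **Uniform constellations, uniformly in the system.** -/
theorem uniP (k D E r : ℕ) (hE : 1 ≤ E) (hr : 1 ≤ r) (δ κ ε : ℝ)
    (hδ : 0 < δ) (hκ : 0 < κ) (hε : 0 < ε) (hε8 : 8 * ε ≤ 1) :
    ∃ c : ℝ, 0 < c ∧ ∃ H₀ : ℕ, ∀ H : ℕ, H₀ ≤ H → ∀ f : Fin k → ℤ[X], US k D ((H : ℝ) ^ E) 0 f →
    NT (WW ε H) H f → ∀ (Y : ℕ) (A : Finset ℕ), (Y : ℝ) ≤ (H : ℝ) ^ E →
    (∀ n ∈ Ioc Y (Y + H), ∀ i, (f i).eval (n : ℤ) ≠ 0) → A ⊆ Ioc Y (Y + H) →
    (∀ n ∈ A, ∀ i, ∀ p : ℕ, p.Prime → (p : ℝ) ≤ (H : ℝ) ^ δ → ¬ (p : ℤ) ∣ (f i).eval (n : ℤ)) →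
    κ * (H * Vq (Poly.Q f) H) ≤ A.card →
    ∀ b : Fin r → ℕ, Function.Injective b → (∀ l, 1 ≤ b l) → (∀ l, (b l : ℝ) ≤ H / ((H : ℝ) ^ ε) ^ 5) →
    ∃ D' : Finset ℕ, c * (H : ℝ) ^ ε ≤ D'.card ∧ ∀ d ∈ D', 1 ≤ d ∧ (d : ℝ) ≤ (H : ℝ) ^ ε ∧
      c * (H * (Vq (Poly.Q f) H ^ (r + 1) / Vq (Poly.Q f) ⌊ε * Real.log H⌋₊ ^ r)) ≤
        ((solN A (WW ε H) b d).card : ℝ) := by
  obtain ⟨c, H₁, hc, heng⟩ := engU r (gE k D E) δ κ ε hr hδ hκ hε hε8
  obtain ⟨H₂, hH₂⟩ := Pool.Agent.H534.UT.num1 ε κ hε hκ k 0 (gE k D E) 0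
  refine ⟨c, hc, max (max H₁ H₂) ((2 * D).factorial + (D + 1) * 2 ^ D + 1), ?_⟩
  intro H hH f hf hNT Y A hY hne hA hAr hAc b hb hb1 hb2
  have hH1 : H₁ ≤ H := ((le_max_left _ _).trans (le_max_left _ _)).trans hH
  have hH2 : H₂ ≤ H := ((le_max_right _ _).trans (le_max_left _ _)).trans hH
  have hH3 : (2 * D).factorial + (D + 1) * 2 ^ D + 1 ≤ H := (le_max_right _ _).trans hH
  obtain ⟨n1, n2, n3, n4, n5, n6, n7, n8⟩ := hH₂ H hH2
  have hVF : ∀ z, V (fun n => (∏ i, f i).eval n) 1 z = Vq (Poly.Q f) z := fun z => V_eq f z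
  obtain ⟨D', hD'c, hD'⟩ := heng (fun n => (∏ i, f i).eval n) Y H A b (sysU_of_us D E H _ hH3 f hf hNT) hH1
    (by
      intro n hn
      refine ⟨?_, ?_⟩
      · show (∏ i, f i).eval (n : ℤ) ≠ 0
        rw [eval_prod]
        exact Finset.prod_ne_zero_iff.2 fun i _ => hne n hn i
      · apply size_of_us D E H hE hH3 f hf
        rw [mem_Ioc] at hn
        have h1 : ((n : ℤ) : ℝ) = (n : ℝ) := Int.cast_natCast n
        rw [h1, abs_of_nonneg (Nat.cast_nonneg n)]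
        have h2 : (n : ℝ) ≤ ((Y + H : ℕ) : ℝ) := by exact_mod_cast hn.2
        push_cast at h2
        linarith)
    hA
    (by
      intro n hn p hp hpH hd
      obtain ⟨i, hi⟩ := (prod_dvd_iff f p hp n).1 hd
      exact hAr n hn i p hp hpH hi)
    (by rw [hVF]; exact hAc) hb hb1 hb2
  refine ⟨D', hD'c, ?_⟩
  intro d hd
  obtain ⟨h1, h2, h3⟩ := hD' d hd
  refine ⟨h1, h2, ?_⟩
  refine le_trans (le_of_eq ?_) h3
  have hsplit : V (fun n => (∏ i, f i).eval n) 1 H =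
      dW (fun n => (∏ i, f i).eval n) (WW ε H) * V (fun n => (∏ i, f i).eval n) (WW ε H) H := by
    apply Pool.Agent.H534.UT.V_dW _ _ _ (WW_pos ε H)
    intro p hp hd
    have h4 := (WW_dvd ε hε.le H p hp).1 hd
    have h5 : (p : ℝ) ≤ H := h4.trans n5
    exact_mod_cast h5
  have hdWe := Pool.Agent.H534.UT.dW_WW (fun n => (∏ i, f i).eval n) ε H
  rw [hVF] at hdWe
  rw [hVF] at hsplit
  have hd0 : 0 < dW (fun n => (∏ i, f i).eval n) (WW ε H) := by
    rw [hdWe]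
    exact Pool.Agent.TH464.PO.Vq_pos _ (us_adm hf) _
  rw [hsplit, ← hdWe, mul_pow, pow_succ (dW (fun n => (∏ i, f i).eval n) (WW ε H)) r]
  field_simp

end Pool.Agent.H534.RT
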